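import Pool.Agent.Helper156.RP.Old

open scoped Manifold ContDiff Topology RealInnerProductSpace
open Set Topology

noncomputable section

namespace Pool.Agent.Helper156.RP

/-- `ℝ³` -/
abbrev E3 := EuclideanSpace ℝ (Fin 3)

/-- `ℝ⁴` -/
abbrev E4 := EuclideanSpace ℝ (Fin 4)

/-- A Rayleigh quotient plus a constant. -/
def ray (B : E4 →ₗ[ℝ] E4) (c : ℝ) (v : E4) : ℝ := c + ⟪B v, v⟫ / ‖v‖ ^ 2

/-- The degree zero map `ℝ⁴ \ {0} → ℝ^N` given by `N` quadratic forms. -/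
def fam {N : ℕ} (B : Fin N → (E4 →ₗ[ℝ] E4)) (v : E4) : EuclideanSpace ℝ (Fin N) :=
  WithLp.toLp 2 (fun k => ⟪B k v, v⟫ / ‖v‖ ^ 2)

end Pool.Agent.Helper156.RP
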