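import Pool.Agent.Helper156.RP.Base

open scoped Manifold ContDiff Topology RealInnerProductSpace
open Set Topology

noncomputable section

namespace Pool.Agent.Helper156.RP.J30371

open Pool.Agent.Helper156.RP


theorem compactSpace_RP3 : CompactSpace RP3 := by
  have hne : ∀ x : Metric.sphere (0 : EuclideanSpace ℝ (Fin 4)) 1, (x : EuclideanSpace ℝ (Fin 4)) ≠ 0 := by
    intro x hx
    have h1 : ‖(x : EuclideanSpace ℝ (Fin 4))‖ = 1 := by
      have := x.2
      rwa [mem_sphere_zero_iff_norm] at this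
    rw [hx, norm_zero] at h1
    exact zero_ne_one h1
  have hcs : CompactSpace (Metric.sphere (0 : EuclideanSpace ℝ (Fin 4)) 1) :=
    isCompact_iff_compactSpace.mp (isCompact_sphere _ _)
  let g : Metric.sphere (0 : EuclideanSpace ℝ (Fin 4)) 1 → RP3 := fun x => RP3.mk x.1 (hne x)
  have hg : Continuous g := isQuotientMap_mk.continuous.comp
    (continuous_subtype_val.subtype_mk hne)
  have hs : Function.Surjective g := by
    intro p
    obtain ⟨v, hv, hp⟩ := exists_mk p
    have hn : ‖v‖ ≠ 0 := norm_ne_zero_iff.mpr hv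
    refine ⟨⟨(‖v‖⁻¹ : ℝ) • v, ?_⟩, ?_⟩
    · rw [mem_sphere_zero_iff_norm, norm_smul, norm_inv, norm_norm, inv_mul_cancel₀ hn]
    · rw [← hp]
      exact (mk_eq_mk_iff _ _).mpr ⟨‖v‖⁻¹, rfl⟩
  constructor
  rw [← hs.range_eq]
  exact isCompact_range hg

theorem t2Space_RP3 : T2Space RP3 := by
  let g : RP3 → Fin 4 → Fin 4 → ℝ := fun p i j => p.rep i * p.rep j / ‖p.rep‖ ^ 2
  have hg : Continuous g := by
    rw [isQuotientMap_mk.continuous_iff]
    have h1 : g ∘ (fun v : {v : EuclideanSpace ℝ (Fin 4) // v ≠ 0} => RP3.mk v.1 v.2) =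
        fun v i j => v.1 i * v.1 j / ‖v.1‖ ^ 2 := by
      funext v i j
      show (RP3.mk v.1 v.2).rep i * (RP3.mk v.1 v.2).rep j / ‖(RP3.mk v.1 v.2).rep‖ ^ 2 = _
      obtain ⟨a, ha, h⟩ := rep_mk v.2
      rw [h, PiLp.smul_apply, PiLp.smul_apply, smul_eq_mul, smul_eq_mul, norm_smul, mul_pow,
        Real.norm_eq_abs, sq_abs]
      have hn : ‖v.1‖ ≠ 0 := norm_ne_zero_iff.mpr v.2
      field_simp
    rw [h1]
    refine continuous_pi fun i => continuous_pi fun j => ?_
    have c : ∀ j : Fin 4, Continuous fun v : {v : EuclideanSpace ℝ (Fin 4) // v ≠ 0} => v.1 j :=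
      fun j => (EuclideanSpace.proj (𝕜 := ℝ) j).continuous.comp continuous_subtype_val
    refine ((c i).mul (c j)).div (continuous_subtype_val.norm.pow 2) ?_
    intro v
    exact pow_ne_zero 2 (norm_ne_zero_iff.mpr v.2)
  have hi : Function.Injective g := by
    intro p q hpq
    have hx := rep_ne p
    have hX : ‖p.rep‖ ^ 2 ≠ 0 := pow_ne_zero 2 (norm_ne_zero_iff.mpr (rep_ne p))
    have hY : ‖q.rep‖ ^ 2 ≠ 0 := pow_ne_zero 2 (norm_ne_zero_iff.mpr (rep_ne q))
    have hij : ∀ i j, p.rep i * p.rep j / ‖p.rep‖ ^ 2 = q.rep i * q.rep j / ‖q.rep‖ ^ 2 :=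
      fun i j => congrFun (congrFun hpq i) j
    obtain ⟨j, hj⟩ := exists_index q
    have hpj : p.rep j ≠ 0 := by
      intro h0
      have h1 := hij j j
      rw [h0, mul_zero, zero_div] at h1
      have : q.rep j * q.rep j / ‖q.rep‖ ^ 2 ≠ 0 := div_ne_zero (mul_ne_zero hj hj) hY
      exact this h1.symm
    rw [← mk_rep p, ← mk_rep q, mk_eq_mk_iff]
    refine ⟨q.rep j * ‖p.rep‖ ^ 2 / (‖q.rep‖ ^ 2 * p.rep j), ?_⟩
    ext i
    rw [PiLp.smul_apply, smul_eq_mul]
    have h1 := hij i j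
    field_simp at h1 ⊢
    linear_combination -h1
  exact T2Space.of_injective_continuous hi hg

end Pool.Agent.Helper156.RP.J30371
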