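import Pool.Agent.Helper156.RP.Base

open scoped Manifold ContDiff Topology RealInnerProductSpace
open Set Topology

noncomputable section

namespace Pool.Agent.Helper156.RP.J30373

open Pool.Agent.Helper156.RP


theorem contDiff_ins_aux (i : Fin 4) : ContDiff ℝ ∞ (ins i) := by
  rw [contDiff_euclidean]
  intro j
  rcases Fin.eq_self_or_eq_succAbove i j with h | ⟨k, h⟩
  · subst h
    have : (fun x : EuclideanSpace ℝ (Fin 3) => (ins j x) j) = fun _ => (1 : ℝ) := by
      funext x
      exact ins_same j x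
    rw [this]
    exact contDiff_const
  · subst h
    have : (fun x : EuclideanSpace ℝ (Fin 3) => (ins i x) (i.succAbove k)) = fun x => x k := by
      funext x
      exact ins_succAbove i x k
    rw [this]
    exact (EuclideanSpace.proj (𝕜 := ℝ) k).contDiff

theorem homog_contMDiff {V : Type} [NormedAddCommGroup V] [NormedSpace ℝ V] (F : E4 → V)
    (hF : ContDiffOn ℝ ∞ F {v | v ≠ 0})
    (hh : ∀ (a : ℝ) (v : E4), a ≠ 0 → v ≠ 0 → F (a • v) = F v) :
    ContMDiff (𝓡 3) 𝓘(ℝ, V) ∞ (fun p : RP3 => F p.rep) := by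
  have hmk : ∀ (v : E4) (hv : v ≠ 0), F ((RP3.mk v hv).rep) = F v := by
    intro v hv
    obtain ⟨a, ha, h⟩ := rep_mk hv
    rw [h]
    exact hh a v ha hv
  have hcont : Continuous (fun p : RP3 => F p.rep) := by
    rw [isQuotientMap_mk.continuous_iff]
    have h1 : (fun p : RP3 => F p.rep) ∘
        (fun v : {v : EuclideanSpace ℝ (Fin 4) // v ≠ 0} => RP3.mk v.1 v.2) =
        fun v => F v.1 := by
      funext v
      exact hmk v.1 v.2
    rw [h1]
    exact hF.continuousOn.comp_continuous continuous_subtype_val (fun v => v.2)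
  intro p
  rw [contMDiffAt_iff]
  refine ⟨hcont.continuousAt, ?_⟩
  have h2 : (extChartAt 𝓘(ℝ, V) (F p.rep) ∘ (fun p : RP3 => F p.rep) ∘
      (extChartAt (𝓡 3) p).symm) = fun w => F (ins (Classical.choose (exists_index p)) w) := by
    funext w
    exact hmk _ (ins_ne (Classical.choose (exists_index p)) w)
  rw [h2]
  have h3 : ContDiff ℝ ∞ (fun w => F (ins (Classical.choose (exists_index p)) w)) := by
    rw [← contDiffOn_univ]
    exact hF.comp (contDiff_ins_aux _).contDiffOn (fun w _ => ins_ne _ w)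
  exact h3.contDiffAt.contDiffWithinAt

end Pool.Agent.Helper156.RP.J30373
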