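import Pool.Agent.Helper156.RP.Base
import Pool.Agent.Helper156.RP.J30373

open scoped Manifold ContDiff Topology RealInnerProductSpace
open Set Topology

noncomputable section

namespace Pool.Agent.Helper156.RP.J30374

open Pool.Agent.Helper156.RP Pool.Agent.Helper156.RP.J30373


theorem homog_mfderiv_written {V : Type} [NormedAddCommGroup V] [NormedSpace ℝ V] (F : E4 → V)
    (hh : ∀ (a : ℝ) (v : E4), a ≠ 0 → v ≠ 0 → F (a • v) = F v) (p : RP3) :
    writtenInExtChartAt (𝓡 3) 𝓘(ℝ, V) p (fun p : RP3 => F p.rep) =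
      fun w : E3 => F (ins (Classical.choose (exists_index p)) w) := by
  funext w
  obtain ⟨a, ha, har⟩ := rep_mk (ins_ne (Classical.choose (exists_index p)) w)
  have h1 : writtenInExtChartAt (𝓡 3) 𝓘(ℝ, V) p (fun p : RP3 => F p.rep) w =
      F (RP3.mk (ins (Classical.choose (exists_index p)) w)
        (ins_ne (Classical.choose (exists_index p)) w)).rep := rfl
  rw [h1, har, hh a _ ha (ins_ne _ w)]

theorem homog_mfderiv {V : Type} [NormedAddCommGroup V] [NormedSpace ℝ V] (F : E4 → V)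
    (hF : ContDiffOn ℝ ∞ F {v | v ≠ 0})
    (hh : ∀ (a : ℝ) (v : E4), a ≠ 0 → v ≠ 0 → F (a • v) = F v) (p : RP3) :
    ∃ (i : Fin 4) (w : E3), RP3.mk (ins i w) (ins_ne i w) = p ∧
      ∀ u : E3, mfderiv (𝓡 3) 𝓘(ℝ, V) (fun p : RP3 => F p.rep) p u =
        fderiv ℝ (fun w : E3 => F (ins i w)) w u := by
  refine ⟨Classical.choose (exists_index p), chart (Classical.choose (exists_index p)) p,
    mk_ins_div _ p (Classical.choose_spec (exists_index p)), fun u => ?_⟩
  have hmd : MDifferentiableAt (𝓡 3) 𝓘(ℝ, V) (fun p : RP3 => F p.rep) p :=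
    (homog_contMDiff F hF hh p).mdifferentiableAt (by simp)
  have hr : range (𝓡 3) = univ := (𝓡 3).range_eq_univ
  rw [mfderiv, if_pos hmd, homog_mfderiv_written F hh p, hr, fderivWithin_univ]
  rfl

end Pool.Agent.Helper156.RP.J30374
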