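import Pool.Agent.Helper156.RP.Base
import Pool.Agent.Helper156.RP.J30373

open scoped Manifold ContDiff Topology RealInnerProductSpace
open Set Topology

noncomputable section

namespace Pool.Agent.Helper156.RP.J30377

open Pool.Agent.Helper156.RP Pool.Agent.Helper156.RP.J30373


theorem homog_hess_symm (p : RP3) (w : E3) :
    (extChartAt (𝓡 3) p).symm w = RP3.mk (ins (Classical.choose (exists_index p)) w)
      (ins_ne (Classical.choose (exists_index p)) w) := by
  rfl

theorem homog_hess_pt (p : RP3) : extChartAt (𝓡 3) p p =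
    (WithLp.toLp 2 (fun k : Fin 3 => p.rep ((Classical.choose (exists_index p)).succAbove k) /
      p.rep (Classical.choose (exists_index p))) : E3) := by
  rfl

theorem homog_hess_F (F : E4 → ℝ)
    (hh : ∀ (a : ℝ) (v : E4), a ≠ 0 → v ≠ 0 → F (a • v) = F v) (i : Fin 4) (w : E3) :
    F (RP3.mk (ins i w) (ins_ne i w)).rep = F (ins i w) := by
  obtain ⟨a, ha, h⟩ := rep_mk (ins_ne i w)
  rw [h]
  exact hh a _ ha (ins_ne i w)

theorem homog_hess_comp (F : E4 → ℝ)
    (hh : ∀ (a : ℝ) (v : E4), a ≠ 0 → v ≠ 0 → F (a • v) = F v) (p : RP3) :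
    (fun p : RP3 => F p.rep) ∘ (extChartAt (𝓡 3) p).symm =
      fun w : E3 => F (ins (Classical.choose (exists_index p)) w) := by
  funext w
  rw [Function.comp_apply, homog_hess_symm]
  exact homog_hess_F F hh _ w

theorem homog_hess (F : E4 → ℝ)
    (hF : ContDiffOn ℝ ∞ F {v | v ≠ 0})
    (hh : ∀ (a : ℝ) (v : E4), a ≠ 0 → v ≠ 0 → F (a • v) = F v) (p : RP3) :
    ∃ (i : Fin 4) (w : E3), RP3.mk (ins i w) (ins_ne i w) = p ∧
      (IsCritical0 3 (fun p : RP3 => F p.rep) p ↔ fderiv ℝ (fun w : E3 => F (ins i w)) w = 0) ∧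
      hess0 3 (fun p : RP3 => F p.rep) p =
        fderiv ℝ (fderiv ℝ (fun w : E3 => F (ins i w))) w := by
  refine ⟨Classical.choose (exists_index p), extChartAt (𝓡 3) p p, ?_, ?_, ?_⟩
  · rw [← homog_hess_symm]
    exact extChartAt_to_inv (I := 𝓡 3) p
  · have hmd : MDifferentiableAt (𝓡 3) 𝓘(ℝ) (fun p : RP3 => F p.rep) p :=
      (homog_contMDiff F hF hh).mdifferentiableAt (by simp)
    have h1 : mfderiv (𝓡 3) 𝓘(ℝ) (fun p : RP3 => F p.rep) p =
        fderiv ℝ (fun w : E3 => F (ins (Classical.choose (exists_index p)) w))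
          (extChartAt (𝓡 3) p p) := by
      rw [mfderiv, if_pos hmd]
      have h2 : writtenInExtChartAt (𝓡 3) 𝓘(ℝ) p (fun p : RP3 => F p.rep) =
          fun w : E3 => F (ins (Classical.choose (exists_index p)) w) := by
        rw [← homog_hess_comp F hh p]
        rfl
      rw [h2]
      have h3 : range (𝓡 3) = univ := ModelWithCorners.range_eq_univ _
      rw [h3, fderivWithin_univ]
    unfold IsCritical0
    rw [h1]
    exact Iff.rfl
  · unfold hess0
    rw [homog_hess_comp F hh p]

end Pool.Agent.Helper156.RP.J30377
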