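import Pool.Agent.Helper156.RP.Base

open scoped Manifold ContDiff Topology RealInnerProductSpace
open Set Topology

noncomputable section

namespace Pool.Agent.Helper156.RP.J30384

open Pool.Agent.Helper156.RP


/-- linear part of `ins i` -/
def insL (i : Fin 4) : E3 →ₗ[ℝ] E4 where
  toFun u := ins i u - ins i 0
  map_add' u v := by
    ext j
    rcases Fin.eq_self_or_eq_succAbove i j with h | ⟨k, h⟩
    · subst h
      simp [ins_same]
    · subst h
      simp [ins_succAbove]
  map_smul' a u := by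
    ext j
    rcases Fin.eq_self_or_eq_succAbove i j with h | ⟨k, h⟩
    · subst h
      simp [ins_same]
    · subst h
      simp [ins_succAbove]

theorem insL_same (i : Fin 4) (u : E3) : insL i u i = 0 := by
  simp [insL, ins_same]

theorem insL_succAbove (i : Fin 4) (u : E3) (k : Fin 3) : insL i u (i.succAbove k) = u k := by
  simp [insL, ins_succAbove]

theorem hasFDerivAt_ins (i : Fin 4) (w : E3) :
    HasFDerivAt (ins i) (LinearMap.toContinuousLinearMap (insL i)) w := by
  have h1 : ins i = fun u => ins i 0 + LinearMap.toContinuousLinearMap (insL i) u := by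
    funext u
    simp [insL]
  rw [h1]
  exact ((LinearMap.toContinuousLinearMap (insL i)).hasFDerivAt).const_add _

theorem inner4 (i : Fin 4) (x y : E4) :
    ⟪x, y⟫ = x i * y i + ∑ k : Fin 3, x (i.succAbove k) * y (i.succAbove k) := by
  rw [PiLp.inner_apply, Fin.sum_univ_succAbove _ i]
  simp [mul_comm]

theorem hasFDerivAt_ray_ins (B : E4 →ₗ[ℝ] E4) (hB : B.IsSymmetric) (c : ℝ) (i : Fin 4) (w : E3) :
    ∃ D : E3 →L[ℝ] ℝ, HasFDerivAt (fun w : E3 => ray B c (ins i w)) D w ∧
      ∀ u, D u = 2 * (⟪B (ins i w), insL i u⟫ * ‖ins i w‖ ^ 2 -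
        ⟪B (ins i w), ins i w⟫ * ⟪ins i w, insL i u⟫) / (‖ins i w‖ ^ 2) ^ 2 := by
  have hins := hasFDerivAt_ins i w
  have hBc : HasFDerivAt (fun w => B (ins i w))
      ((LinearMap.toContinuousLinearMap B).comp (LinearMap.toContinuousLinearMap (insL i))) w :=
    ((LinearMap.toContinuousLinearMap B).hasFDerivAt).comp w hins
  have hnum := hBc.inner ℝ hins
  have hden := hins.norm_sq
  have hN : ‖ins i w‖ ^ 2 ≠ 0 := by
    have := norm_ne_zero_iff.2 (ins_ne i w)
    positivity
  have hinv := (hasDerivAt_inv hN).comp_hasFDerivAt w hden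
  have hq := (hnum.mul hinv).const_add c
  refine ⟨_, hq, ?_⟩
  intro u
  simp only [add_apply, smul_apply, smul_eq_mul,
    ContinuousLinearMap.comp_apply, ContinuousLinearMap.prod_apply, fderivInnerCLM_apply,
    LinearMap.coe_toContinuousLinearMap', innerSL_apply_apply, Function.comp_apply]
  have h1 : ⟪B (insL i u), ins i w⟫ = ⟪B (ins i w), insL i u⟫ := by
    rw [hB (insL i u) (ins i w), real_inner_comm]
  rw [h1]
  field_simp
  ring

theorem fderiv_ray_ins (B : E4 →ₗ[ℝ] E4) (hB : B.IsSymmetric) (c : ℝ) (i : Fin 4) (w : E3) :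
    fderiv ℝ (fun w : E3 => ray B c (ins i w)) w = 0 ↔ ∃ l : ℝ, B (ins i w) = l • ins i w := by
  obtain ⟨D, hD, hDu⟩ := hasFDerivAt_ray_ins B hB c i w
  rw [hD.fderiv]
  have hN : 0 < ‖ins i w‖ ^ 2 := by
    have := norm_pos_iff.2 (ins_ne i w)
    positivity
  have hN2 : ⟪ins i w, ins i w⟫ = ‖ins i w‖ ^ 2 := real_inner_self_eq_norm_sq _
  constructor
  · intro h0
    refine ⟨⟪B (ins i w), ins i w⟫ / ‖ins i w‖ ^ 2, ?_⟩
    obtain ⟨r, hr⟩ : ∃ r : E4, r = B (ins i w) -
      (⟪B (ins i w), ins i w⟫ / ‖ins i w‖ ^ 2) • ins i w := ⟨_, rfl⟩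
    have h1 : ∀ u, ⟪r, insL i u⟫ = 0 := by
      intro u
      have h2 := hDu u
      rw [h0, zero_apply, eq_comm, div_eq_zero_iff] at h2
      have h3 : 2 * (⟪B (ins i w), insL i u⟫ * ‖ins i w‖ ^ 2 -
        ⟪B (ins i w), ins i w⟫ * ⟪ins i w, insL i u⟫) = 0 := by
        rcases h2 with h2 | h2
        · exact h2
        · exact absurd h2 (by positivity)
      rw [hr, inner_sub_left, real_inner_smul_left, div_mul_eq_mul_div, sub_eq_zero,
        eq_div_iff hN.ne']
      linarith
    have h4 : ⟪r, ins i w⟫ = 0 := by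
      rw [hr, inner_sub_left, real_inner_smul_left, hN2, div_mul_cancel₀ _ hN.ne', sub_self]
    have h5 : ∀ k : Fin 3, r (i.succAbove k) = 0 := by
      have h6 := h1 (WithLp.toLp 2 (fun k => r (i.succAbove k)))
      rw [inner4 i, insL_same, mul_zero, zero_add] at h6
      simp only [insL_succAbove] at h6
      rw [Finset.sum_eq_zero_iff_of_nonneg (fun k _ => mul_self_nonneg _)] at h6
      intro k
      exact mul_self_eq_zero.1 (h6 k (Finset.mem_univ k))
    have h7 : r i = 0 := by
      rw [inner4 i, ins_same] at h4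
      simp only [h5, zero_mul, Finset.sum_const_zero, add_zero, mul_one] at h4
      exact h4
    have h8 : r = 0 := by
      ext j
      rcases Fin.eq_self_or_eq_succAbove i j with h | ⟨k, h⟩
      · subst h
        exact h7
      · subst h
        exact h5 k
    rw [h8] at hr
    exact (sub_eq_zero.1 hr.symm)
  · rintro ⟨l, hl⟩
    ext u
    rw [hDu u, hl, real_inner_smul_left, real_inner_smul_left, hN2]
    simp only [zero_apply]
    rw [div_eq_zero_iff]
    left
    ring

end Pool.Agent.Helper156.RP.J30384
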