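import Pool.Agent.Helper156.RP.Base
import Pool.Agent.Helper156.RP.J30384

open scoped Manifold ContDiff Topology RealInnerProductSpace
open Set Topology

noncomputable section

namespace Pool.Agent.Helper156.RP.J30386

open Pool.Agent.Helper156.RP Pool.Agent.Helper156.RP.J30384


theorem hess_ray_ins (B : E4 →ₗ[ℝ] E4) (hB : B.IsSymmetric) (c : ℝ) (i : Fin 4) (w : E3)
    (l : ℝ) (u : E4) (hw : B (ins i w) = l • ins i w) (hu : B u = l • u)
    (hne : ∀ a : ℝ, u ≠ a • ins i w) :
    ∃ x : E3, x ≠ 0 ∧ fderiv ℝ (fderiv ℝ (fun w : E3 => ray B c (ins i w))) w x = 0 := by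
  obtain ⟨u0, hu0⟩ : ∃ u0 : E4, u0 = u - (u i) • ins i w := ⟨_, rfl⟩
  have h0i : u0 i = 0 := by
    rw [hu0, PiLp.sub_apply, PiLp.smul_apply, ins_same, smul_eq_mul, mul_one, sub_self]
  have hBu0 : B u0 = l • u0 := by
    rw [hu0, map_sub, map_smul, hw, hu, smul_sub, smul_comm]
  have hu0ne : u0 ≠ 0 := by
    intro h
    rw [hu0, sub_eq_zero] at h
    exact hne _ h
  obtain ⟨x, hx⟩ : ∃ x : E3, x = WithLp.toLp 2 (fun k : Fin 3 => u0 (i.succAbove k)) := ⟨_, rfl⟩
  have hxk : ∀ k, x k = u0 (i.succAbove k) := by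
    intro k
    rw [hx]
  have hxne : x ≠ 0 := by
    intro h
    apply hu0ne
    ext j
    rcases Fin.eq_self_or_eq_succAbove i j with hj | ⟨k, hj⟩
    · subst hj
      rw [h0i]
      rfl
    · subst hj
      rw [← hxk, h]
      rfl
  have hins : ∀ t : ℝ, ins i (w + t • x) = ins i w + t • u0 := by
    intro t
    ext j
    rw [PiLp.add_apply, PiLp.smul_apply, smul_eq_mul]
    rcases Fin.eq_self_or_eq_succAbove i j with hj | ⟨k, hj⟩
    · subst hj
      rw [ins_same, ins_same, h0i, mul_zero, add_zero]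
    · subst hj
      rw [ins_succAbove, ins_succAbove, PiLp.add_apply, PiLp.smul_apply, smul_eq_mul, hxk]
  have hzero : ∀ t : ℝ, fderiv ℝ (fun w : E3 => ray B c (ins i w)) (w + t • x) = 0 := by
    intro t
    rw [fderiv_ray_ins B hB c i (w + t • x)]
    refine ⟨l, ?_⟩
    rw [hins, map_add, map_smul, hw, hBu0, smul_add, smul_comm]
  refine ⟨x, hxne, ?_⟩
  by_cases hd : DifferentiableAt ℝ (fderiv ℝ (fun w : E3 => ray B c (ins i w))) w
  · have h1 : HasDerivAt (fun t : ℝ => w + t • x) x 0 := by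
      have := ((hasDerivAt_id (0 : ℝ)).smul_const x).const_add w
      simpa using this
    have h2 : HasFDerivAt (fderiv ℝ (fun w : E3 => ray B c (ins i w)))
        (fderiv ℝ (fderiv ℝ (fun w : E3 => ray B c (ins i w))) w) (w + (0 : ℝ) • x) := by
      rw [zero_smul, add_zero]
      exact hd.hasFDerivAt
    have h3 := h2.comp_hasDerivAt (0 : ℝ) h1
    have h4 : HasDerivAt (fderiv ℝ (fun w : E3 => ray B c (ins i w)) ∘ fun t : ℝ => w + t • x)
        0 0 := by
      have h5 : (fderiv ℝ (fun w : E3 => ray B c (ins i w)) ∘ fun t : ℝ => w + t • x) =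
          fun _ => 0 := by
        funext t
        exact hzero t
      rw [h5]
      exact hasDerivAt_const _ _
    exact h3.unique h4
  · rw [fderiv_zero_of_not_differentiableAt hd]
    rfl

end Pool.Agent.Helper156.RP.J30386
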