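import Pool.Agent.Helper156.RP.Base

open scoped Manifold ContDiff Topology RealInnerProductSpace
open Set Topology

noncomputable section

namespace Pool.Agent.Helper156.RP.J30388

open Pool.Agent.Helper156.RP


theorem ray_contDiffOn (B : E4 →ₗ[ℝ] E4) (c : ℝ) : ContDiffOn ℝ ∞ (ray B c) {v | v ≠ 0} := by
  unfold ray
  have hB : ContDiff ℝ ∞ (fun v : E4 => B v) := (LinearMap.toContinuousLinearMap B).contDiff
  apply ContDiffOn.add contDiffOn_const
  apply ContDiffOn.div
  · exact (hB.inner ℝ contDiff_id).contDiffOn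
  · exact (contDiff_norm_sq ℝ).contDiffOn
  · intro v hv
    have hv' : v ≠ 0 := hv
    exact pow_ne_zero _ (norm_ne_zero_iff.mpr hv')

theorem ray_homog (B : E4 →ₗ[ℝ] E4) (c a : ℝ) (v : E4) (ha : a ≠ 0) :
    ray B c (a • v) = ray B c v := by
  unfold ray
  rw [map_smul, inner_smul_left, inner_smul_right, norm_smul, mul_pow, Real.norm_eq_abs, sq_abs]
  congr 1
  have e : (starRingEnd ℝ) a * (a * ⟪B v, v⟫) = a ^ 2 * ⟪B v, v⟫ := by
    simp only [conj_trivial]
    ring
  rw [e, mul_div_mul_left _ _ (pow_ne_zero 2 ha)]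

end Pool.Agent.Helper156.RP.J30388
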