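import Pool.Agent.Helper156.RP.Base

open scoped Manifold ContDiff Topology RealInnerProductSpace
open Set Topology

noncomputable section

namespace Pool.Agent.Helper156.RP.J30410

open Pool.Agent.Helper156.RP


theorem eig_count (B : E4 →ₗ[ℝ] E4) (hB : B.IsSymmetric)
    (h : ∀ (l : ℝ) (v u : E4), v ≠ 0 → B v = l • v → B u = l • u → ∃ a : ℝ, u = a • v) :
    {p : RP3 | ∃ l : ℝ, B p.rep = l • p.rep}.encard = 4 := by
  have hn : Module.finrank ℝ E4 = 4 := by simp [E4]
  obtain ⟨e, he⟩ : ∃ e : OrthonormalBasis (Fin 4) ℝ E4, e = hB.eigenvectorBasis hn := ⟨_, rfl⟩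
  obtain ⟨lam, hlam⟩ : ∃ lam : Fin 4 → ℝ, lam = hB.eigenvalues hn := ⟨_, rfl⟩
  have hBe : ∀ i, B (e i) = lam i • e i := by
    intro i
    rw [he, hlam]
    exact hB.apply_eigenvectorBasis hn i
  have hne : ∀ i, e i ≠ 0 := fun i => e.orthonormal.ne_zero i
  have hoo : ∀ i j, i ≠ j → ∀ a : ℝ, a • e i ≠ e j := by
    intro i j hij a ha
    have h1 : ⟪e i, e j⟫ = 0 := e.orthonormal.2 hij
    rw [← ha, inner_smul_right, real_inner_self_eq_norm_sq, e.orthonormal.1 i] at h1
    have ha0 : a = 0 := by simpa using h1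
    rw [ha0, zero_smul] at ha
    exact hne j ha.symm
  have hset : {p : RP3 | ∃ l : ℝ, B p.rep = l • p.rep} = Set.range (fun i => RP3.mk (e i) (hne i)) := by
    ext p
    constructor
    · rintro ⟨l, hl⟩
      have hv := rep_ne p
      obtain ⟨i, hi⟩ : ∃ i, ⟪e i, p.rep⟫ ≠ 0 := by
        by_contra hcon
        push Not at hcon
        apply hv
        rw [← e.sum_repr' p.rep]
        apply Finset.sum_eq_zero
        intro i _
        rw [hcon i, zero_smul]
      have h1 : ⟪B (e i), p.rep⟫ = ⟪e i, B p.rep⟫ := hB (e i) p.rep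
      rw [hBe, hl, inner_smul_left, inner_smul_right] at h1
      have h2 : lam i = l := by
        have : lam i * ⟪e i, p.rep⟫ = l * ⟪e i, p.rep⟫ := by simpa using h1
        exact mul_right_cancel₀ hi this
      obtain ⟨a, ha⟩ := h l p.rep (e i) hv hl (by rw [hBe, h2])
      refine ⟨i, ?_⟩
      show RP3.mk (e i) (hne i) = p
      rw [← mk_rep p]
      rw [mk_eq_mk_iff]
      exact ⟨a, ha.symm⟩
    · rintro ⟨i, rfl⟩
      obtain ⟨a, _, ha⟩ := rep_mk (hne i)
      refine ⟨lam i, ?_⟩
      show B (RP3.mk (e i) (hne i)).rep = lam i • (RP3.mk (e i) (hne i)).rep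
      rw [ha, map_smul, hBe, smul_comm]
  have hinj : Function.Injective (fun i => RP3.mk (e i) (hne i)) := by
    intro i j hij
    by_contra hne'
    simp only at hij
    rw [mk_eq_mk_iff] at hij
    obtain ⟨a, ha⟩ := hij
    exact hoo j i (Ne.symm hne') a ha
  rw [hset, ← Set.image_univ, hinj.encard_image, Set.encard_univ]
  simp

end Pool.Agent.Helper156.RP.J30410
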