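import Pool.Agent.Helper156.RP.Base

open scoped Manifold ContDiff Topology RealInnerProductSpace
open Set Topology

noncomputable section

namespace Pool.Agent.Helper156.RP.J30418

open Pool.Agent.Helper156.RP


theorem fam_contDiffOn {N : ℕ} (B : Fin N → (E4 →ₗ[ℝ] E4)) :
    ContDiffOn ℝ ∞ (fam B) {v | v ≠ 0} := by
  rw [contDiffOn_euclidean]
  intro k
  show ContDiffOn ℝ ∞ (fun v : E4 => ⟪B k v, v⟫ / ‖v‖ ^ 2) {v | v ≠ 0}
  have h1 : ContDiff ℝ ∞ (fun v : E4 => ⟪B k v, v⟫) :=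
    ((LinearMap.toContinuousLinearMap (B k)).contDiff).inner ℝ contDiff_id
  have h2 : ContDiff ℝ ∞ (fun v : E4 => ‖v‖ ^ 2) := contDiff_norm_sq ℝ
  apply h1.contDiffOn.div h2.contDiffOn
  intro v hv
  have : ‖v‖ ≠ 0 := norm_ne_zero_iff.mpr hv
  positivity

theorem fam_homog {N : ℕ} (B : Fin N → (E4 →ₗ[ℝ] E4)) (a : ℝ) (v : E4) (ha : a ≠ 0) :
    fam B (a • v) = fam B v := by
  unfold fam
  congr 1
  funext k
  rw [map_smul, inner_smul_left, inner_smul_right, norm_smul, mul_pow, Real.norm_eq_abs, sq_abs]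
  simp only [conj_trivial]
  rw [show a * (a * ⟪B k v, v⟫) = a ^ 2 * ⟪B k v, v⟫ by ring]
  exact mul_div_mul_left _ _ (pow_ne_zero 2 ha)

theorem fam_norm {N : ℕ} (B : Fin N → (E4 →ₗ[ℝ] E4))
    (hsph : ∀ v : E4, ∑ k, ⟪B k v, v⟫ ^ 2 = (‖v‖ ^ 2) ^ 2) (v : E4) (hv : v ≠ 0) :
    ‖fam B v‖ = 1 := by
  have hn : ‖v‖ ≠ 0 := norm_ne_zero_iff.mpr hv
  have h1 : ‖fam B v‖ ^ 2 = 1 := by
    rw [EuclideanSpace.norm_sq_eq]
    have : ∀ k : Fin N, ‖(fam B v) k‖ ^ 2 = ⟪B k v, v⟫ ^ 2 / (‖v‖ ^ 2) ^ 2 := by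
      intro k
      show ‖⟪B k v, v⟫ / ‖v‖ ^ 2‖ ^ 2 = _
      rw [Real.norm_eq_abs, sq_abs, div_pow]
    rw [Finset.sum_congr rfl (fun k _ => this k), ← Finset.sum_div, hsph v]
    apply div_self
    positivity
  have h2 : 0 ≤ ‖fam B v‖ := norm_nonneg _
  nlinarith

end Pool.Agent.Helper156.RP.J30418
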