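import Pool.Agent.Helper156.RP.Base

open scoped Manifold ContDiff Topology RealInnerProductSpace
open Set Topology

noncomputable section

namespace Pool.Agent.Helper156.RP.J30427

open Pool.Agent.Helper156.RP


theorem fam_inj {N : ℕ} (B : Fin N → (E4 →ₗ[ℝ] E4)) (hB : ∀ k, (B k).IsSymmetric)
    (hns : ∀ v u : E4, (∀ k, ⟪B k v, u⟫ = 0) → v = 0 ∨ u = 0) (p q : RP3)
    (h : fam B p.rep = fam B q.rep) : p = q := by
  have hx := rep_ne p
  have hy := rep_ne q
  set x : E4 := p.rep with hxd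
  set y : E4 := q.rep with hyd
  have hnx : 0 < ‖x‖ := norm_pos_iff.mpr hx
  have hny : 0 < ‖y‖ := norm_pos_iff.mpr hy
  let t : ℝ := ‖x‖ / ‖y‖
  have hk : ∀ k, ⟪B k x, x⟫ / ‖x‖ ^ 2 = ⟪B k y, y⟫ / ‖y‖ ^ 2 := by
    intro k
    have := congrArg (fun f : EuclideanSpace ℝ (Fin N) => f k) h
    simpa [fam] using this
  have hk2 : ∀ k, ⟪B k (t • y), t • y⟫ = ⟪B k x, x⟫ := by
    intro k
    rw [map_smul, real_inner_smul_left, real_inner_smul_right]
    have h1 := hk k
    rw [div_eq_div_iff (by positivity) (by positivity)] at h1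
    simp only [t]
    field_simp
    linarith
  have hmain : ∀ k, ⟪B k (x - t • y), x + t • y⟫ = 0 := by
    intro k
    rw [map_sub, inner_sub_left, inner_add_right, inner_add_right, hk2 k]
    have h2 : ⟪B k (t • y), x⟫ = ⟪B k x, t • y⟫ := by
      rw [hB k (t • y) x, real_inner_comm]
    rw [h2]
    ring
  have hcon : ∃ a : ℝ, a • y = x := by
    rcases hns _ _ hmain with h3 | h3
    · exact ⟨t, (sub_eq_zero.mp h3).symm⟩
    · refine ⟨-t, ?_⟩
      rw [neg_smul]
      exact (eq_neg_of_add_eq_zero_left h3).symm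
  rw [← mk_rep p, ← mk_rep q, mk_eq_mk_iff]
  exact hcon

end Pool.Agent.Helper156.RP.J30427
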