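import Pool.Agent.Helper156.RP.Base

open scoped Manifold ContDiff Topology RealInnerProductSpace
open Set Topology

noncomputable section

namespace Pool.Agent.Helper156.RP.J30429

open Pool.Agent.Helper156.RP


private def j30429_L (i : Fin 4) (u : E3) : E4 :=
  WithLp.toLp 2 (i.insertNth (0 : ℝ) (WithLp.ofLp u) : Fin 4 → ℝ)

private theorem j30429_L_same (i : Fin 4) (u : E3) : j30429_L i u i = 0 := by
  simp [j30429_L]

private theorem j30429_L_succ (i : Fin 4) (u : E3) (k : Fin 3) :
    j30429_L i u (i.succAbove k) = u k := by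
  simp [j30429_L]

private theorem j30429_ins (i : Fin 4) (w u : E3) (t : ℝ) :
    ins i (w + t • u) = ins i w + t • j30429_L i u := by
  ext j
  rcases Fin.eq_self_or_eq_succAbove i j with h | ⟨k, h⟩
  · subst h
    rw [ins_same, PiLp.add_apply, PiLp.smul_apply, ins_same, j30429_L_same]
    simp
  · subst h
    simp only [PiLp.add_apply, PiLp.smul_apply, ins_succAbove, j30429_L_succ]

private theorem j30429_diff (i : Fin 4) (w : E3) : DifferentiableAt ℝ (ins i) w := by
  rw [differentiableAt_euclidean]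
  intro j
  rcases Fin.eq_self_or_eq_succAbove i j with h | ⟨k, h⟩
  · subst h
    simp only [ins_same]
    exact differentiableAt_const _
  · subst h
    simp only [ins_succAbove]
    exact (EuclideanSpace.proj (𝕜 := ℝ) k : E3 →L[ℝ] ℝ).differentiableAt

theorem fam_imm {N : ℕ} (B : Fin N → (E4 →ₗ[ℝ] E4)) (hB : ∀ k, (B k).IsSymmetric)
    (hns : ∀ v u : E4, (∀ k, ⟪B k v, u⟫ = 0) → v = 0 ∨ u = 0) (i : Fin 4) (w u : E3)
    (h : fderiv ℝ (fun w : E3 => fam B (ins i w)) w u = 0) : u = 0 := by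
  have hv0 : ins i w ≠ 0 := ins_ne i w
  have hn0 : ‖ins i w‖ ^ 2 ≠ 0 := pow_ne_zero _ (norm_ne_zero_iff.2 hv0)
  have hF : DifferentiableAt ℝ (fun w : E3 => fam B (ins i w)) w := by
    rw [differentiableAt_euclidean]
    intro k
    show DifferentiableAt ℝ (fun w : E3 => ⟪B k (ins i w), ins i w⟫ / ‖ins i w‖ ^ 2) w
    have h1 : DifferentiableAt ℝ (fun w : E3 => B k (ins i w)) w :=
      (LinearMap.toContinuousLinearMap (B k)).differentiableAt.comp w (j30429_diff i w)
    have h2 : DifferentiableAt ℝ (fun w : E3 => ⟪B k (ins i w), ins i w⟫) w :=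
      h1.inner ℝ (j30429_diff i w)
    have h3 : DifferentiableAt ℝ (fun w : E3 => ‖ins i w‖ ^ 2) w := (j30429_diff i w).norm_sq ℝ
    simp only [div_eq_mul_inv]
    exact h2.mul (h3.inv hn0)
  have hline : HasDerivAt (fun t : ℝ => w + t • u) u 0 := by
    have := ((hasDerivAt_id (0 : ℝ)).smul_const u).const_add w
    simpa using this
  have hw : w + (0 : ℝ) • u = w := by simp
  have hcomp : HasDerivAt (fun t : ℝ => fam B (ins i (w + t • u))) 0 0 := by
    have h1 : HasFDerivAt (fun w : E3 => fam B (ins i w))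
        (fderiv ℝ (fun w : E3 => fam B (ins i w)) w) (w + (0 : ℝ) • u) := by
      rw [hw]; exact hF.hasFDerivAt
    have h2 := h1.comp_hasDerivAt (0 : ℝ) hline
    rw [h] at h2
    exact h2
  have hc : HasDerivAt (fun t : ℝ => ins i (w + t • u)) (j30429_L i u) 0 := by
    have h1 := ((hasDerivAt_id (0 : ℝ)).smul_const (j30429_L i u)).const_add (ins i w)
    have h2 : (fun t : ℝ => ins i (w + t • u)) = fun t => ins i w + t • j30429_L i u := by
      funext t; exact j30429_ins i w u t
    rw [h2]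
    simpa using h1
  have key : ∀ k, ⟪B k (ins i w), ‖ins i w‖ ^ 2 • j30429_L i u -
      ⟪ins i w, j30429_L i u⟫ • ins i w⟫ = 0 := by
    intro k
    have h1 : HasDerivAt (fun t : ℝ => B k (ins i (w + t • u))) (B k (j30429_L i u)) 0 :=
      (LinearMap.toContinuousLinearMap (B k)).hasFDerivAt.comp_hasDerivAt (0 : ℝ) hc
    have h2 := h1.inner ℝ hc
    have h3 := hc.norm_sq
    have h4 : ‖ins i (w + (0 : ℝ) • u)‖ ^ 2 ≠ 0 := by rw [hw]; exact hn0
    have h5 := h2.div h3 h4
    have h6 : HasDerivAt (fun t : ℝ => fam B (ins i (w + t • u)) k) 0 0 := by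
      have := (EuclideanSpace.proj (𝕜 := ℝ) k :
        EuclideanSpace ℝ (Fin N) →L[ℝ] ℝ).hasFDerivAt.comp_hasDerivAt (0 : ℝ) hcomp
      have e : (EuclideanSpace.proj (𝕜 := ℝ) k : EuclideanSpace ℝ (Fin N) →L[ℝ] ℝ) 0 = 0 :=
        map_zero _
      rw [e] at this
      exact this
    have h7 := h5.unique h6
    rw [hw] at h7
    rw [div_eq_zero_iff] at h7
    rcases h7 with h7 | h7
    · have hs : ⟪B k (j30429_L i u), ins i w⟫ = ⟪B k (ins i w), j30429_L i u⟫ := by
        rw [hB k, real_inner_comm]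
      rw [hs] at h7
      rw [inner_sub_right, inner_smul_right, inner_smul_right]
      linarith
    · exact absurd h7 (pow_ne_zero _ hn0)
  have hz : ‖ins i w‖ ^ 2 • j30429_L i u - ⟪ins i w, j30429_L i u⟫ • ins i w = 0 :=
    (hns _ _ key).resolve_left hv0
  have hμ : ⟪ins i w, j30429_L i u⟫ = 0 := by
    have h1 := congrArg (fun z : E4 => z i) hz
    simp only [PiLp.sub_apply, PiLp.smul_apply, PiLp.zero_apply, j30429_L_same, ins_same,
      smul_eq_mul, mul_zero, mul_one, zero_sub, neg_eq_zero] at h1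
    exact h1
  rw [hμ, zero_smul, sub_zero, smul_eq_zero] at hz
  have hL := hz.resolve_left hn0
  ext k
  rw [← j30429_L_succ i u k, hL]
  rfl

end Pool.Agent.Helper156.RP.J30429
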