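import Pool.Agent.Helper156.RP.Base

open scoped Manifold ContDiff Topology RealInnerProductSpace
open Set Topology

noncomputable section

namespace Pool.Agent.Helper156.RP.J30437

open Pool.Agent.Helper156.RP


def family8_M : Fin 8 → Matrix (Fin 4) (Fin 4) ℝ := ![
  !![1, 0, 0, 0; 0, -1, 0, 0; 0, 0, 0, 0; 0, 0, 0, 0],
  !![0, 1, 0, 0; 1, 0, 0, 0; 0, 0, 0, 0; 0, 0, 0, 0],
  !![0, 0, 0, 0; 0, 0, 0, 0; 0, 0, 1, 0; 0, 0, 0, -1],
  !![0, 0, 0, 0; 0, 0, 0, 0; 0, 0, 0, 1; 0, 0, 1, 0],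
  !![0, 0, 1/2, 0; 0, 0, 0, -(1/2); 1/2, 0, 0, 0; 0, -(1/2), 0, 0],
  !![0, 0, 0, 1/2; 0, 0, 1/2, 0; 0, 1/2, 0, 0; 1/2, 0, 0, 0],
  !![0, 0, 1/2, 0; 0, 0, 0, 1/2; 1/2, 0, 0, 0; 0, 1/2, 0, 0],
  !![0, 0, 0, -(1/2); 0, 0, 1/2, 0; 0, 1/2, 0, 0; -(1/2), 0, 0, 0]]

def family8_b (v u : E4) : Fin 8 → ℝ := ![
  v 0 * u 0 - v 1 * u 1, v 0 * u 1 + v 1 * u 0, v 2 * u 2 - v 3 * u 3, v 2 * u 3 + v 3 * u 2,
  (v 0 * u 2 + v 2 * u 0 - v 1 * u 3 - v 3 * u 1) / 2,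
  (v 0 * u 3 + v 3 * u 0 + v 1 * u 2 + v 2 * u 1) / 2,
  (v 0 * u 2 + v 2 * u 0 + v 1 * u 3 + v 3 * u 1) / 2,
  (v 1 * u 2 + v 2 * u 1 - v 0 * u 3 - v 3 * u 0) / 2]

theorem family8_inner (k : Fin 8) (v u : E4) :
    ⟪Matrix.toEuclideanLin (family8_M k) v, u⟫ = family8_b v u k := by
  fin_cases k <;>
    simp [PiLp.inner_apply, Fin.sum_univ_four, family8_M, family8_b, Matrix.toLpLin_apply,
      Matrix.mulVec, dotProduct] <;> ring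

theorem family8_norm (v : E4) : ‖v‖ ^ 2 = v 0 ^ 2 + v 1 ^ 2 + v 2 ^ 2 + v 3 ^ 2 := by
  rw [EuclideanSpace.real_norm_sq_eq, Fin.sum_univ_four]

theorem family8 : ∃ B : Fin 8 → (E4 →ₗ[ℝ] E4), (∀ k, (B k).IsSymmetric) ∧
    (∀ v u : E4, (∀ k, ⟪B k v, u⟫ = 0) → v = 0 ∨ u = 0) ∧
    (∀ v : E4, ∑ k, ⟪B k v, v⟫ ^ 2 = (‖v‖ ^ 2) ^ 2) ∧
    (∀ (a : EuclideanSpace ℝ (Fin 8)) (c : ℝ),
      (∀ v : E4, ∑ k, a k * ⟪B k v, v⟫ = c * ‖v‖ ^ 2) → a = 0) := by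
  refine ⟨fun k => Matrix.toEuclideanLin (family8_M k), ?_, ?_, ?_, ?_⟩
  · intro k x y
    rw [family8_inner, real_inner_comm, family8_inner]
    fin_cases k <;> simp [family8_b] <;> ring
  · intro v u h
    simp only [family8_inner] at h
    have h0 : v 0 * u 0 - v 1 * u 1 = 0 := h 0
    have h1 : v 0 * u 1 + v 1 * u 0 = 0 := h 1
    have h2 : v 2 * u 2 - v 3 * u 3 = 0 := h 2
    have h3 : v 2 * u 3 + v 3 * u 2 = 0 := h 3
    have h4 : (v 0 * u 2 + v 2 * u 0 - v 1 * u 3 - v 3 * u 1) / 2 = 0 := h 4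
    have h5 : (v 0 * u 3 + v 3 * u 0 + v 1 * u 2 + v 2 * u 1) / 2 = 0 := h 5
    have h6 : (v 0 * u 2 + v 2 * u 0 + v 1 * u 3 + v 3 * u 1) / 2 = 0 := h 6
    have h7 : (v 1 * u 2 + v 2 * u 1 - v 0 * u 3 - v 3 * u 0) / 2 = 0 := h 7
    have hA : (v 0 ^ 2 + v 1 ^ 2) * (u 0 ^ 2 + u 1 ^ 2) = 0 := by
      linear_combination (v 0 * u 0 - v 1 * u 1) * h0 + (v 0 * u 1 + v 1 * u 0) * h1
    have hR : v 0 * u 0 + v 1 * u 1 = 0 := by
      have : (v 0 * u 0 + v 1 * u 1) ^ 2 ≤ 0 := by nlinarith [sq_nonneg (v 0 * u 1 - v 1 * u 0)]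
      nlinarith [sq_nonneg (v 0 * u 0 + v 1 * u 1)]
    have hall : ‖v‖ ^ 2 * ‖u‖ ^ 2 = 0 := by
      rw [family8_norm, family8_norm]
      linear_combination (v 0 * u 0 - v 1 * u 1) * h0 + (v 0 * u 1 + v 1 * u 0) * h1
        + (v 2 * u 2 - v 3 * u 3) * h2 + (v 2 * u 3 + v 3 * u 2) * h3
        + (v 0 * u 2 + v 2 * u 0 - v 1 * u 3 - v 3 * u 1) * h4
        + (v 0 * u 3 + v 3 * u 0 + v 1 * u 2 + v 2 * u 1) * h5
        + (v 0 * u 2 + v 2 * u 0 + v 1 * u 3 + v 3 * u 1) * h6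
        + (v 1 * u 2 + v 2 * u 1 - v 0 * u 3 - v 3 * u 0) * h7
        - 2 * (v 2 * u 2 + v 3 * u 3) * hR
    rcases mul_eq_zero.1 hall with h | h
    · left; exact norm_eq_zero.1 (pow_eq_zero_iff two_ne_zero |>.1 h)
    · right; exact norm_eq_zero.1 (pow_eq_zero_iff two_ne_zero |>.1 h)
  · intro v
    simp only [family8_inner]
    rw [family8_norm]
    simp only [Fin.sum_univ_eight]
    show (v 0 * v 0 - v 1 * v 1) ^ 2 + (v 0 * v 1 + v 1 * v 0) ^ 2 + (v 2 * v 2 - v 3 * v 3) ^ 2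
      + (v 2 * v 3 + v 3 * v 2) ^ 2 + ((v 0 * v 2 + v 2 * v 0 - v 1 * v 3 - v 3 * v 1) / 2) ^ 2
      + ((v 0 * v 3 + v 3 * v 0 + v 1 * v 2 + v 2 * v 1) / 2) ^ 2
      + ((v 0 * v 2 + v 2 * v 0 + v 1 * v 3 + v 3 * v 1) / 2) ^ 2
      + ((v 1 * v 2 + v 2 * v 1 - v 0 * v 3 - v 3 * v 0) / 2) ^ 2 = _
    ring
  · intro a c h
    have key : ∀ x y z w : ℝ, a 0 * (x * x - y * y) + a 1 * (x * y + y * x) + a 2 * (z * z - w * w)
        + a 3 * (z * w + w * z) + a 4 * ((x * z + z * x - y * w - w * y) / 2)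
        + a 5 * ((x * w + w * x + y * z + z * y) / 2)
        + a 6 * ((x * z + z * x + y * w + w * y) / 2)
        + a 7 * ((y * z + z * y - x * w - w * x) / 2) = c * (x ^ 2 + y ^ 2 + z ^ 2 + w ^ 2) := by
      intro x y z w
      have h1 := h (WithLp.toLp 2 ![x, y, z, w])
      simp only [family8_inner] at h1
      rw [family8_norm] at h1
      simp only [Fin.sum_univ_eight] at h1
      exact h1
    have k0 := key 1 0 0 0
    have k1 := key 0 1 0 0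
    have k2 := key 0 0 1 0
    have k3 := key 0 0 0 1
    have k01 := key 1 1 0 0
    have k23 := key 0 0 1 1
    have k02 := key 1 0 1 0
    have k13 := key 0 1 0 1
    have k03 := key 1 0 0 1
    have k12 := key 0 1 1 0
    norm_num at k0 k1 k2 k3 k01 k23 k02 k13 k03 k12
    ext k
    fin_cases k
    · show a 0 = 0; linarith
    · show a 1 = 0; linarith
    · show a 2 = 0; linarith
    · show a 3 = 0; linarith
    · show a 4 = 0; linarith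
    · show a 5 = 0; linarith
    · show a 6 = 0; linarith
    · show a 7 = 0; linarith

end Pool.Agent.Helper156.RP.J30437
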