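import Pool.Agent.Helper156.RP.Base

open scoped Manifold ContDiff Topology RealInnerProductSpace
open Set Topology

noncomputable section

namespace Pool.Agent.Helper156.RP.J30438

open Pool.Agent.Helper156.RP


/-- the matrices of the seven quadratic forms -/
def fam7M (α β γ : ℝ) : Fin 7 → Matrix (Fin 4) (Fin 4) ℝ :=
  ![!![α, 0, 0, 0; 0, α, 0, 0; 0, 0, -α, 0; 0, 0, 0, -α],
    !![β, 0, 0, 0; 0, -β, 0, 0; 0, 0, 0, 0; 0, 0, 0, 0],
    !![0, β, 0, 0; β, 0, 0, 0; 0, 0, 0, 0; 0, 0, 0, 0],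
    !![0, 0, 0, 0; 0, 0, 0, 0; 0, 0, β, 0; 0, 0, 0, -β],
    !![0, 0, 0, 0; 0, 0, 0, 0; 0, 0, 0, β; 0, 0, β, 0],
    !![0, 0, γ / 2, 0; 0, 0, 0, -(γ / 2); γ / 2, 0, 0, 0; 0, -(γ / 2), 0, 0],
    !![0, 0, 0, γ / 2; 0, 0, γ / 2, 0; 0, γ / 2, 0, 0; γ / 2, 0, 0, 0]]

/-- the bilinear forms -/
def fam7b (α β γ : ℝ) (v u : Fin 4 → ℝ) : Fin 7 → ℝ :=
  ![α * (v 0 * u 0 + v 1 * u 1 - v 2 * u 2 - v 3 * u 3), β * (v 0 * u 0 - v 1 * u 1),
    β * (v 0 * u 1 + v 1 * u 0), β * (v 2 * u 2 - v 3 * u 3), β * (v 2 * u 3 + v 3 * u 2),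
    γ / 2 * (v 0 * u 2 + v 2 * u 0 - v 1 * u 3 - v 3 * u 1),
    γ / 2 * (v 0 * u 3 + v 3 * u 0 + v 1 * u 2 + v 2 * u 1)]

theorem fam7_inner (A : Matrix (Fin 4) (Fin 4) ℝ) (v u : E4) :
    ⟪Matrix.toEuclideanLin A v, u⟫ = ∑ i, ∑ j, A i j * v j * u i := by
  rw [PiLp.inner_apply]
  refine Finset.sum_congr rfl fun i _ => ?_
  have h1 : (Matrix.toEuclideanLin A v) i = ∑ j, A i j * v j := by
    rw [Matrix.toEuclideanLin_apply]
    rfl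
  rw [h1]
  simp only [RCLike.inner_apply, conj_trivial]
  rw [Finset.mul_sum]
  exact Finset.sum_congr rfl fun j _ => by ring

theorem fam7_form (α β γ : ℝ) (k : Fin 7) (v u : E4) :
    ⟪Matrix.toEuclideanLin (fam7M α β γ k) v, u⟫ = fam7b α β γ v.ofLp u.ofLp k := by
  rw [fam7_inner]
  fin_cases k <;> simp [fam7M, fam7b, Fin.sum_univ_four] <;> ring

theorem fam7_norm (v : E4) : ‖v‖ ^ 2 = v 0 ^ 2 + v 1 ^ 2 + v 2 ^ 2 + v 3 ^ 2 := by
  rw [EuclideanSpace.real_norm_sq_eq, Fin.sum_univ_four]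

theorem fam7_two {a b c d : ℝ} (h1 : a * c - b * d = 0) (h2 : a * d + b * c = 0) :
    (a = 0 ∧ b = 0) ∨ (c = 0 ∧ d = 0) := by
  have h3 : (a ^ 2 + b ^ 2) * (c ^ 2 + d ^ 2) = 0 := by
    have : (a ^ 2 + b ^ 2) * (c ^ 2 + d ^ 2) = (a * c - b * d) ^ 2 + (a * d + b * c) ^ 2 := by ring
    rw [this, h1, h2]; ring
  rcases mul_eq_zero.1 h3 with h | h
  · left
    constructor <;> nlinarith [sq_nonneg a, sq_nonneg b]
  · right
    constructor <;> nlinarith [sq_nonneg c, sq_nonneg d]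

theorem fam7_zero (v : E4) (h0 : v 0 = 0) (h1 : v 1 = 0) (h2 : v 2 = 0) (h3 : v 3 = 0) : v = 0 := by
  ext i
  fin_cases i
  · exact h0
  · exact h1
  · exact h2
  · exact h3

theorem family7 : ∃ B : Fin 7 → (E4 →ₗ[ℝ] E4), (∀ k, (B k).IsSymmetric) ∧
    (∀ v u : E4, (∀ k, ⟪B k v, u⟫ = 0) → v = 0 ∨ u = 0) ∧
    (∀ v : E4, ∑ k, ⟪B k v, v⟫ ^ 2 = (‖v‖ ^ 2) ^ 2) ∧
    (∀ (a : EuclideanSpace ℝ (Fin 7)) (c : ℝ),
      (∀ v : E4, ∑ k, a k * ⟪B k v, v⟫ = c * ‖v‖ ^ 2) → a = 0) := by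
  obtain ⟨α, hα, hα0⟩ : ∃ α : ℝ, α ^ 2 = 1 / 3 ∧ α ≠ 0 :=
    ⟨√(1 / 3), Real.sq_sqrt (by norm_num), (Real.sqrt_pos.2 (by norm_num)).ne'⟩
  obtain ⟨β, hβ, hβ0⟩ : ∃ β : ℝ, β ^ 2 = 2 / 3 ∧ β ≠ 0 :=
    ⟨√(2 / 3), Real.sq_sqrt (by norm_num), (Real.sqrt_pos.2 (by norm_num)).ne'⟩
  obtain ⟨γ, hγ, hγ0⟩ : ∃ γ : ℝ, γ ^ 2 = 8 / 3 ∧ γ ≠ 0 :=
    ⟨√(8 / 3), Real.sq_sqrt (by norm_num), (Real.sqrt_pos.2 (by norm_num)).ne'⟩
  refine ⟨fun k => Matrix.toEuclideanLin (fam7M α β γ k), ?_, ?_, ?_, ?_⟩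
  · intro k v u
    rw [fam7_form, real_inner_comm, fam7_form]
    fin_cases k <;> simp [fam7b] <;> ring_nf <;> simp
  · intro v u h
    have h' : ∀ k, fam7b α β γ v.ofLp u.ofLp k = 0 := fun k => by rw [← fam7_form]; exact h k
    have h1 : v 0 * u 0 - v 1 * u 1 = 0 := by
      have := h' 1; simp only [fam7b] at this; exact (mul_eq_zero.1 this).resolve_left hβ0
    have h2 : v 0 * u 1 + v 1 * u 0 = 0 := by
      have := h' 2; simp only [fam7b] at this; exact (mul_eq_zero.1 this).resolve_left hβ0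
    have h3 : v 2 * u 2 - v 3 * u 3 = 0 := by
      have := h' 3; simp only [fam7b] at this; exact (mul_eq_zero.1 this).resolve_left hβ0
    have h4 : v 2 * u 3 + v 3 * u 2 = 0 := by
      have := h' 4; simp only [fam7b] at this; exact (mul_eq_zero.1 this).resolve_left hβ0
    have hγ2 : γ / 2 ≠ 0 := div_ne_zero hγ0 two_ne_zero
    have h5 : v 0 * u 2 + v 2 * u 0 - v 1 * u 3 - v 3 * u 1 = 0 := by
      have := h' 5; simp only [fam7b] at this; exact (mul_eq_zero.1 this).resolve_left hγ2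
    have h6 : v 0 * u 3 + v 3 * u 0 + v 1 * u 2 + v 2 * u 1 = 0 := by
      have := h' 6; simp only [fam7b] at this; exact (mul_eq_zero.1 this).resolve_left hγ2
    rcases fam7_two h1 h2 with ⟨a0, a1⟩ | ⟨a0, a1⟩
    · rcases fam7_two h3 h4 with ⟨a2, a3⟩ | ⟨a2, a3⟩
      · exact Or.inl (fam7_zero v a0 a1 a2 a3)
      · rw [a0, a1, a2, a3] at h5 h6
        have g1 : v 2 * u 0 - v 3 * u 1 = 0 := by linarith
        have g2 : v 2 * u 1 + v 3 * u 0 = 0 := by linarith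
        rcases fam7_two g1 g2 with ⟨b0, b1⟩ | ⟨b0, b1⟩
        · exact Or.inl (fam7_zero v a0 a1 b0 b1)
        · exact Or.inr (fam7_zero u b0 b1 a2 a3)
    · rcases fam7_two h3 h4 with ⟨a2, a3⟩ | ⟨a2, a3⟩
      · rw [a0, a1, a2, a3] at h5 h6
        have g1 : v 0 * u 2 - v 1 * u 3 = 0 := by linarith
        have g2 : v 0 * u 3 + v 1 * u 2 = 0 := by linarith
        rcases fam7_two g1 g2 with ⟨b0, b1⟩ | ⟨b0, b1⟩
        · exact Or.inl (fam7_zero v b0 b1 a2 a3)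
        · exact Or.inr (fam7_zero u a0 a1 b0 b1)
      · exact Or.inr (fam7_zero u a0 a1 a2 a3)
  · intro v
    simp only [fam7_form]
    rw [fam7_norm]
    rw [Fin.sum_univ_seven]
    simp only [fam7b, Matrix.cons_val]
    linear_combination ((v 0 ^ 2 + v 1 ^ 2 - v 2 ^ 2 - v 3 ^ 2) ^ 2) * hα +
      ((v 0 ^ 2 - v 1 ^ 2) ^ 2 + (2 * v 0 * v 1) ^ 2 + (v 2 ^ 2 - v 3 ^ 2) ^ 2 +
        (2 * v 2 * v 3) ^ 2) * hβ +
      ((v 0 * v 2 - v 1 * v 3) ^ 2 + (v 0 * v 3 + v 1 * v 2) ^ 2) * hγ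
  · intro a c h
    have H : ∀ x0 x1 x2 x3 : ℝ, a 0 * (α * (x0 * x0 + x1 * x1 - x2 * x2 - x3 * x3)) +
        a 1 * (β * (x0 * x0 - x1 * x1)) + a 2 * (β * (x0 * x1 + x1 * x0)) +
        a 3 * (β * (x2 * x2 - x3 * x3)) + a 4 * (β * (x2 * x3 + x3 * x2)) +
        a 5 * (γ / 2 * (x0 * x2 + x2 * x0 - x1 * x3 - x3 * x1)) +
        a 6 * (γ / 2 * (x0 * x3 + x3 * x0 + x1 * x2 + x2 * x1)) =
        c * (x0 ^ 2 + x1 ^ 2 + x2 ^ 2 + x3 ^ 2) := by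
      intro x0 x1 x2 x3
      have h1 := h (WithLp.toLp 2 ![x0, x1, x2, x3])
      simp only [fam7_form] at h1
      rw [fam7_norm, Fin.sum_univ_seven] at h1
      simpa [fam7b] using h1
    have e0 := H 1 0 0 0
    have e1 := H 0 1 0 0
    have e2 := H 0 0 1 0
    have e3 := H 0 0 0 1
    have e4 := H 1 1 0 0
    have e5 := H 0 0 1 1
    have e6 := H 1 0 1 0
    have e7 := H 1 0 0 1
    have k1 : a 1 * β = 0 := by linarith
    have k3 : a 3 * β = 0 := by linarith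
    have k0 : a 0 * α = 0 := by linarith
    have k2 : a 2 * β = 0 := by linarith
    have k4 : a 4 * β = 0 := by linarith
    have k5 : a 5 * γ = 0 := by linarith
    have k6 : a 6 * γ = 0 := by linarith
    ext i
    fin_cases i
    · exact (mul_eq_zero.1 k0).resolve_right hα0
    · exact (mul_eq_zero.1 k1).resolve_right hβ0
    · exact (mul_eq_zero.1 k2).resolve_right hβ0
    · exact (mul_eq_zero.1 k3).resolve_right hβ0
    · exact (mul_eq_zero.1 k4).resolve_right hβ0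
    · exact (mul_eq_zero.1 k5).resolve_right hγ0
    · exact (mul_eq_zero.1 k6).resolve_right hγ0

end Pool.Agent.Helper156.RP.J30438
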