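import Pool.Agent.Helper156.RP.J30370
import Pool.Agent.Helper156.RP.J30371
import Pool.Agent.Helper156.RP.J30373
import Pool.Agent.Helper156.RP.J30374
import Pool.Agent.Helper156.RP.J30377
import Pool.Agent.Helper156.RP.J30384
import Pool.Agent.Helper156.RP.J30386
import Pool.Agent.Helper156.RP.J30388
import Pool.Agent.Helper156.RP.J30410
import Pool.Agent.Helper156.RP.J30418
import Pool.Agent.Helper156.RP.J30427
import Pool.Agent.Helper156.RP.J30429
import Pool.Agent.Helper156.RP.J30435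
import Pool.Agent.Helper156.RP.J30437
import Pool.Agent.Helper156.RP.J30438

open scoped Manifold ContDiff Topology RealInnerProductSpace
open Set Topology

noncomputable section

namespace Pool.Agent.Helper156.RP

open J30370 J30371 J30373 J30374 J30377 J30384 J30386 J30388 J30410 J30418 J30427 J30429 J30435 J30437 J30438

theorem morse_count (B : E4 →ₗ[ℝ] E4) (hB : B.IsSymmetric) (c : ℝ)
    (hm : IsMorse 3 (fun p : RP3 => ray B c p.rep)) :
    {p | IsCritical 3 (fun p : RP3 => ray B c p.rep) p}.encard = 4 := by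
  have h1 : ∀ p : RP3, IsCritical 3 (fun p : RP3 => ray B c p.rep) p ↔
      ∃ l : ℝ, B p.rep = l • p.rep := by
    intro p
    obtain ⟨i, w, hp, hc, -⟩ := homog_hess (ray B c) (ray_contDiffOn B c)
      (fun a v ha _ => ray_homog B c a v ha) p
    rw [isCritical_iff0, hc, fderiv_ray_ins B hB c i w]
    obtain ⟨a, ha, hr⟩ := rep_mk (ins_ne i w)
    rw [hp] at hr
    constructor
    · rintro ⟨l, hl⟩
      refine ⟨l, ?_⟩
      rw [hr, map_smul, hl, smul_comm]
    · rintro ⟨l, hl⟩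
      refine ⟨l, ?_⟩
      rw [hr, map_smul, smul_comm] at hl
      exact smul_right_injective _ ha hl
  have h2 : {p | IsCritical 3 (fun p : RP3 => ray B c p.rep) p} =
      {p : RP3 | ∃ l : ℝ, B p.rep = l • p.rep} := by
    ext p
    exact h1 p
  rw [h2]
  apply eig_count B hB
  intro l v u hv hBv hBu
  by_contra hcon
  push Not at hcon
  obtain ⟨i, w, hp, hc, hh⟩ := homog_hess (ray B c) (ray_contDiffOn B c)
      (fun a v ha _ => ray_homog B c a v ha) (RP3.mk v hv)
  obtain ⟨b, hb⟩ := (mk_eq_mk_iff (ins_ne i w) hv).1 hp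
  have hw : B (ins i w) = l • ins i w := by rw [← hb, map_smul, hBv, smul_comm]
  have hne : ∀ a : ℝ, u ≠ a • ins i w := by
    intro a
    rw [← hb, smul_smul]
    exact hcon _
  obtain ⟨x, hx, hx0⟩ := hess_ray_ins B hB c i w l u hw hBu hne
  have hcrit : IsCritical 3 (fun p : RP3 => ray B c p.rep) (RP3.mk v hv) :=
    hc.2 ((fderiv_ray_ins B hB c i w).2 ⟨l, hw⟩)
  exact hx (hm.2 _ hcrit x (fun y => by rw [hess_eq0, hh, hx0]; rfl))

theorem exists_taut {N : ℕ} (hbetti : bettiSum (ZMod 2) RP3 = 4)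
    (h : ∃ B : Fin N → (E4 →ₗ[ℝ] E4), (∀ k, (B k).IsSymmetric) ∧
      (∀ v u : E4, (∀ k, ⟪B k v, u⟫ = 0) → v = 0 ∨ u = 0) ∧
      (∀ v : E4, ∑ k, ⟪B k v, v⟫ ^ 2 = (‖v‖ ^ 2) ^ 2) ∧
      (∀ (a : EuclideanSpace ℝ (Fin N)) (c : ℝ),
        (∀ v : E4, ∑ k, a k * ⟪B k v, v⟫ = c * ‖v‖ ^ 2) → a = 0)) :
    HasTautEmbInSphere 3 RP3 N := by
  obtain ⟨B, hB, hns, hsph, hsub⟩ := h
  have hsm := homog_contMDiff (fam B) (fam_contDiffOn B) (fun a v ha _ => fam_homog B a v ha)
  refine ⟨fun p => ⟨fam B p.rep, by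
    rw [mem_sphere_zero_iff_norm]; exact fam_norm B hsph _ (rep_ne p)⟩, ⟨⟨hsm, ?_, ?_⟩, ?_⟩, ?_⟩
  · have := compactSpace_RP3
    exact (hsm.continuous.isClosedEmbedding fun p q h => fam_inj B hB hns p q h).isEmbedding
  · intro p
    obtain ⟨i, w, -, hd⟩ := homog_mfderiv (fam B) (fam_contDiffOn B)
      (fun a v ha _ => fam_homog B a v ha) p
    rw [injective_iff_map_eq_zero]
    intro u hu
    exact fam_imm B hB hns i w u (by rw [← hd u]; exact hu)
  · intro q hm
    obtain ⟨T, c, hT, hd⟩ := fam_dist B hB hsph q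
    have e : (fun x : RP3 => ‖q - fam B x.rep‖ ^ 2) = fun x => ray T c x.rep := by
      funext x
      exact hd _ (rep_ne x)
    change IsMorse 3 (fun x : RP3 => ‖q - fam B x.rep‖ ^ 2) at hm
    change {x | IsCritical 3 (fun x : RP3 => ‖q - fam B x.rep‖ ^ 2) x}.encard = _
    rw [e] at hm ⊢
    rw [hbetti]
    exact morse_count T hT c hm
  · intro v c hv
    by_contra hcon
    push Not at hcon
    apply hv
    apply hsub v c
    intro x
    by_cases hx : x = 0
    · simp [hx]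
    have h1 := hcon (RP3.mk x hx)
    change ⟪v, fam B (RP3.mk x hx).rep⟫ = c at h1
    obtain ⟨a, ha, hr⟩ := rep_mk hx
    rw [hr, fam_homog B a x ha, PiLp.inner_apply] at h1
    have hn : ‖x‖ ^ 2 ≠ 0 := pow_ne_zero 2 (norm_ne_zero_iff.2 hx)
    rw [← h1, Finset.sum_mul]
    refine Finset.sum_congr rfl fun k _ => ?_
    simp only [fam, RCLike.inner_apply, conj_trivial]
    field_simp

end Pool.Agent.Helper156.RP
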