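import Mathlib

/-!
Definitions: real projective 3-space as a smooth manifold, singular homology mod 2, Morse
functions, taut embeddings, spherically substantial maps.
-/

open scoped Manifold ContDiff Topology RealInnerProductSpace
open Set Topology

noncomputable section

namespace Pool.Agent.Helper156.RP

/-! ### Real projective 3-space -/

/-- The real projective space `ℝP³`: the set of lines through the origin of `ℝ⁴`. -/
def RP3 : Type := Projectivization ℝ (EuclideanSpace ℝ (Fin 4))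

/-- The point `[v]` of `ℝP³`, the line spanned by `v ≠ 0`. -/
def RP3.mk (v : EuclideanSpace ℝ (Fin 4)) (hv : v ≠ 0) : RP3 := Projectivization.mk ℝ v hv

/-- A nonzero vector on the line `p`. -/
def RP3.rep (p : RP3) : EuclideanSpace ℝ (Fin 4) :=
  Projectivization.rep (K := ℝ) (V := EuclideanSpace ℝ (Fin 4)) p

/-- `ℝP³` carries the quotient topology of `ℝ⁴ \ {0}`. -/
instance : TopologicalSpace RP3 :=
  (instTopologicalSpaceQuotient :
    TopologicalSpace (Quotient (projectivizationSetoid ℝ (EuclideanSpace ℝ (Fin 4)))))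

/-- The affine embedding `ℝ³ → ℝ⁴` which inserts the coordinate `1` in position `i`. -/
def ins (i : Fin 4) (w : EuclideanSpace ℝ (Fin 3)) : EuclideanSpace ℝ (Fin 4) :=
  WithLp.toLp 2 (i.insertNth (1 : ℝ) (WithLp.ofLp w) : Fin 4 → ℝ)

theorem ins_same (i : Fin 4) (w : EuclideanSpace ℝ (Fin 3)) : ins i w i = 1 := by
  simp [ins]

theorem ins_succAbove (i : Fin 4) (w : EuclideanSpace ℝ (Fin 3)) (k : Fin 3) :
    ins i w (i.succAbove k) = w k := by
  simp [ins]

theorem ins_ne (i : Fin 4) (w : EuclideanSpace ℝ (Fin 3)) : ins i w ≠ 0 := by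
  intro h
  have h1 := ins_same i w
  rw [h] at h1
  simp at h1

theorem rep_ne (p : RP3) : p.rep ≠ 0 :=
  Projectivization.rep_nonzero (K := ℝ) (V := EuclideanSpace ℝ (Fin 4)) p

theorem mk_rep (p : RP3) : RP3.mk p.rep (rep_ne p) = p :=
  Projectivization.mk_rep (K := ℝ) (V := EuclideanSpace ℝ (Fin 4)) p

theorem exists_mk (p : RP3) : ∃ v, ∃ hv : v ≠ 0, RP3.mk v hv = p :=
  ⟨p.rep, rep_ne p, mk_rep p⟩

theorem mk_eq_mk_iff {v w : EuclideanSpace ℝ (Fin 4)} (hv : v ≠ 0) (hw : w ≠ 0) :
    RP3.mk v hv = RP3.mk w hw ↔ ∃ a : ℝ, a • w = v :=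
  Projectivization.mk_eq_mk_iff' ℝ v w hv hw

theorem rep_mk {v : EuclideanSpace ℝ (Fin 4)} (hv : v ≠ 0) :
    ∃ a : ℝ, a ≠ 0 ∧ (RP3.mk v hv).rep = a • v := by
  obtain ⟨a, ha⟩ := Projectivization.exists_smul_eq_mk_rep ℝ v hv
  exact ⟨a, a.ne_zero, ha.symm⟩

theorem isQuotientMap_mk : IsQuotientMap
    (fun v : {v : EuclideanSpace ℝ (Fin 4) // v ≠ 0} => RP3.mk v.1 v.2) := by
  let _ : Setoid {v : EuclideanSpace ℝ (Fin 4) // v ≠ 0} :=
    projectivizationSetoid ℝ (EuclideanSpace ℝ (Fin 4))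
  exact isQuotientMap_quotient_mk'

theorem mk_mem_iff (i : Fin 4) {v : EuclideanSpace ℝ (Fin 4)} (hv : v ≠ 0) :
    (RP3.mk v hv).rep i ≠ 0 ↔ v i ≠ 0 := by
  obtain ⟨a, ha, h⟩ := rep_mk hv
  rw [h, PiLp.smul_apply, smul_eq_mul]
  exact ⟨right_ne_zero_of_mul, fun h2 => mul_ne_zero ha h2⟩

theorem div_mk (i j : Fin 4) {v : EuclideanSpace ℝ (Fin 4)} (hv : v ≠ 0) :
    (RP3.mk v hv).rep j / (RP3.mk v hv).rep i = v j / v i := by
  obtain ⟨a, ha, h⟩ := rep_mk hv
  rw [h, PiLp.smul_apply, PiLp.smul_apply, smul_eq_mul, smul_eq_mul, mul_div_mul_left _ _ ha]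

theorem isOpen_source (i : Fin 4) : IsOpen {p : RP3 | p.rep i ≠ 0} := by
  rw [← isQuotientMap_mk.isOpen_preimage]
  have h1 : (fun v : {v : EuclideanSpace ℝ (Fin 4) // v ≠ 0} => RP3.mk v.1 v.2) ⁻¹'
      {p : RP3 | p.rep i ≠ 0} = {v | v.1 i ≠ 0} := by
    ext v
    exact mk_mem_iff i v.2
  rw [h1]
  exact isOpen_ne_fun ((EuclideanSpace.proj (𝕜 := ℝ) i).continuous.comp continuous_subtype_val)
    continuous_const

theorem continuousOn_chart (i : Fin 4) : ContinuousOn (fun p : RP3 =>
    (WithLp.toLp 2 (fun k : Fin 3 => p.rep (i.succAbove k) / p.rep i) :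
      EuclideanSpace ℝ (Fin 3))) {p : RP3 | p.rep i ≠ 0} := by
  rw [isQuotientMap_mk.continuousOn_isOpen_iff (isOpen_source i)]
  have h1 : (fun p : RP3 => (WithLp.toLp 2 (fun k : Fin 3 => p.rep (i.succAbove k) / p.rep i) :
      EuclideanSpace ℝ (Fin 3))) ∘
        (fun v : {v : EuclideanSpace ℝ (Fin 4) // v ≠ 0} => RP3.mk v.1 v.2) =
      fun v => WithLp.toLp 2 (fun k : Fin 3 => v.1 (i.succAbove k) / v.1 i) := by
    funext v
    simp only [Function.comp_apply]
    congr 1
    funext k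
    exact div_mk i _ v.2
  rw [h1]
  refine (PiLp.continuous_toLp 2 _).comp_continuousOn ?_
  rw [continuousOn_pi]
  intro k
  have c : ∀ j : Fin 4, Continuous fun v : {v : EuclideanSpace ℝ (Fin 4) // v ≠ 0} => v.1 j :=
    fun j => (EuclideanSpace.proj (𝕜 := ℝ) j).continuous.comp continuous_subtype_val
  refine (c _).continuousOn.div (c _).continuousOn ?_
  intro v hv
  exact (mk_mem_iff i v.2).1 hv

theorem continuous_ins (i : Fin 4) : Continuous (ins i) :=
  (PiLp.continuous_toLp 2 _).comp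
    (Continuous.finInsertNth i continuous_const (PiLp.continuous_ofLp 2 _))

theorem mk_ins_div (i : Fin 4) (p : RP3) (hp : p.rep i ≠ 0) :
    RP3.mk (ins i (WithLp.toLp 2 fun k : Fin 3 => p.rep (i.succAbove k) / p.rep i))
      (ins_ne i _) = p := by
  conv_rhs => rw [← mk_rep p]
  rw [mk_eq_mk_iff]
  refine ⟨(p.rep i)⁻¹, ?_⟩
  ext j
  rw [PiLp.smul_apply, smul_eq_mul]
  rcases Fin.eq_self_or_eq_succAbove i j with h | ⟨k, h⟩
  · subst h
    rw [ins_same, inv_mul_cancel₀ hp]
  · subst h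
    rw [ins_succAbove]
    show _ = p.rep (i.succAbove k) / p.rep i
    rw [div_eq_inv_mul]

/-- The affine chart `[v] ↦ (v j / v i)_{j ≠ i}` of `ℝP³`, defined where `v i ≠ 0`. -/
def chart (i : Fin 4) : OpenPartialHomeomorph RP3 (EuclideanSpace ℝ (Fin 3)) where
  toFun p := WithLp.toLp 2 (fun k : Fin 3 => p.rep (i.succAbove k) / p.rep i)
  invFun w := RP3.mk (ins i w) (ins_ne i w)
  source := {p | p.rep i ≠ 0}
  target := univ
  map_source' _ _ := mem_univ _
  map_target' w _ := by
    show (RP3.mk (ins i w) (ins_ne i w)).rep i ≠ 0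
    rw [mk_mem_iff, ins_same]
    exact one_ne_zero
  left_inv' p hp := mk_ins_div i p hp
  right_inv' w _ := by
    ext k
    show (RP3.mk (ins i w) (ins_ne i w)).rep (i.succAbove k) /
      (RP3.mk (ins i w) (ins_ne i w)).rep i = w k
    rw [div_mk, ins_same, ins_succAbove, div_one]
  open_source := isOpen_source i
  open_target := isOpen_univ
  continuousOn_toFun := continuousOn_chart i
  continuousOn_invFun := (isQuotientMap_mk.continuous.comp
    ((continuous_ins i).subtype_mk (ins_ne i))).continuousOn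

theorem exists_index (p : RP3) : ∃ i, p.rep i ≠ 0 := by
  by_contra h
  push Not at h
  exact rep_ne p (by ext i; simpa using h i)

/-- The atlas of the four affine charts. -/
instance : ChartedSpace (EuclideanSpace ℝ (Fin 3)) RP3 where
  atlas := range chart
  chartAt p := chart (Classical.choose (exists_index p))
  mem_chart_source p := Classical.choose_spec (exists_index p)
  chart_mem_atlas _ := ⟨_, rfl⟩

/-! ### Singular homology -/

section Homology

/-- Singular `n`-simplices of `X`: continuous maps from the standard `n`-simplex to `X`. -/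
abbrev Simp (X : Type) [TopologicalSpace X] (n : ℕ) : Type := C(stdSimplex ℝ (Fin (n + 1)), X)

/-- The `i`-th face of a singular `(n+1)`-simplex. -/
def simpFace {X : Type} [TopologicalSpace X] (n : ℕ) (i : Fin (n + 2)) (σ : Simp X (n + 1)) :
    Simp X n :=
  σ.comp ⟨stdSimplex.map i.succAbove, stdSimplex.continuous_map _⟩

/-- Singular `n`-chains of `X` with coefficients in the field `k`: the vector space with basis the
singular `n`-simplices. -/
def Chains (k : Type) [Field k] (X : Type) [TopologicalSpace X] (n : ℕ) : Type := Simp X n →₀ k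

instance (k : Type) [Field k] (X : Type) [TopologicalSpace X] (n : ℕ) :
    AddCommGroup (Chains k X n) := (Finsupp.instAddCommGroup : AddCommGroup (Simp X n →₀ k))

instance (k : Type) [Field k] (X : Type) [TopologicalSpace X] (n : ℕ) :
    Module k (Chains k X n) := (Finsupp.module (Simp X n) k : Module k (Simp X n →₀ k))

/-- The boundary of singular chains: it sends a singular `(n+1)`-simplex to the alternating sum of
its `n + 2` faces. -/
def bdry (k : Type) [Field k] (X : Type) [TopologicalSpace X] (n : ℕ) :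
    Chains k X (n + 1) →ₗ[k] Chains k X n :=
  Finsupp.linearCombination k (fun σ => ∑ i : Fin (n + 2),
    (Finsupp.single (simpFace n i σ) ((-1 : k) ^ (i : ℕ)) : Simp X n →₀ k))

/-- The singular `n`-cycles. -/
def cycles (k : Type) [Field k] (X : Type) [TopologicalSpace X] :
    ∀ n : ℕ, Submodule k (Chains k X n)
  | 0 => ⊤
  | (n + 1) => LinearMap.ker (bdry k X n)

/-- The singular homology group `H_n(X; k)`: cycles modulo boundaries. -/
abbrev H (k : Type) [Field k] (X : Type) [TopologicalSpace X] (n : ℕ) : Type :=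
  cycles k X n ⧸ (LinearMap.range (bdry k X n)).submoduleOf (cycles k X n)

/-- The sum `∑ₙ dim H_n(X; k)` of the Betti numbers, a natural number or `∞`. -/
def bettiSum (k : Type) [Field k] (X : Type) [TopologicalSpace X] : ℕ∞ :=
  ⨆ N : ℕ, ∑ n ∈ Finset.range N, Cardinal.toENat (Module.rank k (H k X n))

end Homology

/-! ### Taut embeddings -/

section Taut

variable {M : Type} [TopologicalSpace M]

/-- The differential at `x` of a map `f` from the `n`-manifold `M` to `ℝ^N`. -/
def differential (n : ℕ) [ChartedSpace (EuclideanSpace ℝ (Fin n)) M] {N : ℕ}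
    (f : M → EuclideanSpace ℝ (Fin N)) (x : M) :
    EuclideanSpace ℝ (Fin n) →L[ℝ] EuclideanSpace ℝ (Fin N) :=
  mfderiv (𝓡 n) 𝓘(ℝ, EuclideanSpace ℝ (Fin N)) f x

/-- The differential at `x` of a function `g : M → ℝ` on the `n`-manifold `M`. -/
def dfun (n : ℕ) [ChartedSpace (EuclideanSpace ℝ (Fin n)) M] (g : M → ℝ) (x : M) :
    EuclideanSpace ℝ (Fin n) →L[ℝ] ℝ :=
  mfderiv (𝓡 n) 𝓘(ℝ) g x

/-- `x` is a critical point of `g : M → ℝ`. -/
def IsCritical (n : ℕ) [ChartedSpace (EuclideanSpace ℝ (Fin n)) M] (g : M → ℝ) (x : M) : Prop :=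
  dfun n g x = 0

/-- The function `g` in the chart at `x`. -/
def inChart (n : ℕ) [ChartedSpace (EuclideanSpace ℝ (Fin n)) M] (g : M → ℝ) (x : M) :
    EuclideanSpace ℝ (Fin n) → ℝ := g ∘ (extChartAt (𝓡 n) x).symm

/-- The coordinates of `x` in the chart at `x`. -/
def coord (n : ℕ) [ChartedSpace (EuclideanSpace ℝ (Fin n)) M] (x : M) :
    EuclideanSpace ℝ (Fin n) := extChartAt (𝓡 n) x x

/-- The Hessian (second derivative) of `g` at `x`, in the chart at `x`. -/
def hess (n : ℕ) [ChartedSpace (EuclideanSpace ℝ (Fin n)) M] (g : M → ℝ) (x : M)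
    (v w : EuclideanSpace ℝ (Fin n)) : ℝ :=
  iteratedFDeriv ℝ 2 (inChart n g x) (coord n x) ![v, w]

/-- `g` is a Morse function: it is smooth and its Hessian at each critical point is
nondegenerate. -/
def IsMorse (n : ℕ) [ChartedSpace (EuclideanSpace ℝ (Fin n)) M] (g : M → ℝ) : Prop :=
  ContMDiff (𝓡 n) 𝓘(ℝ) ∞ g ∧
    ∀ x, IsCritical n g x → ∀ v, (∀ w, hess n g x v w = 0) → v = 0

/-- `f` is a smooth embedding: smooth, a homeomorphism onto its image, with injective
differentials. -/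
def IsSmoothEmb (n : ℕ) [ChartedSpace (EuclideanSpace ℝ (Fin n)) M] {N : ℕ}
    (f : M → EuclideanSpace ℝ (Fin N)) : Prop :=
  ContMDiff (𝓡 n) 𝓘(ℝ, EuclideanSpace ℝ (Fin N)) ∞ f ∧ IsEmbedding f ∧
    ∀ x, Function.Injective (differential n f x)

/-- `f : M → ℝ^N` is a taut embedding: it is a smooth embedding, and every squared distance
function `x ↦ ‖p - f x‖²` which is a Morse function has exactly `∑ᵢ dim H_i(M; ℤ/2)` critical
points. -/
def IsTaut (n : ℕ) [ChartedSpace (EuclideanSpace ℝ (Fin n)) M] {N : ℕ}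
    (f : M → EuclideanSpace ℝ (Fin N)) : Prop :=
  IsSmoothEmb n f ∧ ∀ p : EuclideanSpace ℝ (Fin N), IsMorse n (fun x => ‖p - f x‖ ^ 2) →
    {x | IsCritical n (fun x => ‖p - f x‖ ^ 2) x}.encard = bettiSum (ZMod 2) M

/-- The map `f : M → S^{N-1} ⊂ ℝ^N` is spherically substantial: its image is contained in no
affine hyperplane `{y | ⟪v, y⟫ = c}`, `v ≠ 0`, of `ℝ^N`. -/
def IsSphericallySubstantial {N : ℕ}
    (f : M → Metric.sphere (0 : EuclideanSpace ℝ (Fin N)) 1) : Prop :=
  ∀ (v : EuclideanSpace ℝ (Fin N)) (c : ℝ), v ≠ 0 →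
    ∃ x, ⟪v, (f x : EuclideanSpace ℝ (Fin N))⟫ ≠ c

/-- The `n`-manifold `M` has a taut spherically substantial embedding in the unit sphere of
`ℝ^N`. -/
def HasTautEmbInSphere (n : ℕ) (M : Type) [TopologicalSpace M]
    [ChartedSpace (EuclideanSpace ℝ (Fin n)) M] (N : ℕ) : Prop :=
  ∃ f : M → Metric.sphere (0 : EuclideanSpace ℝ (Fin N)) 1,
    IsTaut n (fun x => (f x : EuclideanSpace ℝ (Fin N))) ∧ IsSphericallySubstantial f

end Taut

end Pool.Agent.Helper156.RP
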