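import Pool.Agent.Helper156.RP.KK

open scoped Manifold ContDiff Topology RealInnerProductSpace
open Set Topology

noncomputable section

namespace Pool.Agent.Helper156.RP.J30885

open Pool.Agent.Helper156.RP Pool.Agent.Helper156.Nv


theorem sd_alt {k M : Type*} [Field k] [AddCommGroup M] [Module k M] (m : ℕ)
    (g : Fin (m + 2) → Fin (m + 3) → M)
    (hg : ∀ i j : Fin (m + 2), i ≤ j → g i j.succ = g j i.castSucc) :
    ∑ j : Fin (m + 3), ∑ i : Fin (m + 2), ((-1 : k) ^ (j : ℕ) * (-1 : k) ^ (i : ℕ)) • g i j = 0 := by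
  classical
  rw [Finset.sum_comm, ← Finset.sum_product', Finset.univ_product_univ]
  set S : Finset (Fin (m + 2) × Fin (m + 3)) :=
    Finset.univ.filter (fun p => (p.2 : ℕ) ≤ (p.1 : ℕ)) with hS
  rw [← Finset.sum_add_sum_compl S, ← eq_neg_iff_add_eq_zero, ← Finset.sum_neg_distrib]
  have hmS : ∀ p : Fin (m + 2) × Fin (m + 3), p ∈ S ↔ (p.2 : ℕ) ≤ (p.1 : ℕ) := by
    intro p
    rw [hS, Finset.mem_filter]
    simp
  have hmSc : ∀ p : Fin (m + 2) × Fin (m + 3), p ∈ Sᶜ ↔ (p.1 : ℕ) < (p.2 : ℕ) := by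
    intro p
    rw [Finset.mem_compl, hmS, not_le]
  refine Finset.sum_bij'
    (fun p hp => (⟨(p.2 : ℕ), lt_of_le_of_lt ((hmS p).1 hp) p.1.2⟩, p.1.succ))
    (fun p hp => (⟨(p.2 : ℕ) - 1, by have := (hmSc p).1 hp; have := p.2.2; omega⟩, p.1.castSucc))
    ?_ ?_ ?_ ?_ ?_
  · intro p hp
    rw [hmSc]
    have := (hmS p).1 hp
    show (p.2 : ℕ) < ((p.1.succ : Fin (m + 3)) : ℕ)
    rw [Fin.val_succ]
    omega
  · intro p hp
    rw [hmS]
    have := (hmSc p).1 hp
    show ((p.1.castSucc : Fin (m + 3)) : ℕ) ≤ (p.2 : ℕ) - 1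
    rw [Fin.val_castSucc]
    omega
  · rintro ⟨i, j⟩ hp
    have := (hmS (i, j)).1 hp
    refine Prod.ext (Fin.ext ?_) (Fin.ext ?_)
    · show ((i.succ : Fin (m + 3)) : ℕ) - 1 = (i : ℕ)
      rw [Fin.val_succ]
      omega
    · rfl
  · rintro ⟨i, j⟩ hp
    have := (hmSc (i, j)).1 hp
    refine Prod.ext (Fin.ext ?_) (Fin.ext ?_)
    · rfl
    · show (j : ℕ) - 1 + 1 = (j : ℕ)
      have : (i : ℕ) < (j : ℕ) := this
      omega
  · rintro ⟨i, j⟩ hp
    have hji : (j : ℕ) ≤ (i : ℕ) := (hmS (i, j)).1 hp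
    have h1 := hg ⟨(j : ℕ), lt_of_le_of_lt hji i.2⟩ i hji
    have h2 : (⟨(j : ℕ), lt_of_le_of_lt hji i.2⟩ : Fin (m + 2)).castSucc = j := Fin.ext rfl
    rw [h2] at h1
    show ((-1 : k) ^ (j : ℕ) * (-1 : k) ^ (i : ℕ)) • g i j =
      -(((-1 : k) ^ ((i.succ : Fin (m + 3)) : ℕ) * (-1 : k) ^ (j : ℕ)) •
        g ⟨(j : ℕ), lt_of_le_of_lt hji i.2⟩ i.succ)
    rw [h1, Fin.val_succ, ← neg_smul]
    congr 1
    ring

theorem sd_face (X : Type) [TopologicalSpace X] (m : ℕ) (σ : Simp X (m + 2)) (i j : Fin (m + 2))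
    (hij : i ≤ j) : simpFace m i (simpFace (m + 1) j.succ σ) =
      simpFace m j (simpFace (m + 1) i.castSucc σ) := by
  refine ContinuousMap.ext fun x => ?_
  show σ (stdSimplex.map (j.succ).succAbove (stdSimplex.map i.succAbove x)) =
    σ (stdSimplex.map (i.castSucc).succAbove (stdSimplex.map j.succAbove x))
  have hcomp : (j.succ).succAbove ∘ i.succAbove = (i.castSucc).succAbove ∘ j.succAbove := by
    funext a
    refine Fin.ext ?_
    have hij' : (i : ℕ) ≤ (j : ℕ) := hij
    simp only [Function.comp, Fin.succAbove, Fin.lt_def, Fin.val_castSucc, Fin.val_succ]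
    split_ifs <;> simp_all [Fin.val_succ, Fin.val_castSucc] <;> omega
  have h1 : ∀ (f : Fin (m + 1) → Fin (m + 2)) (g : Fin (m + 2) → Fin (m + 3)),
      stdSimplex.map (S := ℝ) g (stdSimplex.map (S := ℝ) f x) =
        stdSimplex.map (S := ℝ) (g ∘ f) x := by
    intro f g
    rw [stdSimplex.map_comp_apply]
  rw [h1, h1, hcomp]

theorem range_le_cycles (k : Type) [Field k] (X : Type) [TopologicalSpace X] (n : ℕ) :
    LinearMap.range (bdry0 k X n) ≤ cycles0 k X n := by
  cases n with
  | zero => exact le_top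
  | succ m =>
    rintro _ ⟨z, rfl⟩
    show bdry0 k X m (bdry0 k X (m + 1) z) = 0
    have hcomp : (bdry0 k X m) ∘ₗ (bdry0 k X (m + 1)) = 0 := by
      refine Finsupp.lhom_ext' fun σ => LinearMap.ext_ring ?_
      show bdry0 k X m (bdry0 k X (m + 1) (Finsupp.single σ 1)) = 0
      have h1 : bdry0 k X (m + 1) (Finsupp.single σ 1) =
          ∑ j : Fin (m + 3), Finsupp.single (simpFace (m + 1) j σ) ((-1 : k) ^ (j : ℕ)) := by
        unfold bdry0
        rw [Finsupp.linearCombination_single, one_smul]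
      have h2 : ∀ (τ : Simp X (m + 1)) (c : k), bdry0 k X m (Finsupp.single τ c) =
          ∑ i : Fin (m + 2), (c * (-1 : k) ^ (i : ℕ)) • Finsupp.single (simpFace m i τ) (1 : k) := by
        intro τ c
        unfold bdry0
        rw [Finsupp.linearCombination_single, Finset.smul_sum]
        refine Finset.sum_congr rfl fun i _ => ?_
        rw [Finsupp.smul_single, Finsupp.smul_single, smul_eq_mul, smul_eq_mul, mul_one]
      rw [h1, map_sum]
      simp only [h2]
      exact sd_alt m (fun i j => Finsupp.single (simpFace m i (simpFace (m + 1) j σ)) (1 : k))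
        (fun i j hij => by rw [sd_face X m σ i j hij])
    exact LinearMap.congr_fun hcomp z

theorem singCoh_dual (k : Type) [Field k] (X : Type) [TopologicalSpace X] (n : ℕ) :
    Nonempty (SingCoh k X n ≃ₗ[k] Module.Dual k (H0 k X n)) := by
  let pair : ∀ n : ℕ, (Sing X n → k) ≃ₗ[k] Module.Dual k (Simp X n →₀ k) :=
    fun n => Finsupp.llift k k k (Simp X n)
  have hpair : ∀ (n : ℕ) (f : Sing X n → k) (σ : Simp X n) (c : k),
      pair n f (Finsupp.single σ c) = c * f σ := by
    intro n f σ c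
    show Finsupp.llift k k k (Simp X n) f (Finsupp.single σ c) = c * f σ
    rw [Finsupp.llift_apply, Finsupp.lift_apply, Finsupp.sum_single_index, smul_eq_mul]
    rw [zero_smul]
  have hcomm : ∀ (n : ℕ) (f : Sing X n → k),
      pair (n + 1) (altd k (sface (X := X)) n f) = (pair n f) ∘ₗ (bdry0 k X n) := by
    intro n f
    refine Finsupp.lhom_ext' fun σ => LinearMap.ext_ring ?_
    show pair (n + 1) (altd k (sface (X := X)) n f) (Finsupp.single σ 1) =
      pair n f (bdry0 k X n (Finsupp.single σ 1))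
    have h1 : bdry0 k X n (Finsupp.single σ 1) =
        ∑ j : Fin (n + 2), Finsupp.single (simpFace n j σ) ((-1 : k) ^ (j : ℕ)) := by
      unfold bdry0
      rw [Finsupp.linearCombination_single, one_smul]
    rw [h1, map_sum, hpair, one_mul]
    show ∑ i : Fin (n + 2), (-1 : k) ^ (i : ℕ) * f (sface n i σ) = _
    refine Finset.sum_congr rfl fun i _ => ?_
    rw [hpair]
    rfl
  have hker : (LinearMap.ker (altd k (sface (X := X)) n)).map (pair n).toLinearMap =
      (LinearMap.range (bdry0 k X n)).dualAnnihilator := by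
    apply le_antisymm
    · rintro _ ⟨f, hf, rfl⟩
      rw [Submodule.mem_dualAnnihilator]
      rintro _ ⟨z, rfl⟩
      have h1 := hcomm n f
      have hf' : altd k (sface (X := X)) n f = 0 := hf
      rw [hf', map_zero] at h1
      exact (LinearMap.congr_fun h1 z).symm
    · intro ψ hψ
      rw [Submodule.mem_dualAnnihilator] at hψ
      refine ⟨(pair n).symm ψ, ?_, (pair n).apply_symm_apply ψ⟩
      show altd k (sface (X := X)) n ((pair n).symm ψ) = 0
      apply (pair (n + 1)).injective
      rw [hcomm, map_zero, (pair n).apply_symm_apply]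
      exact LinearMap.ext fun z => hψ _ ⟨z, rfl⟩
  let e1 : LinearMap.ker (altd k (sface (X := X)) n) ≃ₗ[k]
      (LinearMap.range (bdry0 k X n)).dualAnnihilator :=
    ((pair n).submoduleMap (LinearMap.ker (altd k (sface (X := X)) n))).trans
      (LinearEquiv.ofEq _ _ hker)
  have he1 : ∀ (f : LinearMap.ker (altd k (sface (X := X)) n)) (c : Simp X n →₀ k),
      (e1 f : Module.Dual k (Simp X n →₀ k)) c = pair n f.1 c := fun f c => rfl
  let Φ : LinearMap.ker (altd k (sface (X := X)) n) →ₗ[k] Module.Dual k (H0 k X n) :=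
    (H0 k X n).dualRestrict ∘ₗ
      ((LinearMap.range (bdry0 k X n)).dualQuotEquivDualAnnihilator.symm.toLinearMap ∘ₗ
        e1.toLinearMap)
  have hΦ : ∀ (f : LinearMap.ker (altd k (sface (X := X)) n)) (c : Simp X n →₀ k)
      (hc : (LinearMap.range (bdry0 k X n)).mkQ c ∈ H0 k X n),
      Φ f ⟨(LinearMap.range (bdry0 k X n)).mkQ c, hc⟩ = pair n f.1 c := by
    intro f c hc
    show ((LinearMap.range (bdry0 k X n)).dualQuotEquivDualAnnihilator.symm (e1 f))
      (Submodule.Quotient.mk c) = pair n f.1 c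
    rw [Submodule.dualQuotEquivDualAnnihilator_symm_apply_mk]
    exact he1 f c
  have hsurj : Function.Surjective Φ := by
    have h1 : Function.Surjective (H0 k X n).dualRestrict := Subspace.dualRestrict_surjective
    intro ψ
    obtain ⟨χ, hχ⟩ := h1 ψ
    refine ⟨e1.symm ((LinearMap.range (bdry0 k X n)).dualQuotEquivDualAnnihilator χ), ?_⟩
    show (H0 k X n).dualRestrict ((LinearMap.range (bdry0 k X n)).dualQuotEquivDualAnnihilator.symm
      (e1 (e1.symm ((LinearMap.range (bdry0 k X n)).dualQuotEquivDualAnnihilator χ)))) = ψ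
    rw [LinearEquiv.apply_symm_apply, LinearEquiv.symm_apply_apply, hχ]
  have hkerΦ : ∀ f : LinearMap.ker (altd k (sface (X := X)) n),
      Φ f = 0 ↔ ∀ c ∈ cycles0 k X n, pair n f.1 c = 0 := by
    intro f
    constructor
    · intro h c hc
      have h1 : (LinearMap.range (bdry0 k X n)).mkQ c ∈ H0 k X n := ⟨c, hc, rfl⟩
      rw [← hΦ f c h1, h]
      rfl
    · intro h
      refine LinearMap.ext ?_
      rintro ⟨y, hy⟩
      obtain ⟨c, hc, rfl⟩ := hy
      rw [hΦ]
      exact h c hc
  have hcob : ∀ f : Sing X n → k, (∀ c ∈ cycles0 k X n, pair n f c = 0) ↔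
      f ∈ cobound k (fun n => Sing X n → k) (fun n => altd k (sface (X := X)) n) n := by
    cases n with
    | zero =>
      intro f
      constructor
      · intro h
        have h1 : pair 0 f = 0 := LinearMap.ext fun c => h c Submodule.mem_top
        have h2 : f = 0 := by
          apply (pair 0).injective
          rw [h1, map_zero]
        rw [h2]
        exact Submodule.zero_mem _
      · intro h c _
        have h2 : f = 0 := h
        rw [h2, map_zero]
        rfl
    | succ m =>
      intro f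
      constructor
      · intro h
        have h1 : pair (m + 1) f ∈ (LinearMap.ker (bdry0 k X m)).dualAnnihilator := by
          rw [Submodule.mem_dualAnnihilator]
          exact fun c hc => h c hc
        rw [← LinearMap.range_dualMap_eq_dualAnnihilator_ker] at h1
        obtain ⟨ψ, hψ⟩ := h1
        refine ⟨(pair m).symm ψ, ?_⟩
        apply (pair (m + 1)).injective
        rw [hcomm, (pair m).apply_symm_apply]
        exact hψ
      · rintro ⟨g, rfl⟩ c hc
        show pair (m + 1) (altd k (sface (X := X)) m g) c = 0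
        rw [hcomm]
        have hc' : bdry0 k X m c = 0 := hc
        show pair m g (bdry0 k X m c) = 0
        rw [hc', map_zero]
  have hkereq : (cobound k (fun n => Sing X n → k) (fun n => altd k (sface (X := X)) n) n).comap
      (LinearMap.ker (altd k (sface (X := X)) n)).subtype = LinearMap.ker Φ := by
    ext f
    rw [LinearMap.mem_ker, hkerΦ f, hcob]
    rfl
  exact ⟨(Submodule.quotEquivOfEq _ _ hkereq).trans
    (LinearMap.quotKerEquivOfSurjective Φ hsurj)⟩

end Pool.Agent.Helper156.RP.J30885
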