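import Pool.Agent.Helper156.RP.KK

open scoped Manifold ContDiff Topology RealInnerProductSpace
open Set Topology

noncomputable section

namespace Pool.Agent.Helper156.RP.J30886

open Pool.Agent.Helper156.RP Pool.Agent.Helper156.Nv


theorem UU_open (m : ℕ) : IsOpen (UU m) := by
  rw [← isQuotientMap_mk.isOpen_preimage]
  have h1 : (fun v : {v : EuclideanSpace ℝ (Fin 4) // v ≠ 0} => RP3.mk v.1 v.2) ⁻¹' (UU m) =
      ⋃ a : ℝ, ⋂ i : Fin 4, {v : {v : EuclideanSpace ℝ (Fin 4) // v ≠ 0} |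
        dn m i ≠ 1 → 0 < a * (dg m i * v.1 i)} := by
    ext v
    obtain ⟨b, hb, hrep⟩ := rep_mk v.2
    have hrepi : ∀ i, (RP3.mk v.1 v.2).rep i = b * v.1 i := by
      intro i
      rw [hrep, PiLp.smul_apply, smul_eq_mul]
    simp only [Set.mem_iUnion, Set.mem_iInter, Set.mem_setOf_eq, Set.mem_preimage]
    constructor
    · rintro ⟨a, ha⟩
      refine ⟨a * b, fun i hi => ?_⟩
      have h2 := ha i hi
      rw [hrepi i] at h2
      have h3 : a * b * (dg m i * v.1 i) = a * (dg m i * (b * v.1 i)) := by ring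
      rw [h3]
      exact h2
    · rintro ⟨a, ha⟩
      refine ⟨a / b, fun i hi => ?_⟩
      have h2 := ha i hi
      rw [hrepi i]
      have h3 : a / b * (dg m i * (b * v.1 i)) = a * (dg m i * v.1 i) := by
        field_simp
      rw [h3]
      exact h2
  rw [h1]
  refine isOpen_iUnion (fun a => isOpen_iInter_of_finite (fun i => ?_))
  by_cases hi : dn m i ≠ 1
  · have h2 : {v : {v : EuclideanSpace ℝ (Fin 4) // v ≠ 0} |
        dn m i ≠ 1 → 0 < a * (dg m i * v.1 i)} = {v | 0 < a * (dg m i * v.1 i)} := by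
      ext v
      simp only [Set.mem_setOf_eq]
      exact ⟨fun h => h hi, fun h _ => h⟩
    rw [h2]
    have c : Continuous fun v : {v : EuclideanSpace ℝ (Fin 4) // v ≠ 0} => v.1 i :=
      (EuclideanSpace.proj (𝕜 := ℝ) i).continuous.comp continuous_subtype_val
    exact isOpen_lt continuous_const (continuous_const.mul (continuous_const.mul c))
  · have h2 : {v : {v : EuclideanSpace ℝ (Fin 4) // v ≠ 0} |
        dn m i ≠ 1 → 0 < a * (dg m i * v.1 i)} = Set.univ := by
      ext v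
      simp only [Set.mem_setOf_eq, Set.mem_univ, iff_true]
      exact fun h => absurd h hi
    rw [h2]
    exact isOpen_univ
 -- TARGET

theorem UU_cover (x : RP3) : ∃ C ∈ Fam, x ∈ C := by
  obtain ⟨i, hi⟩ := exists_index x
  have h1 : ∀ i j : Fin 4, dn (3 ^ (i : ℕ)) j ≠ 1 → j = i := by decide
  have h2 : ∀ i : Fin 4, dn (3 ^ (i : ℕ)) i = 2 := by decide
  have h3 : ∀ i : Fin 4, 1 ≤ 3 ^ (i : ℕ) ∧ 3 ^ (i : ℕ) ≤ 40 := by decide
  refine ⟨UU (3 ^ (i : ℕ)), ⟨3 ^ (i : ℕ), (h3 i).1, (h3 i).2, rfl⟩, x.rep i, ?_⟩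
  intro j hj
  have hji := h1 i j hj
  subst hji
  have h4 : dg (3 ^ (j : ℕ)) j = 1 := by
    unfold dg
    rw [h2 j]
    norm_num
  rw [h4, one_mul]
  exact mul_self_pos.mpr hi
 -- TARGET

end Pool.Agent.Helper156.RP.J30886
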