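import Pool.Agent.Helper156.RP.KK

open scoped Manifold ContDiff Topology RealInnerProductSpace
open Set Topology

noncomputable section

namespace Pool.Agent.Helper156.RP.J30887

open Pool.Agent.Helper156.RP Pool.Agent.Helper156.Nv


theorem dn_lt (m i : ℕ) : dn m i < 3 := Nat.mod_lt _ (by norm_num)

theorem ext_iff' (x y : ℕ) : ext x y = true ↔
    (∀ i : Fin 4, dn y i = 1 ∨ dn y i = dn x i) ∨
      (∀ i : Fin 4, dn y i = 1 ∨ dn y i + dn x i = 2) := by
  unfold ext
  rw [Bool.or_eq_true, List.all_eq_true, List.all_eq_true]
  simp only [List.mem_range, Bool.or_eq_true, beq_iff_eq]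
  constructor
  · rintro (h | h)
    · exact Or.inl fun i => h i i.isLt
    · exact Or.inr fun i => h i i.isLt
  · rintro (h | h)
    · exact Or.inl fun i hi => h ⟨i, hi⟩
    · exact Or.inr fun i hi => h ⟨i, hi⟩

theorem dn_exists (x : ℕ) (hx : 1 ≤ x ∧ x ≤ 40) : ∃ i : Fin 4, dn x i ≠ 1 := by
  have h : ∀ x ∈ Finset.Icc 1 40, ∃ i : Fin 4, dn x i ≠ 1 := by decide +kernel
  exact h x (Finset.mem_Icc.2 hx)

theorem UU_subset_iff (x y : ℕ) (hx : 1 ≤ x ∧ x ≤ 40) (hy : 1 ≤ y ∧ y ≤ 40) :
    UU x ⊆ UU y ↔ ext x y = true := by
  rw [ext_iff']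
  constructor
  · intro hsub
    set v : EuclideanSpace ℝ (Fin 4) := WithLp.toLp 2 (fun i => dg x i) with hvdef
    have hvi : ∀ i, v i = dg x i := fun i => rfl
    have hv : v ≠ 0 := by
      obtain ⟨i, hi⟩ := dn_exists x hx
      intro h0
      have h1 : v i = 0 := by rw [h0]; rfl
      rw [hvi] at h1
      unfold dg at h1
      have h2 : (dn x i : ℝ) = 1 := by linarith
      exact hi (by exact_mod_cast h2)
    obtain ⟨b, hb, hrep⟩ := rep_mk hv
    have hrepi : ∀ i, (RP3.mk v hv).rep i = b * dg x i := by
      intro i
      rw [hrep, PiLp.smul_apply, smul_eq_mul, hvi]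
    have hmem : RP3.mk v hv ∈ UU x := by
      refine ⟨b⁻¹, fun i hi => ?_⟩
      rw [hrepi i]
      have h1 : dg x i ≠ 0 := by
        intro h0
        unfold dg at h0
        have h2 : (dn x i : ℝ) = 1 := by linarith
        exact hi (by exact_mod_cast h2)
      have h2 : b⁻¹ * (dg x i * (b * dg x i)) = dg x i * dg x i := by
        field_simp
      rw [h2]
      exact mul_self_pos.2 h1
    obtain ⟨a, ha⟩ := hsub hmem
    have key : ∀ i : Fin 4, dn y i ≠ 1 → 0 < (a * b) * (dg y i * dg x i) := by
      intro i hi
      have h1 := ha i hi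
      rw [hrepi i] at h1
      have h2 : a * (dg y i * (b * dg x i)) = (a * b) * (dg y i * dg x i) := by ring
      rwa [h2] at h1
    rcases lt_trichotomy (a * b) 0 with hc | hc | hc
    · right
      intro i
      by_cases hi : dn y i = 1
      · exact Or.inl hi
      · right
        have h1 := key i hi
        have h2 : dg y i * dg x i < 0 := by
          by_contra h3
          push Not at h3
          have := mul_nonpos_of_nonpos_of_nonneg hc.le h3
          linarith
        unfold dg at h2
        have h3 := dn_lt x i
        have h4 := dn_lt y i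
        generalize dn x i = s at *
        generalize dn y i = t at *
        interval_cases s <;> interval_cases t <;> first | rfl | (exfalso; norm_num at h2)
    · left
      intro i
      by_cases hi : dn y i = 1
      · exact Or.inl hi
      · exfalso
        have h1 := key i hi
        rw [hc, zero_mul] at h1
        exact lt_irrefl _ h1
    · left
      intro i
      by_cases hi : dn y i = 1
      · exact Or.inl hi
      · right
        have h1 := key i hi
        have h2 : 0 < dg y i * dg x i := by
          by_contra h3
          push Not at h3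
          have := mul_nonpos_of_nonneg_of_nonpos hc.le h3
          linarith
        unfold dg at h2
        have h3 := dn_lt x i
        have h4 := dn_lt y i
        generalize dn x i = s at *
        generalize dn y i = t at *
        interval_cases s <;> interval_cases t <;> first | rfl | (exfalso; norm_num at h2)
  · rintro (h | h) p ⟨a, ha⟩
    · refine ⟨a, fun i hi => ?_⟩
      have h1 : dn y i = dn x i := (h i).resolve_left hi
      have h2 := ha i (by rw [← h1]; exact hi)
      have h3 : dg y i = dg x i := by unfold dg; rw [h1]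
      rw [h3]
      exact h2
    · refine ⟨-a, fun i hi => ?_⟩
      have h1 : dn y i + dn x i = 2 := (h i).resolve_left hi
      have h2 := ha i (by omega)
      have h3 : dg y i = -dg x i := by
        unfold dg
        have h4 : (dn y i : ℝ) + (dn x i : ℝ) = 2 := by exact_mod_cast h1
        linarith
      rw [h3]
      have h5 : -a * (-dg x i * p.rep i) = a * (dg x i * p.rep i) := by ring
      rw [h5]
      exact h2

theorem UU_inj (x y : ℕ) (hx : 1 ≤ x ∧ x ≤ 40) (hy : 1 ≤ y ∧ y ≤ 40) (h : UU x = UU y) : x = y := by
  have h1 : ext x y = true := (UU_subset_iff x y hx hy).1 h.le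
  have h2 : ext y x = true := (UU_subset_iff y x hy hx).1 h.ge
  have h3 : ∀ x ∈ Finset.Icc 1 40, ∀ y ∈ Finset.Icc 1 40, ext x y = true → ext y x = true → x = y := by
    decide +kernel
  exact h3 x (Finset.mem_Icc.2 hx) y (Finset.mem_Icc.2 hy) h1 h2

end Pool.Agent.Helper156.RP.J30887
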