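import Pool.Agent.Helper156.RP.KK
import Pool.Agent.Helper156.RP.J30887

open scoped Manifold ContDiff Topology RealInnerProductSpace
open Set Topology

noncomputable section

namespace Pool.Agent.Helper156.RP.J30888

open Pool.Agent.Helper156.RP Pool.Agent.Helper156.Nv Pool.Agent.Helper156.RP.J30887


theorem UU_cap_fin : ∀ d : Fin 4 → Fin 3, (∃ i, d i ≠ 1) →
    ∃ m ∈ Finset.Icc 1 40, (∀ i : Fin 4, dn m i = (d i).val) ∨ (∀ i : Fin 4, dn m i + (d i).val = 2) := by
  decide +kernel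

theorem UU_cap_fin2 : ∀ m ∈ Finset.Icc 1 40, ∃ i : Fin 4, dn m i ≠ 1 := by
  decide +kernel

theorem UU_cap_cont (i0 i : Fin 4) :
    ContinuousOn (fun p : RP3 => p.rep i / p.rep i0) {p : RP3 | p.rep i0 ≠ 0} := by
  rw [isQuotientMap_mk.continuousOn_isOpen_iff (isOpen_source i0)]
  have h1 : (fun p : RP3 => p.rep i / p.rep i0) ∘
        (fun v : {v : EuclideanSpace ℝ (Fin 4) // v ≠ 0} => RP3.mk v.1 v.2) =
      fun v => v.1 i / v.1 i0 := by
    funext v
    exact div_mk i0 i v.2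
  rw [h1]
  have c : ∀ j : Fin 4, Continuous fun v : {v : EuclideanSpace ℝ (Fin 4) // v ≠ 0} => v.1 j :=
    fun j => (EuclideanSpace.proj (𝕜 := ℝ) j).continuous.comp continuous_subtype_val
  refine (c _).continuousOn.div (c _).continuousOn ?_
  intro v hv
  exact (mk_mem_iff i0 v.2).1 hv

theorem UU_cap_sign (S : Set RP3) (hS : IsPreconnected S) (f : RP3 → ℝ) (hf : ContinuousOn f S)
    (h0 : ∀ p ∈ S, f p ≠ 0) (p0 : RP3) (hp0 : p0 ∈ S) :
    (0 < f p0 → ∀ p ∈ S, 0 < f p) ∧ (¬ 0 < f p0 → ∀ p ∈ S, f p < 0) := by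
  have key : ∀ p ∈ S, ∀ q ∈ S, f p < 0 → 0 < f q → False := by
    intro p hp q hq h1 h2
    obtain ⟨x, hx, hx0⟩ := hS.intermediate_value hp hq hf ⟨h1.le, h2.le⟩
    exact h0 x hx hx0
  constructor
  · intro h p hp
    rcases lt_trichotomy (f p) 0 with h1 | h1 | h1
    · exact (key p hp p0 hp0 h1 h).elim
    · exact (h0 p hp h1).elim
    · exact h1
  · intro h p hp
    have h' : f p0 < 0 := lt_of_le_of_ne (not_lt.mp h) (h0 p0 hp0)
    rcases lt_trichotomy (f p) 0 with h1 | h1 | h1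
    · exact h1
    · exact (h0 p hp h1).elim
    · exact (key p0 hp0 p hp h' h1).elim

theorem UU_cap (S : Set RP3) (hS : IsConnected S) (h : ∃ C ∈ Fam, S ⊆ C) :
    ∃ J ∈ Fam, S ⊆ J ∧ ∀ C ∈ Fam, S ⊆ C → J ⊆ C := by
  classical
  obtain ⟨C0, ⟨m0, hm1, hm2, rfl⟩, hSm0⟩ := h
  obtain ⟨p0, hp0⟩ := hS.nonempty
  have hne : ∀ y : ℕ, S ⊆ UU y → ∀ i : Fin 4, dn y i ≠ 1 → ∀ p ∈ S, p.rep i ≠ 0 := by
    intro y hy i hi p hp hz
    obtain ⟨a, ha⟩ := hy hp
    have := ha i hi
    rw [hz] at this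
    simp at this
  obtain ⟨i0, hi0⟩ := UU_cap_fin2 m0 (Finset.mem_Icc.mpr ⟨hm1, hm2⟩)
  have hi0S := hne m0 hSm0 i0 hi0
  let I : Set (Fin 4) := {i | ∀ p ∈ S, p.rep i ≠ 0}
  let r : Fin 4 → RP3 → ℝ := fun i p => p.rep i / p.rep i0
  let d : Fin 4 → Fin 3 := fun i => if i ∈ I then (if 0 < r i p0 then 2 else 0) else 1
  have hdI : ∀ i, i ∉ I → d i = 1 := fun i hi => if_neg hi
  have hdI' : ∀ i, i ∈ I → d i ≠ 1 := by
    intro i hi
    simp only [d, if_pos hi]
    split_ifs <;> decide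
  let s : Fin 4 → ℝ := fun i => ((d i).val : ℝ) - 1
  have hs : ∀ i ∈ I, (s i = 1 ∨ s i = -1) ∧ ∀ p ∈ S, 0 < s i * r i p := by
    intro i hi
    have hcont : ContinuousOn (r i) S := (UU_cap_cont i0 i).mono (fun p hp => hi0S p hp)
    have hr0 : ∀ p ∈ S, r i p ≠ 0 := fun p hp => div_ne_zero (hi p hp) (hi0S p hp)
    obtain ⟨a1, a2⟩ := UU_cap_sign S hS.isPreconnected (r i) hcont hr0 p0 hp0
    by_cases hpos : 0 < r i p0
    · have hd : d i = 2 := by simp only [d, if_pos hi, if_pos hpos]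
      have hsi : s i = 1 := by simp only [s, hd]; norm_num
      refine ⟨Or.inl hsi, fun p hp => ?_⟩
      rw [hsi, one_mul]
      exact a1 hpos p hp
    · have hd : d i = 0 := by simp only [d, if_pos hi, if_neg hpos]
      have hsi : s i = -1 := by simp only [s, hd]; norm_num
      refine ⟨Or.inr hsi, fun p hp => ?_⟩
      rw [hsi]
      have := a2 hpos p hp
      linarith
  obtain ⟨m, hmI, hm⟩ := UU_cap_fin d ⟨i0, hdI' i0 hi0S⟩
  rw [Finset.mem_Icc] at hmI
  obtain ⟨e, he, hdg⟩ : ∃ e : ℝ, (e = 1 ∨ e = -1) ∧ ∀ i, dg m i = e * s i := by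
    rcases hm with hm | hm
    · refine ⟨1, Or.inl rfl, fun i => ?_⟩
      simp only [dg, s, hm i, one_mul]
    · refine ⟨-1, Or.inr rfl, fun i => ?_⟩
      have h1 : ((dn m i : ℝ)) + ((d i).val : ℝ) = 2 := by exact_mod_cast hm i
      simp only [dg, s]
      linarith
  have he2 : e * e = 1 := by rcases he with h | h <;> rw [h] <;> norm_num
  have hdnI : ∀ i : Fin 4, dn m i ≠ 1 → i ∈ I := by
    intro i hi
    by_contra hiI
    have h1 := hdI i hiI
    rcases hm with hm | hm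
    · apply hi
      rw [hm i, h1]; rfl
    · apply hi
      have := hm i
      rw [h1] at this
      have h3 : ((1 : Fin 3).val) = 1 := rfl
      omega
  have hdnI' : ∀ i : Fin 4, i ∈ I → dn m i ≠ 1 := by
    intro i hiI hi
    apply hdI' i hiI
    apply Fin.ext
    have h3 : ((1 : Fin 3).val) = 1 := rfl
    rw [h3]
    rcases hm with hm | hm
    · rw [← hm i, hi]
    · have := hm i
      omega
  refine ⟨UU m, ⟨m, hmI.1, hmI.2, rfl⟩, ?_, ?_⟩
  · intro p hp
    refine ⟨e / p.rep i0, fun i hi => ?_⟩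
    have h1 := (hs i (hdnI i hi)).2 p hp
    have h2 : e / p.rep i0 * (dg m i * p.rep i) = (e * e) * (s i * r i p) := by
      rw [hdg i]
      simp only [r]
      ring
    rw [h2, he2, one_mul]
    exact h1
  · rintro C ⟨y, hy1, hy2, rfl⟩ hSy q ⟨a, ha⟩
    obtain ⟨b0, hb0⟩ := hSy hp0
    refine ⟨a * e * (b0 * p0.rep i0), fun i hi => ?_⟩
    have hiI : i ∈ I := hne y hSy i hi
    have h1 := ha i (hdnI' i hiI)
    rw [hdg i] at h1
    have h2 := hb0 i hi
    obtain ⟨hsi, hs2⟩ := hs i hiI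
    have h3 := hs2 p0 hp0
    have hr0 : p0.rep i0 ≠ 0 := hi0S p0 hp0
    have hri : p0.rep i ≠ 0 := hiI p0 hp0
    have hss : s i * s i = 1 := by rcases hsi with h | h <;> rw [h] <;> norm_num
    -- t * dg y i * s i > 0
    have h4 : 0 < s i * (p0.rep i * p0.rep i0) := by
      have h5 : s i * r i p0 * (p0.rep i0 * p0.rep i0) = s i * (p0.rep i * p0.rep i0) := by
        simp only [r]
        field_simp
      rw [← h5]
      exact mul_pos h3 (mul_self_pos.mpr hr0)
    have h6 : 0 < (b0 * (dg y i * p0.rep i)) * (s i * (p0.rep i * p0.rep i0)) := mul_pos h2 h4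
    have h7 : 0 < (b0 * p0.rep i0) * dg y i * s i := by
      have h8 : (b0 * (dg y i * p0.rep i)) * (s i * (p0.rep i * p0.rep i0)) =
          ((b0 * p0.rep i0) * dg y i * s i) * (p0.rep i * p0.rep i) := by ring
      rw [h8] at h6
      exact pos_of_mul_pos_left h6 (mul_self_pos.mpr hri).le
    have h9 : a * e * (b0 * p0.rep i0) * (dg y i * q.rep i) =
        (a * (e * s i * q.rep i)) * ((b0 * p0.rep i0) * dg y i * s i) / (s i * s i) := by
      rw [hss]
      have : (a * (e * s i * q.rep i)) * ((b0 * p0.rep i0) * dg y i * s i) =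
        (a * e * (b0 * p0.rep i0) * (dg y i * q.rep i)) * (s i * s i) := by ring
      rw [this, hss]
      ring
    rw [h9, hss, div_one]
    exact mul_pos h1 h7

end Pool.Agent.Helper156.RP.J30888
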