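import Pool.Agent.Helper156.RP.KK

open scoped Manifold ContDiff Topology RealInnerProductSpace
open Set Topology

noncomputable section

namespace Pool.Agent.Helper156.RP.J30889

open Pool.Agent.Helper156.RP Pool.Agent.Helper156.Nv


theorem UU_contr_idx (m : ℕ) (hm : 1 ≤ m ∧ m ≤ 40) : ∃ i : Fin 4, dn m i ≠ 1 := by
  have h : ∀ m ∈ Finset.Icc 1 40, ∃ i : Fin 4, dn m i ≠ 1 := by decide
  exact h m (Finset.mem_Icc.2 hm)

theorem UU_contr_sq (m : ℕ) (i : Fin 4) (h : dn m i ≠ 1) : dg m i * dg m i = 1 := by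
  have h3 : dn m i < 3 := Nat.mod_lt _ (by norm_num)
  unfold dg
  have : dn m i = 0 ∨ dn m i = 2 := by omega
  rcases this with h | h <;> rw [h] <;> norm_num

theorem UU_contr_mem (m : ℕ) (i0 : Fin 4) (hi0 : dn m i0 ≠ 1) (w : EuclideanSpace ℝ (Fin 3)) :
    RP3.mk (ins i0 w) (ins_ne i0 w) ∈ UU m ↔
      ∀ k : Fin 3, dn m (i0.succAbove k) ≠ 1 →
        0 < dg m i0 * (dg m (i0.succAbove k) * w k) := by
  obtain ⟨b, hb, hrep⟩ := rep_mk (ins_ne i0 w)
  constructor
  · rintro ⟨a, ha⟩ k hk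
    have h1 := ha i0 hi0
    have h2 := ha (i0.succAbove k) hk
    rw [hrep, PiLp.smul_apply, smul_eq_mul, ins_same] at h1
    rw [hrep, PiLp.smul_apply, smul_eq_mul, ins_succAbove] at h2
    have h3 := mul_pos h1 h2
    have h4 : a * (dg m i0 * (b * 1)) * (a * (dg m (i0.succAbove k) * (b * w k))) =
        (a * b) ^ 2 * (dg m i0 * (dg m (i0.succAbove k) * w k)) := by ring
    rw [h4] at h3
    exact pos_of_mul_pos_right h3 (sq_nonneg _)
  · intro h
    refine ⟨dg m i0 / b, fun i hi => ?_⟩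
    rw [hrep, PiLp.smul_apply, smul_eq_mul]
    have h4 : dg m i0 / b * (dg m i * (b * ins i0 w i)) = dg m i0 * (dg m i * ins i0 w i) := by
      field_simp
    rw [h4]
    rcases Fin.eq_self_or_eq_succAbove i0 i with h5 | ⟨k, h5⟩
    · subst h5
      rw [ins_same, mul_one, UU_contr_sq m _ hi]
      exact one_pos
    · subst h5
      rw [ins_succAbove]
      exact h k hi

theorem UU_contr (m : ℕ) (hm : 1 ≤ m ∧ m ≤ 40) : ∃ p : UU m,
    Nonempty (ContinuousMap.Homotopy (ContinuousMap.id (UU m)) (ContinuousMap.const (UU m) p)) := by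
  obtain ⟨i0, hi0⟩ := UU_contr_idx m hm
  have hsrc : ∀ p ∈ UU m, p.rep i0 ≠ 0 := by
    rintro p ⟨a, ha⟩ h0
    have := ha i0 hi0
    rw [h0] at this
    simp at this
  let cf : RP3 → EuclideanSpace ℝ (Fin 3) := fun p =>
    WithLp.toLp 2 (fun k : Fin 3 => p.rep (i0.succAbove k) / p.rep i0)
  have hcf : Continuous fun p : UU m => cf p.1 :=
    (continuousOn_chart i0).comp_continuous continuous_subtype_val (fun p => hsrc p.1 p.2)
  have hmk : Continuous fun w : EuclideanSpace ℝ (Fin 3) => RP3.mk (ins i0 w) (ins_ne i0 w) :=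
    isQuotientMap_mk.continuous.comp ((continuous_ins i0).subtype_mk (ins_ne i0))
  let w0 : EuclideanSpace ℝ (Fin 3) :=
    WithLp.toLp 2 (fun k : Fin 3 => dg m i0 * dg m (i0.succAbove k))
  have hw0 : ∀ k : Fin 3, dn m (i0.succAbove k) ≠ 1 →
        0 < dg m i0 * (dg m (i0.succAbove k) * w0 k) := by
    intro k hk
    have h1 := UU_contr_sq m _ hi0
    have h2 := UU_contr_sq m _ hk
    have h3 : dg m i0 * (dg m (i0.succAbove k) * (dg m i0 * dg m (i0.succAbove k))) =
      (dg m i0 * dg m i0) * (dg m (i0.succAbove k) * dg m (i0.succAbove k)) := by ring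
    change 0 < dg m i0 * (dg m (i0.succAbove k) * (dg m i0 * dg m (i0.succAbove k)))
    rw [h3, h1, h2]
    norm_num
  have hcfV : ∀ p ∈ UU m, ∀ k : Fin 3, dn m (i0.succAbove k) ≠ 1 →
        0 < dg m i0 * (dg m (i0.succAbove k) * cf p k) := by
    intro p hp
    apply (UU_contr_mem m i0 hi0 (cf p)).1
    have h1 := mk_ins_div i0 p (hsrc p hp)
    change RP3.mk (ins i0 (cf p)) _ = p at h1
    rw [h1]
    exact hp
  have hmem : ∀ (t : unitInterval) (p : UU m),
      RP3.mk (ins i0 ((1 - (t : ℝ)) • cf p.1 + (t : ℝ) • w0)) (ins_ne i0 _) ∈ UU m := by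
    intro t p
    rw [UU_contr_mem m i0 hi0]
    intro k hk
    have h1 := hcfV p.1 p.2 k hk
    have h2 := hw0 k hk
    have ht0 : 0 ≤ (t : ℝ) := t.2.1
    have ht1 : (t : ℝ) ≤ 1 := t.2.2
    rw [PiLp.add_apply, PiLp.smul_apply, PiLp.smul_apply, smul_eq_mul, smul_eq_mul]
    have h3 : dg m i0 * (dg m (i0.succAbove k) * ((1 - (t : ℝ)) * cf p.1 k + (t : ℝ) * w0 k)) =
        (1 - (t : ℝ)) * (dg m i0 * (dg m (i0.succAbove k) * cf p.1 k)) +
        (t : ℝ) * (dg m i0 * (dg m (i0.succAbove k) * w0 k)) := by ring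
    rw [h3]
    rcases eq_or_lt_of_le ht0 with h | h
    · rw [← h]
      simpa using h1
    · have e1 := mul_pos h h2
      have e2 := mul_nonneg (sub_nonneg.2 ht1) h1.le
      linarith
  refine ⟨⟨RP3.mk (ins i0 w0) (ins_ne i0 w0), (UU_contr_mem m i0 hi0 w0).2 hw0⟩, ⟨?_⟩⟩
  refine
    { toFun := fun x => ⟨RP3.mk (ins i0 ((1 - (x.1 : ℝ)) • cf x.2.1 + (x.1 : ℝ) • w0))
        (ins_ne i0 _), hmem x.1 x.2⟩
      continuous_toFun := ?_
      map_zero_left := ?_
      map_one_left := ?_ }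
  · refine Continuous.subtype_mk ?_ _
    refine hmk.comp ?_
    have c1 : Continuous fun x : unitInterval × UU m => ((x.1 : ℝ)) :=
      continuous_subtype_val.comp continuous_fst
    have c2 : Continuous fun x : unitInterval × UU m => cf x.2.1 := hcf.comp continuous_snd
    exact ((continuous_const.sub c1).smul c2).add (c1.smul continuous_const)
  · intro p
    apply Subtype.ext
    change RP3.mk (ins i0 ((1 - ((0 : unitInterval) : ℝ)) • cf p.1 +
      ((0 : unitInterval) : ℝ) • w0)) _ = p.1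
    have h1 := mk_ins_div i0 p.1 (hsrc p.1 p.2)
    change RP3.mk (ins i0 (cf p.1)) _ = p.1 at h1
    have h2 : (1 - ((0 : unitInterval) : ℝ)) • cf p.1 + ((0 : unitInterval) : ℝ) • w0 = cf p.1 := by
      simp
    simp only [h2]
    exact h1
  · intro p
    apply Subtype.ext
    change RP3.mk (ins i0 ((1 - ((1 : unitInterval) : ℝ)) • cf p.1 +
      ((1 : unitInterval) : ℝ) • w0)) _ = RP3.mk (ins i0 w0) _
    have h2 : (1 - ((1 : unitInterval) : ℝ)) • cf p.1 + ((1 : unitInterval) : ℝ) • w0 = w0 := by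
      simp
    simp only [h2]

end Pool.Agent.Helper156.RP.J30889
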