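import Pool.Agent.Helper156.RP.KK
import Pool.Agent.Helper156.RP.J30887

open scoped Manifold ContDiff Topology RealInnerProductSpace
open Set Topology

noncomputable section

namespace Pool.Agent.Helper156.RP.J30890

open Pool.Agent.Helper156.RP Pool.Agent.Helper156.Nv Pool.Agent.Helper156.RP.J30887


theorem coh_equiv581 (k : Type) [CommRing k] (C C' : ℕ → Type) [∀ n, AddCommGroup (C n)]
    [∀ n, Module k (C n)] [∀ n, AddCommGroup (C' n)] [∀ n, Module k (C' n)]
    (d : ∀ n, C n →ₗ[k] C (n + 1)) (d' : ∀ n, C' n →ₗ[k] C' (n + 1)) (F : ∀ n, C n ≃ₗ[k] C' n)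
    (h : ∀ n x, d' n (F n x) = F (n + 1) (d n x)) (n : ℕ) :
    Nonempty (Coh k C d n ≃ₗ[k] Coh k C' d' n) := by
  have hk : (LinearMap.ker (d n)).map (F n : C n →ₗ[k] C' n) = LinearMap.ker (d' n) := by
    ext y
    constructor
    · rintro ⟨x, hx, rfl⟩
      have hx' : d n x = 0 := hx
      show d' n (F n x) = 0
      rw [h, hx', map_zero]
    · intro hy
      have hy' : d' n y = 0 := hy
      refine ⟨(F n).symm y, ?_, (F n).apply_symm_apply y⟩
      show d n ((F n).symm y) = 0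
      apply (F (n + 1)).injective
      rw [← h, map_zero, LinearEquiv.apply_symm_apply, hy']
  have hb : ∀ x, F n x ∈ cobound k C' d' n ↔ x ∈ cobound k C d n := by
    cases n with
    | zero =>
      intro x
      simp [cobound]
    | succ n =>
      intro x
      constructor
      · rintro ⟨y, hy⟩
        refine ⟨(F n).symm y, ?_⟩
        apply (F (n + 1)).injective
        rw [← h, LinearEquiv.apply_symm_apply, hy]
      · rintro ⟨y, rfl⟩
        exact ⟨F n y, h n y⟩
  refine ⟨Submodule.Quotient.equiv _ _ (LinearEquiv.ofSubmodules (F n) _ _ hk) ?_⟩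
  ext y
  constructor
  · rintro ⟨x, hx, rfl⟩
    exact (hb x.1).2 hx
  · intro hy
    refine ⟨(LinearEquiv.ofSubmodules (F n) _ _ hk).symm y, ?_, LinearEquiv.apply_symm_apply _ y⟩
    have h1 : F n ((LinearEquiv.ofSubmodules (F n) _ _ hk).symm y : _).1 = y.1 := by
      have := (LinearEquiv.ofSubmodules (F n) _ _ hk).apply_symm_apply y
      exact congrArg Subtype.val this
    refine (hb _).1 ?_
    have hy' : y.1 ∈ cobound k C' d' n := hy
    rw [← h1] at hy'
    exact hy'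

theorem coh_equiv_face581 (k : Type) [CommRing k] {S S' : ℕ → Type}
    (face : ∀ n, Fin (n + 2) → S (n + 1) → S n) (face' : ∀ n, Fin (n + 2) → S' (n + 1) → S' n)
    (e : ∀ n, S n ≃ S' n) (he : ∀ n i x, e n (face n i x) = face' n i (e (n + 1) x)) (n : ℕ) :
    Nonempty (Coh k (fun n => S' n → k) (fun n => altd k face' n) n ≃ₗ[k]
      Coh k (fun n => S n → k) (fun n => altd k face n) n) := by
  refine coh_equiv581 k _ _ _ _ (fun n => LinearEquiv.funCongrLeft k k (e n)) ?_ n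
  intro n f
  funext σ
  show ∑ i : Fin (n + 2), (-1 : k) ^ (i : ℕ) * f (e n (face n i σ)) =
    ∑ i : Fin (n + 2), (-1 : k) ^ (i : ℕ) * f (face' n i (e (n + 1) σ))
  exact Finset.sum_congr rfl fun i _ => by rw [he]

theorem lt40_iff581 (x y : ℕ) (hx : 1 ≤ x ∧ x ≤ 40) (hy : 1 ≤ y ∧ y ≤ 40) :
    lt40 x y = true ↔ UU x < UU y := by
  unfold lt40
  rw [Bool.and_eq_true, bne_iff_ne, ← UU_subset_iff x y hx hy]
  constructor
  · rintro ⟨h1, h2⟩
    exact lt_of_le_of_ne h2 fun h => h1 (UU_inj x y hx hy h)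
  · intro h
    refine ⟨?_, h.le⟩
    rintro rfl
    exact lt_irrefl _ h

/-- codes to chains -/
def codeMap581 (n : ℕ) (c : KK n) : Ch Fam n :=
  ⟨fun i => UU (c.1 i), fun i j hij =>
    (lt40_iff581 _ _ (c.2.1 i) (c.2.1 j)).1 (c.2.2 i j hij),
    fun i => ⟨c.1 i, (c.2.1 i).1, (c.2.1 i).2, rfl⟩⟩

theorem codeMap_bij581 (n : ℕ) : Function.Bijective (codeMap581 n) := by
  constructor
  · intro c c' h
    apply Subtype.ext
    funext i
    have h1 : UU (c.1 i) = UU (c'.1 i) := congrFun (congrArg Subtype.val h) i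
    exact UU_inj _ _ (c.2.1 i) (c'.2.1 i) h1
  · rintro ⟨s, hs, hm⟩
    have hm' := hm
    choose m h1 h2 h3 using hm'
    refine ⟨⟨m, fun i => ⟨h1 i, h2 i⟩, fun i j hij => ?_⟩, ?_⟩
    · rw [lt40_iff581 _ _ ⟨h1 i, h2 i⟩ ⟨h1 j, h2 j⟩, ← h3, ← h3]
      exact hs hij
    · apply Subtype.ext
      funext i
      exact (h3 i).symm

theorem ordCoh_fam (n : ℕ) : Nonempty (OrdCoh (ZMod 2) Fam n ≃ₗ[ZMod 2]
    Coh (ZMod 2) (fun n => KK n → ZMod 2) (fun n => altd (ZMod 2) kface n) n) := by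
  refine coh_equiv_face581 (ZMod 2) kface cface
    (fun n => Equiv.ofBijective (codeMap581 n) (codeMap_bij581 n)) ?_ n
  intro n i x
  exact Subtype.ext rfl

end Pool.Agent.Helper156.RP.J30890
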