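import Pool.Agent.Helper156.RP.KK

open scoped Manifold ContDiff Topology RealInnerProductSpace
open Set Topology

noncomputable section

namespace Pool.Agent.Helper156.RP.J30892

open Pool.Agent.Helper156.RP Pool.Agent.Helper156.Nv


theorem finite_KK (n : ℕ) : Finite (KK n) := by
  refine Finite.of_injective (β := Fin (n + 1) → Fin 41)
    (fun c i => ⟨c.1 i, Nat.lt_succ_of_le (c.2.1 i).2⟩) ?_
  intro c d h
  apply Subtype.ext
  funext i
  exact congrArg Fin.val (congrFun h i)

theorem kd_apply (n : ℕ) (x : KK n → ZMod 2) (c : KK (n + 1)) :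
    altd (ZMod 2) kface n x c = ∑ i : Fin (n + 2), x (kface n i c) := by
  change ∑ i : Fin (n + 2), (-1 : ZMod 2) ^ (i : ℕ) * x (kface n i c) = _
  refine Finset.sum_congr rfl fun i _ => ?_
  have : (-1 : ZMod 2) = 1 := by decide
  rw [this, one_pow, one_mul]

theorem kface_swap (n : ℕ) (j : Fin (n + 3)) (i : Fin (n + 2)) (c : KK (n + 1 + 1)) :
    kface n (i.predAbove j) (kface (n + 1) (j.succAbove i) c) = kface n i (kface (n + 1) j c) := by
  apply Subtype.ext
  funext k
  change c.1 ((j.succAbove i).succAbove ((i.predAbove j).succAbove k)) =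
    c.1 (j.succAbove (i.succAbove k))
  rw [Fin.succAbove_succAbove_succAbove_predAbove j i k]

theorem kd_kd (n : ℕ) (x : KK n → ZMod 2) :
    altd (ZMod 2) kface (n + 1) (altd (ZMod 2) kface n x) = 0 := by
  funext c
  rw [kd_apply]
  simp_rw [kd_apply]
  rw [← Fintype.sum_prod_type' (f := fun (j : Fin (n + 1 + 2)) (i : Fin (n + 2)) =>
    x (kface n i (kface (n + 1) j c)))]
  refine Finset.sum_involution (fun a _ => (a.1.succAbove a.2, a.2.predAbove a.1)) ?_ ?_ ?_ ?_
  · intro a _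
    change x (kface n a.2 (kface (n + 1) a.1 c)) +
      x (kface n (a.2.predAbove a.1) (kface (n + 1) (a.1.succAbove a.2) c)) = 0
    rw [kface_swap]
    exact CharTwo.add_self_eq_zero _
  · intro a _ _ h
    exact Fin.succAbove_ne a.1 a.2 (congrArg Prod.fst h)
  · intro a _
    exact Finset.mem_univ _
  · intro a _
    exact Prod.ext (Fin.succAbove_succAbove_predAbove a.1 a.2)
      (Fin.predAbove_predAbove_succAbove a.1 a.2)

/-- The number of nonzero signs. -/
def wt40 (x : ℕ) : ℕ := ((List.range 4).filter (fun i => dn x i != 1)).length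

theorem wt40_lt : ∀ x ∈ Finset.Icc 1 40, ∀ y ∈ Finset.Icc 1 40, lt40 x y = true →
    wt40 y < wt40 x := by decide +kernel

theorem wt40_bd : ∀ x ∈ Finset.Icc 1 40, 1 ≤ wt40 x ∧ wt40 x ≤ 4 := by decide +kernel

theorem isEmpty_KK (n : ℕ) (hn : 4 ≤ n) : IsEmpty (KK n) := by
  refine ⟨fun c => ?_⟩
  have hm : ∀ i, c.1 i ∈ Finset.Icc 1 40 := fun i => Finset.mem_Icc.2 (c.2.1 i)
  have h : ∀ k : ℕ, ∀ hk : k < n + 1, wt40 (c.1 ⟨k, hk⟩) + k ≤ 4 := by
    intro k
    induction k with
    | zero => intro hk; exact (wt40_bd _ (hm _)).2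
    | succ k ih =>
      intro hk
      have h1 := ih (by omega)
      have h2 := wt40_lt _ (hm ⟨k, by omega⟩) _ (hm ⟨k + 1, hk⟩)
        (c.2.2 ⟨k, by omega⟩ ⟨k + 1, hk⟩ (Fin.mk_lt_mk.2 (Nat.lt_succ_self k)))
      omega
  have h4 := h 4 (by omega)
  have h5 := (wt40_bd _ (hm ⟨4, by omega⟩)).1
  omega

end Pool.Agent.Helper156.RP.J30892
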