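import Pool.Agent.Helper156.RP.KK

open scoped Manifold ContDiff Topology RealInnerProductSpace
open Set Topology

noncomputable section

namespace Pool.Agent.Helper156.RP.J30895

open Pool.Agent.Helper156.RP Pool.Agent.Helper156.Nv


/-- The list of all strict chains of codes. -/
def LL : ℕ → List (List ℕ)
  | 0 => (List.range 40).map fun k => [k + 1]
  | (n + 1) => (List.range 40).flatMap fun k =>
      ((LL n).filter fun l => l.all fun y => lt40 (k + 1) y).map fun l => (k + 1) :: l

theorem mem_LL (n : ℕ) (l : List ℕ) : l ∈ LL n ↔ l.length = n + 1 ∧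
    (∀ x ∈ l, 1 ≤ x ∧ x ≤ 40) ∧ l.Pairwise (fun x y => lt40 x y = true) := by
  induction n generalizing l with
  | zero =>
    rw [LL, List.mem_map]
    constructor
    · rintro ⟨k, hk, rfl⟩
      rw [List.mem_range] at hk
      refine ⟨rfl, ?_, List.pairwise_singleton _ _⟩
      intro x hx
      rw [List.mem_singleton] at hx
      omega
    · rintro ⟨h1, h2, -⟩
      rw [zero_add, List.length_eq_one_iff] at h1
      obtain ⟨a, rfl⟩ := h1
      have := h2 a (List.mem_singleton.2 rfl)
      refine ⟨a - 1, List.mem_range.2 (by omega), ?_⟩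
      congr 1
      omega
  | succ n ih =>
    rw [LL, List.mem_flatMap]
    constructor
    · rintro ⟨k, hk, hl⟩
      rw [List.mem_range] at hk
      rw [List.mem_map] at hl
      obtain ⟨l', hl', rfl⟩ := hl
      rw [List.mem_filter, ih, List.all_eq_true] at hl'
      obtain ⟨⟨h1, h2, h3⟩, h4⟩ := hl'
      refine ⟨by rw [List.length_cons, h1], ?_, List.pairwise_cons.2 ⟨h4, h3⟩⟩
      intro x hx
      rcases List.mem_cons.1 hx with rfl | hx
      · omega
      · exact h2 x hx
    · rintro ⟨h1, h2, h3⟩
      obtain _ | ⟨a, l'⟩ := l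
      · simp at h1
      · have ha := h2 a List.mem_cons_self
        refine ⟨a - 1, List.mem_range.2 (by omega), ?_⟩
        have ha1 : a - 1 + 1 = a := by omega
        rw [ha1, List.mem_map]
        rw [List.pairwise_cons] at h3
        refine ⟨l', ?_, rfl⟩
        rw [List.mem_filter, ih, List.all_eq_true]
        refine ⟨⟨?_, fun x hx => h2 x (List.mem_cons_of_mem _ hx), h3.2⟩, h3.1⟩
        rw [List.length_cons] at h1
        omega

theorem nodup_LL (n : ℕ) : (LL n).Nodup := by
  induction n with
  | zero =>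
    rw [LL]
    refine List.Nodup.map ?_ List.nodup_range
    intro a b hab
    simpa using hab
  | succ n ih =>
    rw [LL, List.nodup_flatMap]
    constructor
    · intro k _
      refine List.Nodup.map ?_ (ih.filter _)
      intro a b hab
      simpa using hab
    · refine List.Pairwise.imp ?_ List.nodup_range
      intro a b hab l hla hlb
      rw [List.mem_map] at hla hlb
      obtain ⟨l1, -, rfl⟩ := hla
      obtain ⟨l2, -, h2⟩ := hlb
      rw [List.cons_eq_cons] at h2
      omega

theorem card_KK (n : ℕ) : Nat.card (KK n) = (LL n).length := by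
  have h1 : Nat.card {l : List ℕ // l ∈ LL n} = (LL n).length := by
    rw [Nat.subtype_card (LL n).toFinset (fun x => List.mem_toFinset),
      List.toFinset_card_of_nodup (nodup_LL n)]
  rw [← h1]
  refine Nat.card_congr (Equiv.ofBijective
    (fun c : KK n => (⟨List.ofFn c.1, (mem_LL n _).2 ⟨List.length_ofFn, ?_, ?_⟩⟩ :
      {l : List ℕ // l ∈ LL n})) ⟨?_, ?_⟩)
  · intro x hx
    rw [List.mem_ofFn] at hx
    obtain ⟨i, rfl⟩ := hx
    exact c.2.1 i
  · rw [List.pairwise_ofFn]
    exact fun i j hij => c.2.2 i j hij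
  · intro c d hcd
    rw [Subtype.mk.injEq] at hcd
    exact Subtype.ext (List.ofFn_injective hcd)
  · rintro ⟨l, hl⟩
    have hl' := (mem_LL n l).1 hl
    obtain ⟨h1, h2, h3⟩ := hl'
    refine ⟨⟨fun i => l.get (Fin.cast h1.symm i), fun i => h2 _ (List.get_mem _ _), ?_⟩, ?_⟩
    · intro i j hij
      exact List.pairwise_iff_get.1 h3 _ _ hij
    · rw [Subtype.mk.injEq]
      refine List.ext_get (by rw [List.length_ofFn, h1]) ?_
      intro m hm1 hm2
      rw [List.get_ofFn]
      rfl

theorem cards : Nat.card (KK 0) = 40 ∧ Nat.card (KK 1) = 232 ∧ Nat.card (KK 2) = 384 ∧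
    Nat.card (KK 3) = 192 := by
  rw [card_KK, card_KK, card_KK, card_KK]
  refine ⟨?_, ?_, ?_, ?_⟩
  · decide +kernel
  · decide +kernel
  · decide +kernel
  · decide +kernel

end Pool.Agent.Helper156.RP.J30895
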