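import Pool.Agent.Helper156.RP.KK

open scoped Manifold ContDiff Topology RealInnerProductSpace
open Set Topology

noncomputable section

namespace Pool.Agent.Helper156.RP.J30891

open Pool.Agent.Helper156.RP Pool.Agent.Helper156.Nv


theorem tri_rank {A B : Type} [Finite A] [Finite B] [DecidableEq A]
    (T : (A → ZMod 2) →ₗ[ZMod 2] (B → ZMod 2)) (m : ℕ) (a : Fin m → A) (b : Fin m → B)
    (h1 : ∀ i, T (Pi.single (a i) 1) (b i) = 1)
    (h2 : ∀ i j, i < j → T (Pi.single (a i) 1) (b j) = 0) :
    m ≤ Module.finrank (ZMod 2) (LinearMap.range T) := by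
  classical
  have hLI : LinearIndependent (ZMod 2) (fun i : Fin m => T (Pi.single (a i) 1)) := by
    rw [Fintype.linearIndependent_iff]
    intro g hg
    by_contra hne
    push Not at hne
    obtain ⟨i0, hi0⟩ := hne
    let s : Finset (Fin m) := Finset.univ.filter (fun i => g i ≠ 0)
    have hs : s.Nonempty := ⟨i0, by simp [s, hi0]⟩
    obtain ⟨j, hjs, hjmax⟩ : ∃ j ∈ s, ∀ i ∈ s, i ≤ j :=
      ⟨s.max' hs, s.max'_mem hs, fun i hi => s.le_max' i hi⟩
    have hj : g j ≠ 0 := by
      simpa [s] using hjs
    have hgt : ∀ i, j < i → g i = 0 := by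
      intro i hij
      by_contra hgi
      have : i ≤ j := hjmax i (by simp [s, hgi])
      exact absurd hij (not_lt.mpr this)
    have h := congrFun hg (b j)
    simp only [Finset.sum_apply, Pi.smul_apply, Pi.zero_apply, smul_eq_mul] at h
    rw [Finset.sum_eq_single j] at h
    · rw [h1 j, mul_one] at h; exact hj h
    · intro i _ hij
      rcases lt_or_gt_of_ne hij with hlt | hgt'
      · rw [h2 i j hlt, mul_zero]
      · rw [hgt i hgt', zero_mul]
    · intro hh; exact absurd (Finset.mem_univ j) hh
  haveI := Fintype.ofFinite B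
  haveI := Fintype.ofFinite A
  have hspan : Submodule.span (ZMod 2) (Set.range (fun i : Fin m => T (Pi.single (a i) 1))) ≤
      LinearMap.range T := by
    rw [Submodule.span_le]; rintro _ ⟨i, rfl⟩; exact ⟨_, rfl⟩
  have hfr := finrank_span_eq_card hLI
  rw [Fintype.card_fin] at hfr
  calc m = _ := hfr.symm
    _ ≤ _ := Submodule.finrank_mono hspan

end Pool.Agent.Helper156.RP.J30891
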