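import Pool.Agent.Helper156.RP.KK
import Pool.Agent.Helper156.RP.J30891
import Pool.Agent.Helper156.RP.J30892

open scoped Manifold ContDiff Topology RealInnerProductSpace
open Set Topology

noncomputable section

namespace Pool.Agent.Helper156.RP.J30908

open Pool.Agent.Helper156.RP Pool.Agent.Helper156.Nv Pool.Agent.Helper156.RP.J30891 Pool.Agent.Helper156.RP.J30892


theorem w908_isCh (n : ℕ) (l : List ℕ) : isCh n l = true ↔ l.length = n + 1 ∧
    (∀ x ∈ l, 1 ≤ x ∧ x ≤ 40) ∧
    ∀ j < n + 1, ∀ i < j, lt40 (l.getD i 0) (l.getD j 0) = true := by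
  unfold isCh
  rw [Bool.and_eq_true, Bool.and_eq_true, beq_iff_eq, List.all_eq_true, List.all_eq_true, and_assoc]
  refine and_congr Iff.rfl (and_congr ?_ ?_)
  · refine forall_congr' fun x => imp_congr Iff.rfl ?_
    rw [Bool.and_eq_true, Nat.ble_eq, Nat.ble_eq]
  · constructor
    · intro h j hj i hi
      have h1 := h j (List.mem_range.2 hj)
      rw [List.all_eq_true] at h1
      exact h1 i (List.mem_range.2 hi)
    · intro h j hj
      rw [List.all_eq_true]
      intro i hi
      exact h j (List.mem_range.1 hj) i (List.mem_range.1 hi)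

theorem w908_isFace (a b : List ℕ) : isFace a b = true ↔ ∃ i < b.length, b.eraseIdx i = a := by
  unfold isFace
  rw [List.any_eq_true]
  constructor
  · rintro ⟨i, hi, h⟩
    exact ⟨i, List.mem_range.1 hi, beq_iff_eq.1 h⟩
  · rintro ⟨i, hi, h⟩
    exact ⟨i, List.mem_range.2 hi, beq_iff_eq.2 h⟩

/-- the chain of a list -/
def w908_kk (n : ℕ) (l : List ℕ) (h : isCh n l = true) : KK n :=
  ⟨fun i => l.getD i.val 0, fun i => by
    obtain ⟨h1, h2, _⟩ := (w908_isCh n l).1 h
    have hi : i.val < l.length := by rw [h1]; exact i.2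
    apply h2
    show l.getD i.val 0 ∈ l
    rw [List.getD_eq_getElem _ _ hi]
    exact List.getElem_mem hi, fun i j hij => by
    obtain ⟨_, _, h3⟩ := (w908_isCh n l).1 h
    exact h3 j.val j.2 i.val hij⟩

theorem w908_erase (b : List ℕ) (r j : ℕ) :
    (b.eraseIdx r).getD j 0 = if j < r then b.getD j 0 else b.getD (j + 1) 0 := by
  rw [List.getD_eq_getElem?_getD, List.getElem?_eraseIdx]
  split_ifs with h
  · rw [List.getD_eq_getElem?_getD]
  · rw [List.getD_eq_getElem?_getD]

theorem w908_kface (n : ℕ) (b : List ℕ) (hb : isCh (n + 1) b = true) (r : Fin (n + 2))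
    (j : Fin (n + 1)) : (kface n r (w908_kk (n + 1) b hb)).1 j = (b.eraseIdx r.val).getD j.val 0 := by
  rw [w908_erase]
  show b.getD (r.succAbove j).val 0 = _
  unfold Fin.succAbove
  by_cases h : j.castSucc < r
  · have h' : j.val < r.val := h
    rw [if_pos h, if_pos h']
    rfl
  · have h' : ¬ j.val < r.val := h
    rw [if_neg h, if_neg h']
    rfl

theorem w908_face (n : ℕ) (a b : List ℕ) (ha : isCh n a = true) (hb : isCh (n + 1) b = true)
    (r : Fin (n + 2)) :
    kface n r (w908_kk (n + 1) b hb) = w908_kk n a ha ↔ b.eraseIdx r.val = a := by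
  have hal := ((w908_isCh n a).1 ha).1
  have hbl := ((w908_isCh (n + 1) b).1 hb).1
  have hr : r.val < b.length := by rw [hbl]; exact r.2
  have hel : (b.eraseIdx r.val).length = n + 1 := by
    rw [List.length_eraseIdx_of_lt hr, hbl]
    rfl
  constructor
  · intro h
    apply List.ext_getElem (by rw [hel, hal])
    intro j hj1 hj2
    have hj : j < n + 1 := by rw [← hal]; exact hj2
    have h1 : (kface n r (w908_kk (n + 1) b hb)).1 ⟨j, hj⟩ = (w908_kk n a ha).1 ⟨j, hj⟩ := by
      rw [h]
    rw [w908_kface] at h1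
    have h2 : (b.eraseIdx r.val).getD j 0 = a.getD j 0 := h1
    rw [List.getD_eq_getElem _ _ hj1, List.getD_eq_getElem _ _ hj2] at h2
    exact h2
  · intro h
    apply Subtype.ext
    funext j
    rw [w908_kface, h]
    rfl

theorem w908_inj (n : ℕ) (c : KK n) : Function.Injective c.1 := by
  have hne : ∀ i j, i < j → c.1 i ≠ c.1 j := by
    intro i j hij h
    have h1 := c.2.2 i j hij
    unfold lt40 at h1
    rw [h] at h1
    simp at h1
  intro i j h
  rcases lt_trichotomy i j with h1 | h1 | h1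
  · exact absurd h (hne i j h1)
  · exact h1
  · exact absurd h.symm (hne j i h1)

theorem w908_kinj (n : ℕ) (c : KK (n + 1)) (r s : Fin (n + 2)) (h : kface n r c = kface n s c) :
    r = s := by
  apply Fin.succAbove_left_injective
  funext j
  apply w908_inj (n + 1) c
  have h1 : (kface n r c).1 j = (kface n s c).1 j := by rw [h]
  exact h1

theorem w908_zero (n : ℕ) (a b : List ℕ) (ha : isCh n a = true) (hb : isCh (n + 1) b = true)
    (h : isFace a b = false) :
    altd (ZMod 2) kface n (Pi.single (w908_kk n a ha) 1) (w908_kk (n + 1) b hb) = 0 := by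
  show ∑ i : Fin (n + 2), (-1 : ZMod 2) ^ (i : ℕ) *
    (Pi.single (w908_kk n a ha) 1 : KK n → ZMod 2) (kface n i (w908_kk (n + 1) b hb)) = 0
  refine Finset.sum_eq_zero fun r _ => ?_
  have hne : kface n r (w908_kk (n + 1) b hb) ≠ w908_kk n a ha := by
    intro hk
    have h1 := (w908_face n a b ha hb r).1 hk
    have h2 : isFace a b = true := (w908_isFace a b).2 ⟨r.val, by
      rw [((w908_isCh (n + 1) b).1 hb).1]
      exact r.2, h1⟩
    rw [h] at h2
    exact Bool.noConfusion h2
  rw [Pi.single_eq_of_ne hne, mul_zero]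

theorem w908_one (n : ℕ) (a b : List ℕ) (ha : isCh n a = true) (hb : isCh (n + 1) b = true)
    (h : isFace a b = true) :
    altd (ZMod 2) kface n (Pi.single (w908_kk n a ha) 1) (w908_kk (n + 1) b hb) = 1 := by
  obtain ⟨r, hr, he⟩ := (w908_isFace a b).1 h
  have hr' : r < n + 2 := by
    rw [((w908_isCh (n + 1) b).1 hb).1] at hr
    exact hr
  have hk := (w908_face n a b ha hb ⟨r, hr'⟩).2 he
  show ∑ i : Fin (n + 2), (-1 : ZMod 2) ^ (i : ℕ) *
    (Pi.single (w908_kk n a ha) 1 : KK n → ZMod 2) (kface n i (w908_kk (n + 1) b hb)) = 1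
  rw [Finset.sum_eq_single (⟨r, hr'⟩ : Fin (n + 2))]
  · rw [hk, Pi.single_eq_same, mul_one]
    have e : (-1 : ZMod 2) = 1 := by decide
    rw [e, one_pow]
  · intro s _ hs
    have hne : kface n s (w908_kk (n + 1) b hb) ≠ w908_kk n a ha := by
      intro hk'
      exact hs (w908_kinj n _ s ⟨r, hr'⟩ (hk'.trans hk.symm))
    rw [Pi.single_eq_of_ne hne, mul_zero]
  · intro hns
    exact absurd (Finset.mem_univ _) hns

theorem w908_cert (n : ℕ) (L : List (List ℕ × List ℕ)) (hL : checkCert n L = true) :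
    (∀ q ∈ L, isCh n q.1 = true ∧ isCh (n + 1) q.2 = true ∧ isFace q.1 q.2 = true) ∧
    L.Pairwise (fun q r => isFace q.1 r.2 = false) := by
  induction L with
  | nil => exact ⟨fun q hq => absurd hq List.not_mem_nil, List.Pairwise.nil⟩
  | cons q t ih =>
    unfold checkCert at hL
    rw [Bool.and_eq_true, Bool.and_eq_true, Bool.and_eq_true, Bool.and_eq_true,
      List.all_eq_true] at hL
    obtain ⟨⟨⟨⟨h1, h2⟩, h3⟩, h4⟩, h5⟩ := hL
    obtain ⟨i1, i2⟩ := ih h5
    refine ⟨?_, ?_⟩
    · intro r hr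
      rcases List.mem_cons.1 hr with rfl | hr
      · exact ⟨h1, h2, h3⟩
      · exact i1 r hr
    · rw [List.pairwise_cons]
      refine ⟨fun r hr => ?_, i2⟩
      have := h4 r hr
      simpa using this

theorem rank_of_cert (n : ℕ) (L : List (List ℕ × List ℕ)) (hL : checkCert n L = true) :
    L.length ≤ rk n := by
  obtain ⟨h1, h2⟩ := w908_cert n L hL
  rw [List.pairwise_iff_getElem] at h2
  have := finite_KK n
  have := finite_KK (n + 1)
  have hA : ∀ i : Fin L.length, isCh n (L[i.val]).1 = true := fun i =>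
    (h1 _ (List.getElem_mem i.2)).1
  have hB : ∀ i : Fin L.length, isCh (n + 1) (L[i.val]).2 = true := fun i =>
    (h1 _ (List.getElem_mem i.2)).2.1
  exact tri_rank (altd (ZMod 2) kface n) L.length (fun i => w908_kk n (L[i.val]).1 (hA i))
    (fun i => w908_kk (n + 1) (L[i.val]).2 (hB i))
    (fun i => w908_one n _ _ (hA i) (hB i) (h1 _ (List.getElem_mem i.2)).2.2)
    (fun i j hij => w908_zero n _ _ (hA i) (hB j) (h2 i.val j.val i.2 j.2 hij))

end Pool.Agent.Helper156.RP.J30908
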