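import Pool.Agent.Helper156.RP.KK
import Pool.Agent.Helper156.RP.J30892

open scoped Manifold ContDiff Topology RealInnerProductSpace
open Set Topology

noncomputable section

namespace Pool.Agent.Helper156.RP.J30910

open Pool.Agent.Helper156.RP Pool.Agent.Helper156.Nv Pool.Agent.Helper156.RP.J30892


theorem fin_quot_add {V : Type} [AddCommGroup V] [Module (ZMod 2) V] [Module.Finite (ZMod 2) V]
    (K B : Submodule (ZMod 2) V) (h : B ≤ K) :
    Module.finrank (ZMod 2) (K ⧸ B.comap K.subtype) + Module.finrank (ZMod 2) B =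
      Module.finrank (ZMod 2) K := by
  rw [← Submodule.finrank_quotient_add_finrank (B.comap K.subtype)]
  congr 1
  exact (LinearEquiv.finrank_eq (Submodule.comapSubtypeEquivOfLe h)).symm

theorem bk_add (n : ℕ) (h : cobound (ZMod 2) (fun n => KK n → ZMod 2)
      (fun n => altd (ZMod 2) kface n) n ≤ LinearMap.ker (altd (ZMod 2) kface n)) :
    bk n + rk n + Module.finrank (ZMod 2) (cobound (ZMod 2) (fun n => KK n → ZMod 2)
      (fun n => altd (ZMod 2) kface n) n) = Nat.card (KK n) := by
  have : Finite (KK n) := finite_KK n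
  have : Fintype (KK n) := Fintype.ofFinite _
  have h1 := fin_quot_add (LinearMap.ker (altd (ZMod 2) kface n))
    (cobound (ZMod 2) (fun n => KK n → ZMod 2) (fun n => altd (ZMod 2) kface n) n) h
  have h2 := LinearMap.finrank_range_add_finrank_ker (altd (ZMod 2) kface n)
  rw [Module.finrank_fintype_fun_eq_card, ← Nat.card_eq_fintype_card] at h2
  have h3 : bk n = Module.finrank (ZMod 2) (LinearMap.ker (altd (ZMod 2) kface n) ⧸
    (cobound (ZMod 2) (fun n => KK n → ZMod 2) (fun n => altd (ZMod 2) kface n) n).comap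
      (LinearMap.ker (altd (ZMod 2) kface n)).subtype) := rfl
  have h4 : rk n = Module.finrank (ZMod 2) (LinearMap.range (altd (ZMod 2) kface n)) := rfl
  rw [h3, h4]
  omega

theorem deg_zero : bk 0 + rk 0 = Nat.card (KK 0) := by
  have h := bk_add 0 bot_le
  have h1 : Module.finrank (ZMod 2) (cobound (ZMod 2) (fun n => KK n → ZMod 2)
      (fun n => altd (ZMod 2) kface n) 0) = 0 :=
    finrank_bot (ZMod 2) (KK 0 → ZMod 2)
  omega

theorem deg_succ (n : ℕ) : bk (n + 1) + rk (n + 1) + rk n = Nat.card (KK (n + 1)) := by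
  refine bk_add (n + 1) ?_
  rintro _ ⟨x, rfl⟩
  exact kd_kd n x

end Pool.Agent.Helper156.RP.J30910
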