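import Pool.Agent.Helper156.RP.KK
import Pool.Agent.Helper156.RP.J30892

open scoped Manifold ContDiff Topology RealInnerProductSpace
open Set Topology

noncomputable section

namespace Pool.Agent.Helper156.RP.J30915

open Pool.Agent.Helper156.RP Pool.Agent.Helper156.Nv Pool.Agent.Helper156.RP.J30892


theorem one_le_of_ne (n : ℕ) (F : LinearMap.ker (altd (ZMod 2) kface n))
    (hF : F.1 ∉ cobound (ZMod 2) (fun n => KK n → ZMod 2) (fun n => altd (ZMod 2) kface n) n) :
    1 ≤ bk n := by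
  classical
  haveI : Finite (KK n) := finite_KK n
  have hne : (Submodule.Quotient.mk F : Coh (ZMod 2) (fun n => KK n → ZMod 2)
      (fun n => altd (ZMod 2) kface n) n) ≠ 0 := by
    intro h
    rw [Submodule.Quotient.mk_eq_zero] at h
    exact hF h
  haveI : Nontrivial (Coh (ZMod 2) (fun n => KK n → ZMod 2)
      (fun n => altd (ZMod 2) kface n) n) := ⟨_, _, hne⟩
  have : 0 < bk n := by
    unfold bk
    exact Module.finrank_pos
  exact this

theorem one_le_bk_succ (m : ℕ) (f : KK (m + 1) → ZMod 2)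
    (hf : altd (ZMod 2) kface (m + 1) f = 0) (z : Finset (KK (m + 1))) (h1 : ∑ c ∈ z, f c = 1)
    (hz : ∀ g : KK m → ZMod 2, ∑ c ∈ z, altd (ZMod 2) kface m g c = 0) : 1 ≤ bk (m + 1) := by
  classical
  refine one_le_of_ne (m + 1) ⟨f, hf⟩ ?_
  rintro ⟨g, hg⟩
  have h2 := hz g
  have h3 : ∑ c ∈ z, altd (ZMod 2) kface m g c = ∑ c ∈ z, f c :=
    Finset.sum_congr rfl fun c _ => congrFun hg c
  rw [h3, h1] at h2
  exact one_ne_zero h2

theorem one_le_bk_zero : 1 ≤ bk 0 := by
  classical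
  have h0 : altd (ZMod 2) kface 0 (fun _ => (1 : ZMod 2)) = 0 := by
    funext c
    simp [altd, Fin.sum_univ_two]
    decide
  refine one_le_of_ne 0 ⟨fun _ => 1, h0⟩ ?_
  intro h
  have h1 : (fun _ => (1 : ZMod 2) : KK 0 → ZMod 2) = 0 := h
  let c : KK 0 := ⟨fun _ => 1, fun _ => ⟨le_rfl, by norm_num⟩, fun i j hij => by
    have h1 := i.isLt
    have h2 := j.isLt
    have h3 : i.1 < j.1 := hij
    omega⟩
  have h2 := congrFun h1 c
  exact one_ne_zero h2

end Pool.Agent.Helper156.RP.J30915
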