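import Pool.Agent.Helper156.RP.KK
import Pool.Agent.Helper156.RP.J30915

open scoped Manifold ContDiff Topology RealInnerProductSpace
open Set Topology

noncomputable section

namespace Pool.Agent.Helper156.RP.J30924

open Pool.Agent.Helper156.RP Pool.Agent.Helper156.Nv Pool.Agent.Helper156.RP.J30915


/-- `y` agrees with `x` directly. -/
def agr (x y : ℕ) : Bool := (List.range 4).all (fun i => dn y i == 1 || dn y i == dn x i)

/-- the check of the cocycle condition -/
def agrChk : Bool :=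
  (List.range 40).all fun x => (List.range 40).all fun y => !lt40 (x + 1) (y + 1) ||
    (List.range 40).all fun z => !lt40 (y + 1) (z + 1) || !lt40 (x + 1) (z + 1) ||
      ((agr (x + 1) (y + 1)).xor ((agr (y + 1) (z + 1)).xor (agr (x + 1) (z + 1))))

theorem agrChk_true : agrChk = true := by decide +kernel

theorem agr_coc (x y z : ℕ) (hx : 1 ≤ x ∧ x ≤ 40) (hy : 1 ≤ y ∧ y ≤ 40) (hz : 1 ≤ z ∧ z ≤ 40)
    (h1 : lt40 x y = true) (h2 : lt40 y z = true) (h3 : lt40 x z = true) :
    ((agr x y).xor ((agr y z).xor (agr x z))) = true := by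
  have h := agrChk_true
  unfold agrChk at h
  rw [List.all_eq_true] at h
  have ha := h (x - 1) (List.mem_range.2 (by omega))
  rw [List.all_eq_true] at ha
  have hb := ha (y - 1) (List.mem_range.2 (by omega))
  rw [Nat.sub_add_cancel hx.1, Nat.sub_add_cancel hy.1, h1, Bool.not_true, Bool.false_or,
    List.all_eq_true] at hb
  have hc := hb (z - 1) (List.mem_range.2 (by omega))
  rw [Nat.sub_add_cancel hz.1, h2, h3, Bool.not_true, Bool.false_or, Bool.false_or] at hc
  exact hc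

/-- the weight of an edge -/
def ww (x y : ℕ) : ZMod 2 := if agr x y = true then 0 else 1

theorem ww_coc (x y z : ℕ) (hx : 1 ≤ x ∧ x ≤ 40) (hy : 1 ≤ y ∧ y ≤ 40) (hz : 1 ≤ z ∧ z ≤ 40)
    (h1 : lt40 x y = true) (h2 : lt40 y z = true) (h3 : lt40 x z = true) :
    ww y z + ww x z + ww x y = 0 := by
  have h := agr_coc x y z hx hy hz h1 h2 h3
  unfold ww
  cases ha : agr x y <;> cases hb : agr y z <;> cases hc : agr x z <;>
    rw [ha, hb, hc] at h <;> first | exact absurd h (by decide) | decide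

/-- the cocycle -/
def fcoc : KK 1 → ZMod 2 := fun c => ww (c.1 0) (c.1 1)

theorem fcoc_coc : altd (ZMod 2) kface 1 fcoc = 0 := by
  funext σ
  change ∑ i : Fin 3, (-1 : ZMod 2) ^ (i : ℕ) * fcoc (kface 1 i σ) = 0
  rw [Fin.sum_univ_three]
  have h := ww_coc (σ.1 0) (σ.1 1) (σ.1 2) (σ.2.1 0) (σ.2.1 1) (σ.2.1 2)
    (σ.2.2 0 1 (by decide)) (σ.2.2 1 2 (by decide)) (σ.2.2 0 2 (by decide))
  have e0 : fcoc (kface 1 0 σ) = ww (σ.1 1) (σ.1 2) := rfl
  have e1 : fcoc (kface 1 1 σ) = ww (σ.1 0) (σ.1 2) := rfl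
  have e2 : fcoc (kface 1 2 σ) = ww (σ.1 0) (σ.1 1) := rfl
  rw [e0, e1, e2]
  have hm : (-1 : ZMod 2) = 1 := by decide
  rw [hm, one_pow, one_pow, one_pow, one_mul, one_mul, one_mul]
  exact h

def ed1 : KK 1 := ⟨![4, 1], by decide, by decide⟩
def ed2 : KK 1 := ⟨![4, 3], by decide, by decide⟩
def ed3 : KK 1 := ⟨![2, 3], by decide, by decide⟩
def ed4 : KK 1 := ⟨![2, 1], by decide, by decide⟩

theorem one_le_bk_one : 1 ≤ bk 1 := by
  have n1 : ed1 ∉ ({ed2, ed3, ed4} : Finset (KK 1)) := by decide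
  have n2 : ed2 ∉ ({ed3, ed4} : Finset (KK 1)) := by decide
  have n3 : ed3 ∉ ({ed4} : Finset (KK 1)) := by decide
  refine one_le_bk_succ 0 fcoc fcoc_coc {ed1, ed2, ed3, ed4} ?_ ?_
  · rw [Finset.sum_insert n1, Finset.sum_insert n2, Finset.sum_insert n3, Finset.sum_singleton]
    decide
  · intro g
    rw [Finset.sum_insert n1, Finset.sum_insert n2, Finset.sum_insert n3, Finset.sum_singleton]
    have hh : ∀ c : KK 1, altd (ZMod 2) kface 0 g c =
        g (kface 0 0 c) + g (kface 0 1 c) := by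
      intro c
      change ∑ i : Fin 2, (-1 : ZMod 2) ^ (i : ℕ) * g (kface 0 i c) = _
      rw [Fin.sum_univ_two]
      have hm : (-1 : ZMod 2) = 1 := by decide
      rw [hm, one_pow, one_pow, one_mul, one_mul]
    rw [hh, hh, hh, hh]
    have a1 : kface 0 0 ed1 = kface 0 0 ed4 := by decide
    have a2 : kface 0 1 ed1 = kface 0 1 ed2 := by decide
    have a3 : kface 0 0 ed2 = kface 0 0 ed3 := by decide
    have a4 : kface 0 1 ed3 = kface 0 1 ed4 := by decide
    rw [a1, a2, a3, a4]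
    have h2 : ∀ u : ZMod 2, u + u = 0 := by decide
    linear_combination h2 (g (kface 0 0 ed4)) + h2 (g (kface 0 1 ed2)) +
      h2 (g (kface 0 0 ed3)) + h2 (g (kface 0 1 ed4))

end Pool.Agent.Helper156.RP.J30924
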