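import Pool.Agent.Helper156.RP.KK
import Pool.Agent.Helper156.RP.J30915

open scoped Manifold ContDiff Topology RealInnerProductSpace
open Set Topology

noncomputable section

namespace Pool.Agent.Helper156.RP.J30925

open Pool.Agent.Helper156.RP Pool.Agent.Helper156.Nv Pool.Agent.Helper156.RP.J30915


/-- `y` does not agree directly with `x`. -/
def wb (x y : ℕ) : Bool := !(List.range 4).all (fun i => dn y i == 1 || dn y i == dn x i)

def wz (x y : ℕ) : ZMod 2 := if wb x y then 1 else 0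

theorem wb_check : ((List.range 41).all fun x => (List.range 41).all fun y =>
    !(Nat.ble 1 x && Nat.ble 1 y && lt40 x y) || (List.range 41).all fun z =>
      !(Nat.ble 1 z && lt40 y z) || (xor (wb x y) (wb y z) == wb x z)) = true := by
  decide +kernel

theorem wz_add (x y z : ℕ) (hx : 1 ≤ x ∧ x ≤ 40) (hy : 1 ≤ y ∧ y ≤ 40) (hz : 1 ≤ z ∧ z ≤ 40)
    (hxy : lt40 x y = true) (hyz : lt40 y z = true) : wz x z = wz x y + wz y z := by
  have h := wb_check
  rw [List.all_eq_true] at h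
  have h1 := h x (List.mem_range.2 (by omega))
  rw [List.all_eq_true] at h1
  have h2 := h1 y (List.mem_range.2 (by omega))
  have hbx : Nat.ble 1 x = true := Nat.ble_eq_true_of_le hx.1
  have hby : Nat.ble 1 y = true := Nat.ble_eq_true_of_le hy.1
  have hbz : Nat.ble 1 z = true := Nat.ble_eq_true_of_le hz.1
  rw [hbx, hby, hxy] at h2
  have h3 : ((List.range 41).all fun z =>
      !(Nat.ble 1 z && lt40 y z) || (xor (wb x y) (wb y z) == wb x z)) = true := by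
    simpa using h2
  rw [List.all_eq_true] at h3
  have h4 := h3 z (List.mem_range.2 (by omega))
  rw [hbz, hyz] at h4
  have h5 : xor (wb x y) (wb y z) = wb x z := by simpa using h4
  unfold wz
  rw [← h5]
  cases wb x y <;> cases wb y z <;> decide

/-- The 24 chains. -/
def TT : Fin 24 → ℕ × ℕ × ℕ := ![(5, 4, 1), (5, 4, 3), (5, 6, 3), (5, 6, 9), (5, 8, 1), (5, 8, 9),
  (7, 2, 1), (7, 2, 3), (7, 6, 3), (7, 6, 9), (7, 10, 1), (7, 10, 9), (11, 2, 1), (11, 2, 3),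
  (11, 8, 1), (11, 8, 9), (11, 12, 3), (11, 12, 9), (13, 4, 1), (13, 4, 3), (13, 10, 1),
  (13, 10, 9), (13, 12, 3), (13, 12, 9)]

theorem TT_ok : ∀ i : Fin 24, (1 ≤ (TT i).1 ∧ (TT i).1 ≤ 40) ∧ (1 ≤ (TT i).2.1 ∧ (TT i).2.1 ≤ 40) ∧
    (1 ≤ (TT i).2.2 ∧ (TT i).2.2 ≤ 40) ∧ lt40 (TT i).1 (TT i).2.1 = true ∧
    lt40 (TT i).1 (TT i).2.2 = true ∧ lt40 (TT i).2.1 (TT i).2.2 = true := by
  decide +kernel

def tch (i : Fin 24) : KK 2 := ⟨![(TT i).1, (TT i).2.1, (TT i).2.2], by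
  obtain ⟨h1, h2, h3, _⟩ := TT_ok i
  intro j
  fin_cases j
  · exact h1
  · exact h2
  · exact h3, by
  obtain ⟨_, _, _, h1, h2, h3⟩ := TT_ok i
  intro j k hjk
  fin_cases j <;> fin_cases k <;> first | exact absurd hjk (by decide) | skip
  · exact h1
  · exact h2
  · exact h3⟩

theorem TT_inj : ∀ i j : Fin 24, TT i = TT j → i = j := by
  decide +kernel

theorem tch_inj : Function.Injective tch := by
  intro i j h
  apply TT_inj
  have h0 : ∀ k, (tch i).1 k = (tch j).1 k := fun k => by rw [h]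
  have e0 : (TT i).1 = (TT j).1 := h0 0
  have e1 : (TT i).2.1 = (TT j).2.1 := h0 1
  have e2 : (TT i).2.2 = (TT j).2.2 := h0 2
  exact Prod.ext e0 (Prod.ext e1 e2)

def fc2 (c : KK 2) : ZMod 2 := wz (c.1 0) (c.1 1) * wz (c.1 1) (c.1 2)

theorem fc2_cocycle : altd (ZMod 2) kface 2 fc2 = 0 := by
  funext c
  show ∑ i : Fin 4, (-1 : ZMod 2) ^ (i : ℕ) * fc2 (kface 2 i c) = 0
  rw [Fin.sum_univ_four]
  have e0 : fc2 (kface 2 0 c) = wz (c.1 1) (c.1 2) * wz (c.1 2) (c.1 3) := rfl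
  have e1 : fc2 (kface 2 1 c) = wz (c.1 0) (c.1 2) * wz (c.1 2) (c.1 3) := rfl
  have e2 : fc2 (kface 2 2 c) = wz (c.1 0) (c.1 1) * wz (c.1 1) (c.1 3) := rfl
  have e3 : fc2 (kface 2 3 c) = wz (c.1 0) (c.1 1) * wz (c.1 1) (c.1 2) := rfl
  rw [e0, e1, e2, e3, wz_add (c.1 0) (c.1 1) (c.1 2) (c.2.1 0) (c.2.1 1) (c.2.1 2)
    (c.2.2 0 1 (by decide)) (c.2.2 1 2 (by decide)),
    wz_add (c.1 1) (c.1 2) (c.1 3) (c.2.1 1) (c.2.1 2) (c.2.1 3)
    (c.2.2 1 2 (by decide)) (c.2.2 2 3 (by decide))]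
  show (-1 : ZMod 2) ^ 0 * _ + (-1 : ZMod 2) ^ 1 * _ + (-1 : ZMod 2) ^ 2 * _ +
    (-1 : ZMod 2) ^ 3 * _ = 0
  ring

theorem fc2_sum : ∑ i : Fin 24, fc2 (tch i) = 1 := by
  show ∑ i : Fin 24, wz (TT i).1 (TT i).2.1 * wz (TT i).2.1 (TT i).2.2 = 1
  decide +kernel

def PL : List (ℕ × ℕ) :=
  (List.ofFn fun i : Fin 24 => ((TT i).2.1, (TT i).2.2)) ++
  (List.ofFn fun i : Fin 24 => ((TT i).1, (TT i).2.2)) ++
  (List.ofFn fun i : Fin 24 => ((TT i).1, (TT i).2.1))

theorem PL_perm : PL.Perm (PL.dedup ++ PL.dedup) := by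
  decide +kernel

open Classical in
/-- extension of `g` to pairs -/
def GG (g : KK 1 → ZMod 2) (p : ℕ × ℕ) : ZMod 2 :=
  if h : (1 ≤ p.1 ∧ p.1 ≤ 40) ∧ (1 ≤ p.2 ∧ p.2 ≤ 40) ∧ lt40 p.1 p.2 = true then
    g ⟨![p.1, p.2], by
      intro j
      fin_cases j
      · exact h.1
      · exact h.2.1, by
      intro j k hjk
      fin_cases j <;> fin_cases k <;> first | exact absurd hjk (by decide) | exact h.2.2⟩
  else 0

theorem GG_eq (g : KK 1 → ZMod 2) (c : KK 1) : g c = GG g (c.1 0, c.1 1) := by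
  unfold GG
  rw [dif_pos ⟨c.2.1 0, c.2.1 1, c.2.2 0 1 (by decide)⟩]
  congr 1
  apply Subtype.ext
  funext j
  fin_cases j <;> rfl

theorem one_le_bk_two : 1 ≤ bk 2 := by
  refine one_le_bk_succ 1 fc2 fc2_cocycle (Finset.univ.map ⟨tch, tch_inj⟩) ?_ ?_
  · rw [Finset.sum_map]
    exact fc2_sum
  · intro g
    rw [Finset.sum_map]
    have h1 : ∀ i : Fin 24, altd (ZMod 2) kface 1 g (tch i) =
        GG g ((TT i).2.1, (TT i).2.2) + GG g ((TT i).1, (TT i).2.2) +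
          GG g ((TT i).1, (TT i).2.1) := by
      intro i
      show ∑ j : Fin 3, (-1 : ZMod 2) ^ (j : ℕ) * g (kface 1 j (tch i)) = _
      rw [Fin.sum_univ_three, GG_eq g (kface 1 0 (tch i)), GG_eq g (kface 1 1 (tch i)),
        GG_eq g (kface 1 2 (tch i))]
      have e1 : (-1 : ZMod 2) = 1 := by decide
      rw [e1]
      simp only [one_pow, one_mul]
      rfl
    have h2 : ∑ i : Fin 24, altd (ZMod 2) kface 1 g (tch i) = (PL.map (GG g)).sum := by
      rw [Finset.sum_congr rfl fun i _ => h1 i, Finset.sum_add_distrib, Finset.sum_add_distrib]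
      unfold PL
      rw [List.map_append, List.map_append, List.sum_append, List.sum_append, List.map_ofFn,
        List.map_ofFn, List.map_ofFn, List.sum_ofFn, List.sum_ofFn, List.sum_ofFn]
      rfl
    show ∑ i : Fin 24, altd (ZMod 2) kface 1 g (tch i) = 0
    rw [h2, (PL_perm.map (GG g)).sum_eq, List.map_append, List.sum_append]
    exact CharTwo.add_self_eq_zero _

end Pool.Agent.Helper156.RP.J30925
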