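import Pool.Agent.Helper156.RP.KK
import Pool.Agent.Helper156.RP.J30892
import Pool.Agent.Helper156.RP.J30915

open scoped Manifold ContDiff Topology RealInnerProductSpace
open Set Topology

noncomputable section

namespace Pool.Agent.Helper156.RP.J30926

open Pool.Agent.Helper156.RP Pool.Agent.Helper156.Nv Pool.Agent.Helper156.RP.J30892 Pool.Agent.Helper156.RP.J30915


/-- number of nonzero signs -/
def obt_nz (x : ℕ) : ℕ := (List.range 4).countP (fun i => dn x i != 1)

theorem obt_T : ∀ x < 41, ∀ y < 41, lt40 x y = true → ∀ z < 41, lt40 y z = true →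
    lt40 x z = true := by
  decide +kernel

theorem obt_N : ∀ x < 41, 1 ≤ x → 1 ≤ obt_nz x ∧ obt_nz x ≤ 4 := by
  decide +kernel

theorem obt_N2 : ∀ x < 41, ∀ y < 41, lt40 x y = true → obt_nz y < obt_nz x := by
  decide +kernel

/-- exactly one `y` in `1..40` other than `a` has `q y` -/
def obt_one (a : ℕ) (q : ℕ → Bool) : Bool :=
  (List.range 41).any (fun y => Nat.ble 1 y && (y != a) && q y &&
    (List.range 41).all (fun z => !(Nat.ble 1 z && (z != a) && q z) || z == y))

theorem obt_one_spec (a : ℕ) (q : ℕ → Bool) (h : obt_one a q = true) :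
    ∃ y < 41, (1 ≤ y ∧ y ≠ a ∧ q y = true) ∧ ∀ z < 41, 1 ≤ z → z ≠ a → q z = true → z = y := by
  unfold obt_one at h
  rw [List.any_eq_true] at h
  obtain ⟨y, hy, h⟩ := h
  rw [Bool.and_eq_true, Bool.and_eq_true, Bool.and_eq_true, List.all_eq_true] at h
  obtain ⟨⟨⟨h1, h2⟩, h3⟩, h4⟩ := h
  refine ⟨y, List.mem_range.1 hy, ⟨Nat.le_of_ble_eq_true h1, by simpa using h2, h3⟩, ?_⟩
  intro z hz z1 z2 z3
  have h5 := h4 z (List.mem_range.2 hz)
  rw [Bool.or_eq_true] at h5
  rcases h5 with h5 | h5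
  · exfalso
    have h6 : (Nat.ble 1 z && (z != a) && q z) = true := by
      rw [Bool.and_eq_true, Bool.and_eq_true]
      exact ⟨⟨Nat.ble_eq_true_of_le z1, by simpa using z2⟩, z3⟩
    rw [h6] at h5
    exact absurd h5 (by decide)
  · exact eq_of_beq h5

/-- the check for the elements between `a` and `c` -/
def obt_mid (a c : ℕ) : Bool :=
  (List.range 41).all (fun b => !(lt40 a b && lt40 b c) || obt_one b (fun y => lt40 a y && lt40 y c))

theorem obt_mid_spec (a c : ℕ) (h : obt_mid a c = true) (b : ℕ) (hb : b < 41)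
    (h1 : lt40 a b = true) (h2 : lt40 b c = true) :
    obt_one b (fun y => lt40 a y && lt40 y c) = true := by
  unfold obt_mid at h
  rw [List.all_eq_true] at h
  have h5 := h b (List.mem_range.2 hb)
  rw [h1, h2] at h5
  simpa using h5

theorem obt_V0 : ∀ b < 41, obt_nz b = 3 → ∀ a < 41, lt40 a b = true →
    obt_one a (fun y => lt40 y b) = true := by
  decide +kernel

theorem obt_U0 : ∀ b < 41, obt_nz b = 3 → ∀ a < 41, lt40 a b = true →
    ∃ y < 41, (1 ≤ y ∧ y ≠ a ∧ lt40 y b = true) ∧ ∀ z < 41, 1 ≤ z → z ≠ a → lt40 z b = true →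
      z = y := by
  intro b hb h a ha h2
  exact obt_one_spec a _ (obt_V0 b hb h a ha h2)

theorem obt_V1 : ∀ a < 41, obt_nz a = 4 → ∀ c < 41, obt_nz c = 2 → obt_mid a c = true := by
  decide +kernel

theorem obt_U1 : ∀ a < 41, obt_nz a = 4 → ∀ c < 41, obt_nz c = 2 → ∀ b < 41,
    lt40 a b = true → lt40 b c = true →
    ∃ y < 41, (1 ≤ y ∧ y ≠ b ∧ lt40 a y = true ∧ lt40 y c = true) ∧
      ∀ z < 41, 1 ≤ z → z ≠ b → lt40 a z = true → lt40 z c = true → z = y := by
  intro a ha h c hc h2 b hb h3 h4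
  obtain ⟨y, hy, ⟨y1, y2, y3⟩, hu⟩ := obt_one_spec b _
    (obt_mid_spec a c (obt_V1 a ha h c hc h2) b hb h3 h4)
  rw [Bool.and_eq_true] at y3
  exact ⟨y, hy, ⟨y1, y2, y3.1, y3.2⟩, fun z hz z1 z2 z3 z4 => hu z hz z1 z2 (by
    rw [z3, z4]; rfl)⟩

theorem obt_V2 : ∀ a < 41, obt_nz a = 3 → ∀ c < 41, obt_nz c = 1 → obt_mid a c = true := by
  decide +kernel

theorem obt_U2 : ∀ a < 41, obt_nz a = 3 → ∀ c < 41, obt_nz c = 1 → ∀ b < 41,
    lt40 a b = true → lt40 b c = true →
    ∃ y < 41, (1 ≤ y ∧ y ≠ b ∧ lt40 a y = true ∧ lt40 y c = true) ∧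
      ∀ z < 41, 1 ≤ z → z ≠ b → lt40 a z = true → lt40 z c = true → z = y := by
  intro a ha h c hc h2 b hb h3 h4
  obtain ⟨y, hy, ⟨y1, y2, y3⟩, hu⟩ := obt_one_spec b _
    (obt_mid_spec a c (obt_V2 a ha h c hc h2) b hb h3 h4)
  rw [Bool.and_eq_true] at y3
  exact ⟨y, hy, ⟨y1, y2, y3.1, y3.2⟩, fun z hz z1 z2 z3 z4 => hu z hz z1 z2 (by
    rw [z3, z4]; rfl)⟩

theorem obt_V3 : ∀ b < 41, obt_nz b = 2 → ∀ a < 41, 1 ≤ a → lt40 b a = true →
    obt_one a (fun y => lt40 b y) = true := by
  decide +kernel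

theorem obt_U3 : ∀ b < 41, obt_nz b = 2 → ∀ a < 41, 1 ≤ a → lt40 b a = true →
    ∃ y < 41, (1 ≤ y ∧ y ≠ a ∧ lt40 b y = true) ∧ ∀ z < 41, 1 ≤ z → z ≠ a → lt40 b z = true →
      z = y := by
  intro b hb h a ha h1 h2
  exact obt_one_spec a _ (obt_V3 b hb h a ha h1 h2)

theorem obt_face (c c' : KK 3) (r : Fin 4) :
    kface 2 r c' = kface 2 r c ↔ ∀ i, i ≠ r → c'.1 i = c.1 i := by
  constructor
  · intro h i hi
    obtain ⟨j, hj⟩ := Fin.exists_succAbove_eq hi
    have h2 := congrArg (fun b : KK 2 => b.1 j) h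
    have h3 : c'.1 (r.succAbove j) = c.1 (r.succAbove j) := h2
    rwa [hj] at h3
  · intro h
    refine Subtype.ext (funext fun j => ?_)
    exact h _ (Fin.succAbove_ne r j)

/-- a chain from four codes -/
def obt_mk (a b c d : ℕ) (ha : 1 ≤ a ∧ a ≤ 40) (hb : 1 ≤ b ∧ b ≤ 40) (hc : 1 ≤ c ∧ c ≤ 40)
    (hd : 1 ≤ d ∧ d ≤ 40) (h1 : lt40 a b = true) (h2 : lt40 b c = true) (h3 : lt40 c d = true) :
    KK 3 :=
  ⟨![a, b, c, d], by
    constructor
    · intro i
      fin_cases i
      · exact ha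
      · exact hb
      · exact hc
      · exact hd
    · have h13 : lt40 a c = true := obt_T a (by omega) b (by omega) h1 c (by omega) h2
      have h24 : lt40 b d = true := obt_T b (by omega) c (by omega) h2 d (by omega) h3
      have h14 : lt40 a d = true := obt_T a (by omega) b (by omega) h1 d (by omega) h24
      intro i j hij
      fin_cases i <;> fin_cases j <;> first | exact absurd hij (by decide) | skip
      · exact h1
      · exact h13
      · exact h14
      · exact h2
      · exact h24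
      · exact h3⟩

theorem obt_ex (c : KK 3) (r : Fin 4) : ∃ c' : KK 3, c' ≠ c ∧ kface 2 r c' = kface 2 r c ∧
    ∀ c'' : KK 3, c'' ≠ c → kface 2 r c'' = kface 2 r c → c'' = c' := by
  obtain ⟨a, ha⟩ : ∃ a, a = c.1 0 := ⟨_, rfl⟩
  obtain ⟨b, hb⟩ : ∃ b, b = c.1 1 := ⟨_, rfl⟩
  obtain ⟨e, he⟩ : ∃ e, e = c.1 2 := ⟨_, rfl⟩
  obtain ⟨d, hd⟩ : ∃ d, d = c.1 3 := ⟨_, rfl⟩
  have ra := c.2.1 0
  have rb := c.2.1 1
  have re := c.2.1 2
  have rd := c.2.1 3
  have h01 := c.2.2 0 1 (by decide)
  have h12 := c.2.2 1 2 (by decide)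
  have h23 := c.2.2 2 3 (by decide)
  rw [← ha] at ra h01
  rw [← hb] at rb h01 h12
  rw [← he] at re h12 h23
  rw [← hd] at rd h23
  have na := obt_N a (by omega) ra.1
  have nb := obt_N b (by omega) rb.1
  have ne := obt_N e (by omega) re.1
  have nd := obt_N d (by omega) rd.1
  have n01 := obt_N2 a (by omega) b (by omega) h01
  have n12 := obt_N2 b (by omega) e (by omega) h12
  have n23 := obt_N2 e (by omega) d (by omega) h23
  have hext : ∀ c₁ c₂ : KK 3, c₁.1 0 = c₂.1 0 → c₁.1 1 = c₂.1 1 → c₁.1 2 = c₂.1 2 →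
      c₁.1 3 = c₂.1 3 → c₁ = c₂ := by
    intro c₁ c₂ e0 e1 e2 e3
    refine Subtype.ext (funext fun i => ?_)
    fin_cases i
    · exact e0
    · exact e1
    · exact e2
    · exact e3
  fin_cases r
  · obtain ⟨y, hy, ⟨y1, y2, y3⟩, hu⟩ := obt_U0 b (by omega) (by omega) a (by omega) h01
    refine ⟨obt_mk y b e d ⟨y1, by omega⟩ rb re rd y3 h12 h23, ?_, ?_, ?_⟩
    · intro h
      have h2 := congrArg (fun b : KK 3 => b.1 0) h
      have h3 : y = c.1 0 := h2
      exact y2 (h3.trans ha.symm)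
    · rw [obt_face]
      intro i hi
      fin_cases i
      · exact absurd rfl hi
      · exact hb
      · exact he
      · exact hd
    · intro c'' hne hf
      rw [obt_face] at hf
      have f1 := hf 1 (by decide)
      have f2 := hf 2 (by decide)
      have f3 := hf 3 (by decide)
      have hne0 : c''.1 0 ≠ a := fun h => hne (hext _ _ (h.trans ha) f1 f2 f3)
      have hr := c''.2.1 0
      have hl := c''.2.2 0 1 (by decide)
      rw [f1, ← hb] at hl
      have := hu (c''.1 0) (by omega) hr.1 hne0 hl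
      exact hext _ _ this (f1.trans hb.symm) (f2.trans he.symm) (f3.trans hd.symm)
  · obtain ⟨y, hy, ⟨y1, y2, y3, y4⟩, hu⟩ :=
      obt_U1 a (by omega) (by omega) e (by omega) (by omega) b (by omega) h01 h12
    refine ⟨obt_mk a y e d ra ⟨y1, by omega⟩ re rd y3 y4 h23, ?_, ?_, ?_⟩
    · intro h
      have h2 := congrArg (fun b : KK 3 => b.1 1) h
      have h3 : y = c.1 1 := h2
      exact y2 (h3.trans hb.symm)
    · rw [obt_face]
      intro i hi
      fin_cases i
      · exact ha
      · exact absurd rfl hi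
      · exact he
      · exact hd
    · intro c'' hne hf
      rw [obt_face] at hf
      have f0 := hf 0 (by decide)
      have f2 := hf 2 (by decide)
      have f3 := hf 3 (by decide)
      have hne0 : c''.1 1 ≠ b := fun h => hne (hext _ _ f0 (h.trans hb) f2 f3)
      have hr := c''.2.1 1
      have hl := c''.2.2 0 1 (by decide)
      have hl2 := c''.2.2 1 2 (by decide)
      rw [f0, ← ha] at hl
      rw [f2, ← he] at hl2
      have := hu (c''.1 1) (by omega) hr.1 hne0 hl hl2
      exact hext _ _ (f0.trans ha.symm) this (f2.trans he.symm) (f3.trans hd.symm)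
  · obtain ⟨y, hy, ⟨y1, y2, y3, y4⟩, hu⟩ :=
      obt_U2 b (by omega) (by omega) d (by omega) (by omega) e (by omega) h12 h23
    refine ⟨obt_mk a b y d ra rb ⟨y1, by omega⟩ rd h01 y3 y4, ?_, ?_, ?_⟩
    · intro h
      have h2 := congrArg (fun b : KK 3 => b.1 2) h
      have h3 : y = c.1 2 := h2
      exact y2 (h3.trans he.symm)
    · rw [obt_face]
      intro i hi
      fin_cases i
      · exact ha
      · exact hb
      · exact absurd rfl hi
      · exact hd
    · intro c'' hne hf
      rw [obt_face] at hf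
      have f0 := hf 0 (by decide)
      have f1 := hf 1 (by decide)
      have f3 := hf 3 (by decide)
      have hne0 : c''.1 2 ≠ e := fun h => hne (hext _ _ f0 f1 (h.trans he) f3)
      have hr := c''.2.1 2
      have hl := c''.2.2 1 2 (by decide)
      have hl2 := c''.2.2 2 3 (by decide)
      rw [f1, ← hb] at hl
      rw [f3, ← hd] at hl2
      have := hu (c''.1 2) (by omega) hr.1 hne0 hl hl2
      exact hext _ _ (f0.trans ha.symm) (f1.trans hb.symm) this (f3.trans hd.symm)
  · obtain ⟨y, hy, ⟨y1, y2, y3⟩, hu⟩ := obt_U3 e (by omega) (by omega) d (by omega) rd.1 h23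
    refine ⟨obt_mk a b e y ra rb re ⟨y1, by omega⟩ h01 h12 y3, ?_, ?_, ?_⟩
    · intro h
      have h2 := congrArg (fun b : KK 3 => b.1 3) h
      have h3 : y = c.1 3 := h2
      exact y2 (h3.trans hd.symm)
    · rw [obt_face]
      intro i hi
      fin_cases i
      · exact ha
      · exact hb
      · exact he
      · exact absurd rfl hi
    · intro c'' hne hf
      rw [obt_face] at hf
      have f0 := hf 0 (by decide)
      have f1 := hf 1 (by decide)
      have f2 := hf 2 (by decide)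
      have hne0 : c''.1 3 ≠ d := fun h => hne (hext _ _ f0 f1 f2 (h.trans hd))
      have hr := c''.2.1 3
      have hl := c''.2.2 2 3 (by decide)
      rw [f2, ← he] at hl
      have := hu (c''.1 3) (by omega) hr.1 hne0 hl
      exact hext _ _ (f0.trans ha.symm) (f1.trans hb.symm) (f2.trans he.symm) this

theorem one_le_bk_three : 1 ≤ bk 3 := by
  classical
  haveI : Finite (KK 3) := finite_KK 3
  haveI : Fintype (KK 3) := Fintype.ofFinite _
  haveI := isEmpty_KK 4 le_rfl
  have hc0 : Nonempty (KK 3) :=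
    ⟨obt_mk 40 39 36 27 (by decide) (by decide) (by decide) (by decide) (by decide +kernel)
      (by decide +kernel) (by decide +kernel)⟩
  obtain ⟨c0⟩ := hc0
  refine one_le_bk_succ 2 (Pi.single c0 1) ?_ Finset.univ ?_ ?_
  · funext c
    exact isEmptyElim c
  · simp [Pi.single_apply]
  · intro g
    have h1 : ∀ c : KK 3, altd (ZMod 2) kface 2 g c = ∑ r : Fin 4, g (kface 2 r c) := by
      intro c
      show ∑ i : Fin 4, (-1 : ZMod 2) ^ (i : ℕ) * g (kface 2 i c) = _
      refine Finset.sum_congr rfl fun r _ => ?_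
      have : (-1 : ZMod 2) = 1 := by decide
      rw [this, one_pow, one_mul]
    simp only [h1]
    rw [← Finset.sum_product']
    refine Finset.sum_involution (fun p _ => ((obt_ex p.1 p.2).choose, p.2)) ?_ ?_ ?_ ?_
    · intro p _
      have h2 := (obt_ex p.1 p.2).choose_spec.2.1
      rw [h2]
      exact CharTwo.add_self_eq_zero _
    · intro p _ _ h
      have h2 := (obt_ex p.1 p.2).choose_spec.1
      exact h2 (congrArg Prod.fst h)
    · intro p _
      simp
    · intro p _
      have h2 := (obt_ex p.1 p.2).choose_spec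
      have h3 := (obt_ex (obt_ex p.1 p.2).choose p.2).choose_spec
      have h4 := h3.2.2 p.1 (fun h => h2.1 h.symm) h2.2.1.symm
      exact Prod.ext h4.symm rfl

end Pool.Agent.Helper156.RP.J30926
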