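import Pool.Agent.Helper156.Nv.Cone
import Pool.Agent.Helper156.RP.Base

open scoped Manifold ContDiff Topology RealInnerProductSpace
open Set Topology

noncomputable section

namespace Pool.Agent.Helper156.RP

open Pool.Agent.Helper156.Nv

/-! The face poset of the cross-polytope of `ℝ⁴` modulo `±1`: its elements are the sign vectors
`≠ 0` up to sign, coded by `m = 1, …, 40` in balanced ternary. -/

/-- The `i`-th ternary digit of `m + 40`: `0, 1, 2` means sign `-, 0, +`. -/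
def dn (m i : ℕ) : ℕ := (m + 40) / 3 ^ i % 3

/-- `x` extends `y` up to sign. -/
def ext (x y : ℕ) : Bool :=
  (List.range 4).all (fun i => dn y i == 1 || dn y i == dn x i) ||
    (List.range 4).all (fun i => dn y i == 1 || dn y i + dn x i == 2)

/-- The strict order. -/
def lt40 (x y : ℕ) : Bool := (x != y) && ext x y

/-- Strict chains of codes. -/
abbrev KK (n : ℕ) : Type :=
  {c : Fin (n + 1) → ℕ // (∀ i, 1 ≤ c i ∧ c i ≤ 40) ∧ ∀ i j, i < j → lt40 (c i) (c j) = true}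

/-- Faces of chains of codes. -/
def kface (n : ℕ) (i : Fin (n + 2)) (c : KK (n + 1)) : KK n :=
  ⟨c.1 ∘ i.succAbove, fun _ => c.2.1 _,
    fun _ _ h => c.2.2 _ _ (Fin.strictMono_succAbove i h)⟩

/-- The sign `-1, 0, 1` of the `i`-th coordinate of the sign vector coded by `m`. -/
def dg (m : ℕ) (i : Fin 4) : ℝ := (dn m i : ℝ) - 1

/-- The open subset of `ℝP³` of the lines spanned by a vector having the prescribed signs in the
coordinates `i` with `dg m i ≠ 0` (no condition in the other coordinates). -/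
def UU (m : ℕ) : Set RP3 := {p | ∃ a : ℝ, ∀ i : Fin 4, dn m i ≠ 1 → 0 < a * (dg m i * p.rep i)}

/-- The family of the 40 sets `UU m`. -/
def Fam : Set (Set RP3) := {C | ∃ m : ℕ, 1 ≤ m ∧ m ≤ 40 ∧ C = UU m}

/-- The rank of the coboundary `C^n → C^{n+1}` mod 2 of the order complex. -/
noncomputable def rk (n : ℕ) : ℕ :=
  Module.finrank (ZMod 2) (LinearMap.range (altd (ZMod 2) kface n))

/-- The Betti numbers mod 2 of the order complex. -/
noncomputable def bk (n : ℕ) : ℕ :=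
  Module.finrank (ZMod 2) (Coh (ZMod 2) (fun n => KK n → ZMod 2) (fun n => altd (ZMod 2) kface n) n)

/-- `l` codes a strict chain with `n + 1` elements. -/
def isCh (n : ℕ) (l : List ℕ) : Bool :=
  l.length == n + 1 && l.all (fun x => Nat.ble 1 x && Nat.ble x 40) &&
    (List.range (n + 1)).all (fun j => (List.range j).all (fun i => lt40 (l.getD i 0) (l.getD j 0)))

/-- `a` is obtained from `b` by removing one element. -/
def isFace (a b : List ℕ) : Bool := (List.range b.length).any (fun i => b.eraseIdx i == a)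

/-- The list of pairs is a triangular certificate for the rank of the coboundary in degree `n`. -/
def checkCert (n : ℕ) : List (List ℕ × List ℕ) → Bool
  | [] => true
  | q :: t => isCh n q.1 && isCh (n + 1) q.2 && isFace q.1 q.2 &&
      t.all (fun r => !isFace q.1 r.2) && checkCert n t

/-- certificate in degree 0 -/
def cert0 : List (List ℕ × List ℕ) :=
  [([5], [5,1]), ([25], [25,2]), ([32], [32,8]), ([23], [14,23]), ([18], [18,27]), ([8], [8,1]),
   ([17], [17,1]), ([35], [35,36]), ([31], [31,28]), ([6], [7,6]), ([4], [4,3]), ([10], [10,1]),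
   ([33], [34,33]), ([21], [21,30]), ([13], [13,12]), ([34], [34,2]), ([22], [22,1]), ([26],
   [29,26]), ([15], [16,15]), ([30], [30,3]), ([7], [7,2]), ([3], [2,3]), ([28], [37,28]), ([37],
   [37,1]), ([14], [14,12]), ([19], [19,1]), ([20], [20,29]), ([29], [38,29]), ([38], [38,39]),
   ([2], [2,1]), ([39], [40,39]), ([27], [24,27]), ([36], [40,36]), ([40], [40,12]), ([24],
   [16,24]), ([12], [12,9]), ([9], [11,9]), ([11], [11,1]), ([1], [16,1])]

/-- certificate in degree 1 -/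
def cert1 : List (List ℕ × List ℕ) :=
  [([23,26], [14,23,26]), ([35,26], [35,26,1]), ([13,9], [13,12,9]), ([14,10], [14,17,10]),
   ([23,1], [14,23,1]), ([20,10], [20,17,10]), ([20,3], [20,30,3]), ([40,4], [40,4,3]), ([31,3],
   [40,31,3]), ([32,6], [32,5,6]), ([32,33], [32,33,27]), ([17,10], [17,10,9]), ([19,27],
   [19,28,27]), ([31,27], [31,28,27]), ([16,25], [16,25,1]), ([39,3], [39,12,3]), ([25,24],
   [34,25,24]), ([15,18], [15,18,9]), ([32,26], [32,26,1]), ([22,30], [22,21,30]), ([40,3],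
   [40,13,3]), ([32,4], [32,23,4]), ([37,27], [37,28,27]), ([14,24], [14,24,3]), ([22,6],
   [22,21,6]), ([31,30], [40,31,30]), ([40,30], [40,39,30]), ([25,3], [25,2,3]), ([23,24],
   [23,24,27]), ([33,6], [33,6,3]), ([16,3], [16,11,3]), ([16,18], [16,18,9]), ([5,6], [5,6,9]),
   ([37,36], [34,37,36]), ([14,26], [14,17,26]), ([32,36], [32,36,9]), ([33,9], [33,36,9]),
   ([20,18], [20,17,18]), ([40,31], [40,31,28]), ([21,9], [22,21,9]), ([33,3], [33,24,3]),
   ([14,3], [14,15,3]), ([7,9], [7,10,9]), ([34,28], [34,28,1]), ([32,1], [32,35,1]), ([31,4],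
   [22,31,4]), ([32,24], [32,24,27]), ([22,31], [22,31,1]), ([35,1], [38,35,1]), ([33,36],
   [33,36,27]), ([21,18], [22,21,18]), ([22,3], [22,21,3]), ([32,3], [32,23,3]), ([6,9],
   [20,6,9]), ([34,36], [34,36,9]), ([16,2], [16,11,2]), ([31,1], [31,28,1]), ([5,3], [5,4,3]),
   ([39,30], [39,30,27]), ([22,21], [22,21,27]), ([34,9], [34,37,9]), ([36,9], [39,36,9]),
   ([22,4], [22,5,4]), ([20,6], [20,21,6]), ([21,27], [20,21,27]), ([21,6], [21,6,3]), ([21,3],
   [21,30,3]), ([24,3], [15,24,3]), ([39,27], [40,39,27]), ([39,12], [38,39,12]), ([20,9],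
   [20,17,9]), ([33,27], [34,33,27]), ([23,3], [23,4,3]), ([17,9], [17,18,9]), ([33,24],
   [34,33,24]), ([6,3], [7,6,3]), ([22,18], [22,19,18]), ([20,21], [20,21,30]), ([5,9], [32,5,9]),
   ([34,6], [34,7,6]), ([23,4], [14,23,4]), ([22,5], [22,5,8]), ([32,23], [32,23,27]), ([32,5],
   [32,5,8]), ([34,24], [34,24,27]), ([38,12], [38,11,12]), ([22,9], [22,19,9]), ([20,17],
   [20,17,26]), ([20,27], [20,30,27]), ([5,4], [5,4,1]), ([19,18], [19,18,9]), ([34,27],
   [34,25,27]), ([5,8], [5,8,1]), ([32,27], [32,35,27]), ([18,9], [14,18,9]), ([15,3], [15,12,3]),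
   ([19,9], [19,8,9]), ([32,9], [32,35,9]), ([35,9], [35,8,9]), ([4,1], [14,4,1]), ([25,27],
   [25,28,27]), ([32,35], [32,35,8]), ([19,8], [16,19,8]), ([30,27], [38,30,27]), ([14,4],
   [14,13,4]), ([25,28], [25,28,1]), ([22,8], [22,8,1]), ([13,4], [13,4,3]), ([34,10],
   [34,37,10]), ([14,9], [14,15,9]), ([8,9], [16,8,9]), ([35,8], [38,35,8]), ([22,27],
   [22,28,27]), ([16,9], [16,12,9]), ([23,27], [14,23,27]), ([16,19], [16,19,28]), ([20,26],
   [20,29,26]), ([15,9], [15,12,9]), ([13,3], [13,12,3]), ([20,30], [20,29,30]), ([38,35],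
   [38,35,36]), ([22,28], [22,19,28]), ([22,19], [22,19,1]), ([34,7], [34,7,3]), ([38,30],
   [38,30,3]), ([7,10], [7,10,1]), ([12,3], [11,12,3]), ([35,27], [35,36,27]), ([11,3],
   [38,11,3]), ([7,3], [7,2,3]), ([19,28], [19,28,1]), ([16,8], [16,11,8]), ([29,30], [29,30,3]),
   ([7,1], [20,7,1]), ([20,7], [20,7,2]), ([37,10], [37,10,9]), ([10,9], [40,10,9]), ([20,1],
   [20,29,1]), ([20,2], [20,29,2]), ([40,10], [40,13,10]), ([29,2], [29,2,3]), ([29,3],
   [38,29,3]), ([13,10], [13,10,1]), ([29,1], [38,29,1]), ([34,3], [34,2,3]), ([34,37],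
   [34,37,1]), ([34,1], [34,25,1]), ([34,25], [34,25,2]), ([38,3], [38,2,3]), ([38,2], [38,11,2]),
   ([11,2], [11,2,1]), ([25,1], [25,2,1]), ([37,9], [40,37,9]), ([17,27], [17,18,27]), ([17,18],
   [14,17,18]), ([14,18], [14,18,27]), ([17,26], [17,26,1]), ([14,17], [14,17,1]), ([14,27],
   [14,15,27]), ([14,1], [14,13,1]), ([26,27], [29,26,27]), ([26,1], [38,26,1]), ([38,26],
   [38,29,26]), ([38,1], [38,8,1]), ([13,1], [40,13,1]), ([38,8], [38,11,8]), ([11,8], [11,8,1]),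
   ([14,15], [14,15,12]), ([15,12], [16,15,12]), ([16,12], [16,11,12]), ([29,27], [38,29,27]),
   ([16,11], [16,11,1]), ([40,1], [40,37,1]), ([38,11], [38,11,9]), ([14,13], [14,13,12]),
   ([38,9], [38,39,9]), ([40,37], [40,37,28]), ([39,9], [40,39,9]), ([40,13], [40,13,12]),
   ([40,9], [40,12,9]), ([15,27], [15,24,27]), ([38,27], [38,36,27]), ([40,28], [40,28,27]),
   ([11,12], [11,12,9]), ([40,27], [40,36,27]), ([38,36], [38,39,36]), ([28,27], [16,28,27]),
   ([16,28], [16,28,1]), ([28,1], [37,28,1]), ([15,24], [16,15,24]), ([16,27], [16,24,27]),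
   ([39,36], [40,39,36])]

/-- certificate in degree 2 -/
def cert2 : List (List ℕ × List ℕ) :=
  [([32,6,3], [32,33,6,3]), ([5,6,3], [22,5,6,3]), ([32,33,6], [32,33,6,9]), ([32,6,9],
   [32,5,6,9]), ([33,6,9], [34,33,6,9]), ([22,5,6], [22,5,6,9]), ([22,6,9], [22,21,6,9]),
   ([34,6,9], [34,7,6,9]), ([7,6,9], [20,7,6,9]), ([22,5,9], [22,5,8,9]), ([20,7,6], [20,7,6,3]),
   ([32,33,9], [32,33,36,9]), ([20,7,9], [20,7,10,9]), ([22,6,3], [22,21,6,3]), ([21,6,9],
   [20,21,6,9]), ([22,5,3], [22,5,4,3]), ([34,33,9], [34,33,36,9]), ([20,6,3], [20,21,6,3]),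
   ([34,7,9], [34,7,10,9]), ([34,33,6], [34,33,6,3]), ([20,21,9], [20,21,18,9]), ([34,6,3],
   [34,7,6,3]), ([22,4,3], [22,31,4,3]), ([34,7,10], [34,7,10,1]), ([34,7,1], [34,7,2,1]),
   ([31,4,3], [40,31,4,3]), ([20,21,18], [20,21,18,27]), ([7,2,1], [20,7,2,1]), ([20,7,10],
   [20,7,10,1]), ([32,33,3], [32,33,24,3]), ([40,31,4], [40,31,4,1]), ([32,5,3], [32,5,4,3]),
   ([32,4,3], [32,23,4,3]), ([22,31,3], [22,31,30,3]), ([32,5,4], [32,5,4,1]), ([32,4,1],
   [32,23,4,1]), ([22,31,30], [22,31,30,27]), ([31,4,1], [22,31,4,1]), ([32,24,3], [32,23,24,3]),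
   ([32,33,24], [32,33,24,27]), ([21,18,27], [22,21,18,27]), ([22,4,1], [22,5,4,1]), ([33,24,27],
   [34,33,24,27]), ([32,23,1], [32,23,26,1]), ([31,30,3], [40,31,30,3]), ([20,7,3], [20,7,2,3]),
   ([34,10,1], [34,37,10,1]), ([20,18,27], [20,17,18,27]), ([34,33,3], [34,33,24,3]), ([32,23,26],
   [32,23,26,27]), ([20,10,9], [20,17,10,9]), ([22,31,27], [22,31,28,27]), ([23,26,27],
   [14,23,26,27]), ([20,17,27], [20,17,26,27]), ([34,33,36], [34,33,36,27]), ([22,30,27],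
   [22,21,30,27]), ([14,26,27], [14,17,26,27]), ([31,30,27], [40,31,30,27]), ([21,18,9],
   [22,21,18,9]), ([20,26,27], [20,29,26,27]), ([20,10,1], [20,17,10,1]), ([22,18,9],
   [22,19,18,9]), ([34,36,27], [34,37,36,27]), ([40,31,27], [40,31,28,27]), ([23,24,3],
   [14,23,24,3]), ([34,24,3], [34,25,24,3]), ([20,17,1], [20,17,26,1]), ([20,2,3], [20,29,2,3]),
   ([22,5,1], [22,5,8,1]), ([17,10,1], [14,17,10,1]), ([22,30,3], [22,21,30,3]), ([22,18,27],
   [22,19,18,27]), ([20,2,1], [20,29,2,1]), ([5,8,9], [32,5,8,9]), ([25,24,3], [16,25,24,3]),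
   ([14,17,27], [14,17,18,27]), ([32,33,36], [32,33,36,27]), ([34,10,9], [34,37,10,9]),
   ([19,18,27], [16,19,18,27]), ([32,36,27], [32,35,36,27]), ([34,7,2], [34,7,2,3]), ([40,4,1],
   [40,13,4,1]), ([22,8,9], [22,19,8,9]), ([20,18,9], [20,17,18,9]), ([16,25,24], [16,25,24,27]),
   ([25,24,27], [34,25,24,27]), ([14,23,24], [14,23,24,27]), ([16,25,3], [16,25,2,3]),
   ([14,24,27], [14,15,24,27]), ([16,18,27], [16,15,18,27]), ([14,23,3], [14,23,4,3]), ([37,10,1],
   [40,37,10,1]), ([34,25,3], [34,25,2,3]), ([23,26,1], [14,23,26,1]), ([16,15,27],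
   [16,15,24,27]), ([14,26,1], [14,17,26,1]), ([16,19,18], [16,19,18,9]), ([22,19,27],
   [22,19,28,27]), ([16,15,18], [16,15,18,9]), ([20,29,27], [20,29,30,27]), ([29,2,1],
   [38,29,2,1]), ([34,37,27], [34,37,28,27]), ([20,26,1], [20,29,26,1]), ([13,4,1], [14,13,4,1]),
   ([32,35,36], [32,35,36,9]), ([16,25,27], [16,25,28,27]), ([16,2,3], [16,11,2,3]), ([32,5,1],
   [32,5,8,1]), ([40,13,4], [40,13,4,3]), ([40,30,3], [40,39,30,3]), ([16,25,28], [16,25,28,1]),
   ([40,30,27], [40,39,30,27]), ([16,24,3], [16,15,24,3]), ([16,19,9], [16,19,8,9]), ([21,30,27],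
   [20,21,30,27]), ([14,4,3], [14,13,4,3]), ([22,31,28], [22,31,28,1]), ([14,10,1], [14,13,10,1]),
   ([23,4,1], [14,23,4,1]), ([20,29,3], [20,29,30,3]), ([39,30,3], [38,39,30,3]), ([32,26,27],
   [32,35,26,27]), ([35,26,27], [38,35,26,27]), ([38,26,27], [38,29,26,27]), ([32,8,9],
   [32,35,8,9]), ([38,35,27], [38,35,36,27]), ([32,23,24], [32,23,24,27]), ([32,35,26],
   [32,35,26,1]), ([20,21,3], [20,21,30,3]), ([22,19,8], [22,19,8,1]), ([34,28,27],
   [34,25,28,27]), ([22,28,1], [22,19,28,1]), ([37,36,27], [40,37,36,27]), ([40,31,1],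
   [40,31,28,1]), ([11,2,3], [38,11,2,3]), ([16,19,27], [16,19,28,27]), ([15,18,27],
   [14,15,18,27]), ([34,2,1], [34,25,2,1]), ([32,8,1], [32,35,8,1]), ([14,13,3], [14,13,12,3]),
   ([14,15,24], [14,15,24,3]), ([16,25,2], [16,25,2,1]), ([38,35,26], [38,35,26,1]), ([38,29,2],
   [38,29,2,3]), ([40,28,1], [40,37,28,1]), ([14,12,3], [14,15,12,3]), ([16,2,1], [16,11,2,1]),
   ([40,39,3], [40,39,12,3]), ([38,39,30], [38,39,30,27]), ([40,12,3], [40,13,12,3]), ([34,25,28],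
   [34,25,28,1]), ([40,37,36], [40,37,36,9]), ([14,13,10], [14,13,10,9]), ([37,36,9],
   [34,37,36,9]), ([35,36,9], [38,35,36,9]), ([40,37,27], [40,37,28,27]), ([29,26,1],
   [38,29,26,1]), ([38,36,9], [38,39,36,9]), ([13,10,9], [40,13,10,9]), ([16,15,3], [16,15,12,3]),
   ([40,13,9], [40,13,12,9]), ([40,10,1], [40,13,10,1]), ([29,30,27], [38,29,30,27]), ([34,37,28],
   [34,37,28,1]), ([14,13,9], [14,13,12,9]), ([14,15,18], [14,15,18,9]), ([38,39,27],
   [38,39,36,27]), ([38,2,1], [38,11,2,1]), ([40,36,9], [40,39,36,9]), ([19,8,1], [16,19,8,1]),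
   ([40,37,10], [40,37,10,9]), ([16,12,3], [16,11,12,3]), ([16,15,9], [16,15,12,9]), ([14,10,9],
   [14,17,10,9]), ([40,39,12], [40,39,12,9]), ([14,12,9], [14,15,12,9]), ([16,8,1], [16,11,8,1]),
   ([38,39,3], [38,39,12,3]), ([38,35,9], [38,35,8,9]), ([16,19,1], [16,19,28,1]), ([39,36,27],
   [40,39,36,27]), ([38,12,3], [38,11,12,3]), ([14,17,9], [14,17,18,9]), ([38,29,30],
   [38,29,30,3]), ([35,8,1], [38,35,8,1]), ([38,8,9], [38,11,8,9]), ([39,12,9], [38,39,12,9]),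
   ([11,8,9], [16,11,8,9]), ([38,11,1], [38,11,8,1]), ([38,12,9], [38,11,12,9]), ([16,11,9],
   [16,11,12,9])]

end Pool.Agent.Helper156.RP
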