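import Pool.Agent.Helper156.Nv.Cone
import Pool.Agent.Helper156.RP.Core
import Pool.Agent.Helper156.RP.KK
import Pool.Agent.Helper156.RP.J30885
import Pool.Agent.Helper156.RP.J30886
import Pool.Agent.Helper156.RP.J30887
import Pool.Agent.Helper156.RP.J30888
import Pool.Agent.Helper156.RP.J30889
import Pool.Agent.Helper156.RP.J30890
import Pool.Agent.Helper156.RP.J30892
import Pool.Agent.Helper156.RP.J30895
import Pool.Agent.Helper156.RP.J30908
import Pool.Agent.Helper156.RP.J30910
import Pool.Agent.Helper156.RP.J30915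
import Pool.Agent.Helper156.RP.J30924
import Pool.Agent.Helper156.RP.J30925
import Pool.Agent.Helper156.RP.J30926

open scoped Manifold ContDiff Topology RealInnerProductSpace
open Set Topology

noncomputable section

namespace Pool.Agent.Helper156.RP

open Pool.Agent.Helper156.Nv
open J30885 J30886 J30887 J30888 J30889 J30890 J30892 J30895 J30908 J30910 J30915 J30924 J30925
  J30926

theorem cert0_ok : checkCert 0 cert0 = true := by decide +kernel

theorem cert1_ok : checkCert 1 cert1 = true := by decide +kernel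

theorem cert2_ok : checkCert 2 cert2 = true := by decide +kernel

theorem rk0_ge : 39 ≤ rk 0 := by
  have h := rank_of_cert 0 cert0 cert0_ok
  have h2 : cert0.length = 39 := by decide +kernel
  omega

theorem rk1_ge : 192 ≤ rk 1 := by
  have h := rank_of_cert 1 cert1 cert1_ok
  have h2 : cert1.length = 192 := by decide +kernel
  omega

theorem rk2_ge : 191 ≤ rk 2 := by
  have h := rank_of_cert 2 cert2 cert2_ok
  have h2 : cert2.length = 191 := by decide +kernel
  omega

theorem bk_small : bk 0 = 1 ∧ bk 1 = 1 ∧ bk 2 = 1 ∧ bk 3 = 1 := by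
  obtain ⟨c0, c1, c2, c3⟩ := cards
  have d0 := deg_zero
  have d1 := deg_succ 0
  have d2 := deg_succ 1
  have d3 := deg_succ 2
  have r0 := rk0_ge
  have r1 := rk1_ge
  have r2 := rk2_ge
  have l0 := one_le_bk_zero
  have l1 := one_le_bk_one
  have l2 := one_le_bk_two
  have l3 := one_le_bk_three
  simp only [Nat.zero_add, Nat.reduceAdd] at d1 d2 d3
  omega

theorem bk_large (n : ℕ) (hn : 4 ≤ n) : bk n = 0 := by
  have := isEmpty_KK n hn
  have h2 := finite_KK n
  unfold bk
  have h3 : Subsingleton (LinearMap.ker (altd (ZMod 2) kface n)) := inferInstance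
  have h4 : Subsingleton (Coh (ZMod 2) (fun n => KK n → ZMod 2)
      (fun n => altd (ZMod 2) kface n) n) := by
    refine ⟨fun a b => ?_⟩
    obtain ⟨a', rfl⟩ := Submodule.mkQ_surjective _ a
    obtain ⟨b', rfl⟩ := Submodule.mkQ_surjective _ b
    rw [Subsingleton.elim a' b']
  exact Module.finrank_zero_of_subsingleton

theorem singCoh_equiv (n : ℕ) : Nonempty (SingCoh (ZMod 2) RP3 n ≃ₗ[ZMod 2]
    Coh (ZMod 2) (fun n => KK n → ZMod 2) (fun n => altd (ZMod 2) kface n) n) := by
  have hopen : ∀ C ∈ Fam, IsOpen C := by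
    rintro C ⟨m, -, -, rfl⟩
    exact UU_open m
  have hcap : ∀ σ : Σ n, Sing RP3 n, (∃ C ∈ Fam, Set.range σ.2 ⊆ C) →
      ∃ J ∈ Fam, Set.range σ.2 ⊆ J ∧ ∀ C ∈ Fam, Set.range σ.2 ⊆ C → J ⊆ C := by
    rintro ⟨n, σ⟩ h
    refine UU_cap _ ?_ h
    have h1 : IsConnected (stdSimplex ℝ (Fin (n + 1))) :=
      (convex_stdSimplex ℝ (Fin (n + 1))).isConnected
        ⟨Pi.single 0 1, single_mem_stdSimplex ℝ 0⟩
    have := isConnected_iff_connectedSpace.1 h1
    exact isConnected_range σ.continuous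
  have hcone : ∀ C ∈ Fam, ConeData C := by
    rintro C ⟨m, h1, h2, rfl⟩
    obtain ⟨p, ⟨F⟩⟩ := UU_contr m ⟨h1, h2⟩
    exact coneData_of_nullhomotopic (UU m) p F
  have : Nonempty RP3 := ⟨RP3.mk (ins 0 0) (ins_ne 0 0)⟩
  obtain ⟨e1⟩ := small_simplices (k := ZMod 2) Fam hopen UU_cover n
  obtain ⟨e2⟩ := nerve_small (k := ZMod 2) Fam hcap hcone n
  obtain ⟨e3⟩ := ordCoh_fam n
  exact ⟨(e1.trans e2).trans e3⟩

theorem sub_quot_equiv {k V : Type} [Field k] [AddCommGroup V] [Module k V]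
    (B Z : Submodule k V) : Nonempty ((Z ⧸ B.submoduleOf Z) ≃ₗ[k] Z.map B.mkQ) := by
  let f : Z →ₗ[k] V ⧸ B := B.mkQ.comp Z.subtype
  have hk : LinearMap.ker f = B.submoduleOf Z := by
    rw [LinearMap.ker_comp, Submodule.ker_mkQ]
    rfl
  have hr : LinearMap.range f = Z.map B.mkQ := by
    rw [LinearMap.range_comp, Submodule.range_subtype]
  exact ⟨(Submodule.quotEquivOfEq _ _ hk.symm).trans
    (f.quotKerEquivRange.trans (LinearEquiv.ofEq _ _ hr))⟩

theorem H_equiv (k : Type) [Field k] (X : Type) [TopologicalSpace X] (n : ℕ) :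
    Nonempty (H k X n ≃ₗ[k] (cycles k X n).map (LinearMap.range (bdry k X n)).mkQ) :=
  sub_quot_equiv _ _

theorem cycles_eq0 (k : Type) [Field k] (X : Type) [TopologicalSpace X] (n : ℕ) :
    (cycles k X n : Submodule k (Simp X n →₀ k)) = cycles0 k X n := by
  cases n <;> rfl

theorem H_equiv0 (k : Type) [Field k] (X : Type) [TopologicalSpace X] (n : ℕ) :
    Nonempty (H k X n ≃ₗ[k] H0 k X n) := by
  obtain ⟨e⟩ := H_equiv k X n
  have h : (cycles k X n).map (LinearMap.range (bdry k X n)).mkQ = H0 k X n := by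
    unfold H0
    rw [← cycles_eq0]
    rfl
  exact ⟨e.trans (LinearEquiv.ofEq _ _ h)⟩

theorem rank_H_RP3 (n : ℕ) :
    Cardinal.toENat (Module.rank (ZMod 2) (H (ZMod 2) RP3 n)) = (bk n : ℕ∞) := by
  obtain ⟨e⟩ := singCoh_equiv n
  obtain ⟨d⟩ := singCoh_dual (ZMod 2) RP3 n
  obtain ⟨g⟩ := H_equiv0 (ZMod 2) RP3 n
  have := finite_KK n
  have h1 : Module.Finite (ZMod 2) (Coh (ZMod 2) (fun n => KK n → ZMod 2)
    (fun n => altd (ZMod 2) kface n) n) := inferInstance
  have f := d.symm.trans e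
  have h2 : Module.Finite (ZMod 2) (Module.Dual (ZMod 2) (H0 (ZMod 2) RP3 n)) :=
    Module.Finite.equiv f.symm
  have h3 : Module.Finite (ZMod 2) (H0 (ZMod 2) RP3 n) := (Module.finite_dual_iff (ZMod 2)).1 h2
  rw [g.rank_eq, ← Module.finrank_eq_rank, ← Subspace.dual_finrank_eq, f.finrank_eq]
  simp [bk]

/-- The sum of the Betti numbers mod 2 of `ℝP³` is `4`. -/
theorem bettiSum_RP3 : bettiSum (ZMod 2) RP3 = 4 := by
  have h : ∀ N, ∑ n ∈ Finset.range N,
      Cardinal.toENat (Module.rank (ZMod 2) (H (ZMod 2) RP3 n)) =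
        ((∑ n ∈ Finset.range N, bk n : ℕ) : ℕ∞) := by
    intro N
    rw [Nat.cast_sum]
    exact Finset.sum_congr rfl fun n _ => rank_H_RP3 n
  obtain ⟨b0, b1, b2, b3⟩ := bk_small
  have h4 : ∑ n ∈ Finset.range 4, bk n = 4 := by
    simp [Finset.sum_range_succ, b0, b1, b2, b3]
  have h5 : ∀ N, 4 ≤ N → ∑ n ∈ Finset.range N, bk n = 4 := by
    intro N hN
    induction N, hN using Nat.le_induction with
    | base => exact h4
    | succ N hN ih => rw [Finset.sum_range_succ, ih, bk_large N hN]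
  unfold bettiSum
  apply le_antisymm
  · apply iSup_le
    intro N
    rw [h N]
    have : ∑ n ∈ Finset.range N, bk n ≤ 4 := by
      rw [← h5 (max N 4) (le_max_right _ _)]
      exact Finset.sum_le_sum_of_subset (Finset.range_mono (le_max_left _ _))
    exact_mod_cast this
  · refine le_trans ?_ (le_iSup _ 4)
    rw [h 4, h4]
    exact le_rfl

end Pool.Agent.Helper156.RP
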