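import Pool.Agent.Helper156.RP.Base

open scoped Manifold ContDiff Topology RealInnerProductSpace
open Set Topology

noncomputable section

namespace Pool.Agent.Helper156.RP.J30370

open Pool.Agent.Helper156.RP


theorem contDiff_ins_coord (i j : Fin 4) :
    ContDiff ℝ ∞ (fun w : EuclideanSpace ℝ (Fin 3) => ins i w j) := by
  rcases Fin.eq_self_or_eq_succAbove i j with h | ⟨k, h⟩
  · subst h
    have : (fun w : EuclideanSpace ℝ (Fin 3) => ins j w j) = fun _ => (1 : ℝ) := by
      funext w
      exact ins_same j w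
    rw [this]
    exact contDiff_const
  · subst h
    have : (fun w : EuclideanSpace ℝ (Fin 3) => ins i w (i.succAbove k)) =
        fun w => (EuclideanSpace.proj (𝕜 := ℝ) k : EuclideanSpace ℝ (Fin 3) →L[ℝ] ℝ) w := by
      funext w
      exact ins_succAbove i w k
    rw [this]
    exact (EuclideanSpace.proj (𝕜 := ℝ) k : EuclideanSpace ℝ (Fin 3) →L[ℝ] ℝ).contDiff

theorem contDiffOn_trans (i j : Fin 4) :
    ContDiffOn ℝ ∞ (fun w : EuclideanSpace ℝ (Fin 3) =>
      (WithLp.toLp 2 (fun k : Fin 3 => ins i w (j.succAbove k) / ins i w j) :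
        EuclideanSpace ℝ (Fin 3))) {w | ins i w j ≠ 0} := by
  rw [contDiffOn_euclidean]
  intro k
  exact (contDiff_ins_coord i _).contDiffOn.div (contDiff_ins_coord i _).contDiffOn
    (fun w hw => hw)

theorem chart_trans_eq (i j : Fin 4) (w : EuclideanSpace ℝ (Fin 3)) :
    chart j ((chart i).symm w) =
      (WithLp.toLp 2 (fun k : Fin 3 => ins i w (j.succAbove k) / ins i w j) :
        EuclideanSpace ℝ (Fin 3)) := by
  show (WithLp.toLp 2 (fun k : Fin 3 =>
    (RP3.mk (ins i w) (ins_ne i w)).rep (j.succAbove k) /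
      (RP3.mk (ins i w) (ins_ne i w)).rep j) : EuclideanSpace ℝ (Fin 3)) = _
  congr 1
  funext k
  exact div_mk j _ (ins_ne i w)

theorem isManifold_RP3 : IsManifold (𝓡 3) ∞ RP3 := by
  refine isManifold_of_contDiffOn (𝓡 3) ∞ RP3 ?_
  rintro e e' ⟨i, rfl⟩ ⟨j, rfl⟩
  have h := contDiffOn_trans i j
  refine (h.mono ?_).congr ?_
  · intro w hw
    have h1 : w ∈ ((chart i).symm.trans (chart j)).source := by
      simpa only [mfld_simps] using hw.1
    have h2 : (chart i).symm w ∈ (chart j).source := by
      rw [OpenPartialHomeomorph.trans_source] at h1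
      exact h1.2
    exact (mk_mem_iff j (ins_ne i w)).1 h2
  · intro w hw
    show chart j ((chart i).symm w) = _
    exact chart_trans_eq i j w

end Pool.Agent.Helper156.RP.J30370
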