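import Pool.Agent.Helper156.RP.Base

open scoped Manifold ContDiff Topology RealInnerProductSpace
open Set Topology

noncomputable section

namespace Pool.Agent.Helper156.RP.J30435

open Pool.Agent.Helper156.RP


theorem fam_dist {N : ℕ} (B : Fin N → (E4 →ₗ[ℝ] E4)) (hB : ∀ k, (B k).IsSymmetric)
    (hsph : ∀ v : E4, ∑ k, ⟪B k v, v⟫ ^ 2 = (‖v‖ ^ 2) ^ 2) (q : EuclideanSpace ℝ (Fin N)) :
    ∃ (T : E4 →ₗ[ℝ] E4) (c : ℝ), T.IsSymmetric ∧
      ∀ v : E4, v ≠ 0 → ‖q - fam B v‖ ^ 2 = ray T c v := by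
  refine ⟨(-2 : ℝ) • ∑ k, q k • B k, ‖q‖ ^ 2 + 1, ?_, ?_⟩
  · intro x y
    simp only [LinearMap.smul_apply, LinearMap.sum_apply, inner_smul_left, inner_smul_right, sum_inner, inner_sum]
    congr 1
    refine Finset.sum_congr rfl fun k _ => ?_
    rw [hB k x y]
    simp
  · intro v hv
    have hv2 : ‖v‖ ^ 2 ≠ 0 := pow_ne_zero 2 (norm_ne_zero_iff.mpr hv)
    have h1 : ‖fam B v‖ ^ 2 = 1 := by
      rw [EuclideanSpace.norm_sq_eq]
      have e : ∀ k, ‖(fam B v) k‖ ^ 2 = ⟪B k v, v⟫ ^ 2 / (‖v‖ ^ 2) ^ 2 := by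
        intro k
        show ‖⟪B k v, v⟫ / ‖v‖ ^ 2‖ ^ 2 = _
        rw [Real.norm_eq_abs, sq_abs, div_pow]
      rw [Finset.sum_congr rfl fun k _ => e k, ← Finset.sum_div, hsph v, div_self (pow_ne_zero 2 hv2)]
    have h2 : ⟪q, fam B v⟫ = (∑ k, q k * ⟪B k v, v⟫) / ‖v‖ ^ 2 := by
      rw [PiLp.inner_apply, Finset.sum_div]
      refine Finset.sum_congr rfl fun k _ => ?_
      show ⟪B k v, v⟫ / ‖v‖ ^ 2 * q k = _
      ring
    have h3 : ⟪((-2 : ℝ) • ∑ k, q k • B k) v, v⟫ = -2 * ∑ k, q k * ⟪B k v, v⟫ := by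
      simp only [LinearMap.smul_apply, LinearMap.sum_apply, inner_smul_left, sum_inner]
      simp
    rw [norm_sub_sq_real, h1, h2, ray, h3]
    ring

end Pool.Agent.Helper156.RP.J30435
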