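import Pool.Agent.Helper156.RP.Defs

/-! Working forms of some definitions. -/

open scoped Manifold ContDiff Topology RealInnerProductSpace
open Set Topology

noncomputable section

namespace Pool.Agent.Helper156.RP

/-- The boundary of singular chains. -/
def bdry0 (k : Type) [Field k] (X : Type) [TopologicalSpace X] (n : ℕ) :
    (Simp X (n + 1) →₀ k) →ₗ[k] (Simp X n →₀ k) :=
  Finsupp.linearCombination k
    (fun σ => ∑ i : Fin (n + 2), Finsupp.single (simpFace n i σ) ((-1 : k) ^ (i : ℕ)))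

/-- The singular `n`-cycles. -/
def cycles0 (k : Type) [Field k] (X : Type) [TopologicalSpace X] :
    ∀ n : ℕ, Submodule k (Simp X n →₀ k)
  | 0 => ⊤
  | (n + 1) => LinearMap.ker (bdry0 k X n)

/-- The singular homology group. -/
def H0 (k : Type) [Field k] (X : Type) [TopologicalSpace X] (n : ℕ) :
    Submodule k ((Simp X n →₀ k) ⧸ LinearMap.range (bdry0 k X n)) :=
  (cycles0 k X n).map (LinearMap.range (bdry0 k X n)).mkQ

section Taut

variable {M : Type} [TopologicalSpace M]

/-- `x` is a critical point of `g : M → ℝ`. -/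
def IsCritical0 (n : ℕ) [ChartedSpace (EuclideanSpace ℝ (Fin n)) M] (g : M → ℝ) (x : M) : Prop :=
  mfderiv (𝓡 n) 𝓘(ℝ) g x = 0

/-- The second derivative of `g` at `x`, in the chart at `x`. -/
def hess0 (n : ℕ) [ChartedSpace (EuclideanSpace ℝ (Fin n)) M] (g : M → ℝ) (x : M) :
    EuclideanSpace ℝ (Fin n) →L[ℝ] EuclideanSpace ℝ (Fin n) →L[ℝ] ℝ :=
  fderiv ℝ (fderiv ℝ (g ∘ (extChartAt (𝓡 n) x).symm)) (extChartAt (𝓡 n) x x)

theorem isCritical_iff0 (n : ℕ) [ChartedSpace (EuclideanSpace ℝ (Fin n)) M] (g : M → ℝ) (x : M) :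
    IsCritical n g x ↔ IsCritical0 n g x := Iff.rfl

theorem hess_eq0 (n : ℕ) [ChartedSpace (EuclideanSpace ℝ (Fin n)) M] (g : M → ℝ) (x : M)
    (v w : EuclideanSpace ℝ (Fin n)) : hess n g x v w = hess0 n g x v w := by
  unfold hess hess0 inChart coord
  rw [iteratedFDeriv_two_apply]
  rfl

end Taut

end Pool.Agent.Helper156.RP
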